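import Mathlib
import Pool.Agent.Lib.MP_f45649_co.Defs

section

/-!
The graph `K_s` joined to a balanced complete bipartite graph with a matching added in each part.
-/

namespace Pool.Agent.MP_f45649_co

open SimpleGraph Finset

/-- Adjacency (on natural numbers) in the construction. -/
def R (s x y : ℕ) : Prop :=
  x ≠ y ∧ (x < s ∨ y < s ∨ (x - s) % 2 ≠ (y - s) % 2 ∨ (x - s) / 4 = (y - s) / 4)

instance (s x y : ℕ) : Decidable (R s x y) := by unfold R; infer_instance

lemma R_symm {s x y : ℕ} (h : R s x y) : R s y x := by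
  unfold R at *
  omega

/-- The construction on `n` vertices. -/
def H (s n : ℕ) : SimpleGraph (Fin n) where
  Adj x y := R s x y
  symm := ⟨fun _ _ h => R_symm h⟩
  loopless := ⟨fun _ h => h.1 rfl⟩

instance (s n : ℕ) : DecidableRel (H s n).Adj := fun x y => inferInstanceAs (Decidable (R s x y))

/-- No wheel avoids the first `s` vertices. -/
lemma no_wheel {s n k : ℕ} (hk : 2 ≤ k) (f : Copy (oddWheel k) (H s n))
    (hf : ∀ x, s ≤ (f x : ℕ)) : False := by
  have : NeZero (2 * k) := ⟨by omega⟩
  have hval1 : ((1 : Fin (2 * k)) : ℕ) = 1 := by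
    rw [Fin.val_one']
    exact Nat.mod_eq_of_lt (by omega)
  have hadj : ∀ j : Fin (2 * k), R s (f (some j)) (f (some (j + 1))) := by
    intro j
    have : (oddWheel k).Adj (some j) (some (j + 1)) := by
      show (cycleGraph (2 * k)).Adj j (j + 1)
      rw [cycleGraph_adj']
      right
      rw [add_sub_cancel_left, hval1]
    exact f.toHom.map_adj this
  have hhub : ∀ j : Fin (2 * k), R s (f none) (f (some j)) := by
    intro j
    have : (oddWheel k).Adj none (some j) := trivial
    exact f.toHom.map_adj this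
  have hinj : ∀ i j : Fin (2 * k), i ≠ j → (f (some i) : ℕ) ≠ f (some j) := by
    intro i j hij h
    apply hij
    have := f.injective (Fin.ext h)
    exact Option.some.inj this
  -- three consecutive vertices in the part opposite to the hub
  have hthree : ∀ j : Fin (2 * k),
      (∀ i ∈ ({j, j + 1, j + 1 + 1} : Finset (Fin (2 * k))),
        ((f (some i) : ℕ) - s) % 2 ≠ ((f none : ℕ) - s) % 2) → False := by
    intro j hj
    have h0 := hj j (by simp)
    have h1 := hj (j + 1) (by simp)
    have h2 := hj (j + 1 + 1) (by simp)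
    have a0 := hadj j
    have a1 := hadj (j + 1)
    have hne : j ≠ j + 1 + 1 := by
      intro h
      have h3 : (j + 1 + 1 : Fin (2 * k)) - j = 0 := by rw [← h]; exact sub_self j
      have h4 : (j + 1 + 1 : Fin (2 * k)) - j = 1 + 1 := by abel
      rw [h4] at h3
      have h5 := congrArg Fin.val h3
      rw [Fin.val_add, hval1] at h5
      simp only [Fin.val_zero] at h5
      rw [Nat.mod_eq_of_lt (by omega)] at h5
      omega
    have a2 := hinj j (j + 1 + 1) hne
    have s0 := hf (some j)
    have s1 := hf (some (j + 1))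
    have s2 := hf (some (j + 1 + 1))
    unfold R at a0 a1
    omega
  by_cases hex : ∃ j : Fin (2 * k), ((f (some j) : ℕ) - s) % 2 = ((f none : ℕ) - s) % 2
  · obtain ⟨j, hj⟩ := hex
    have huniq : ∀ i : Fin (2 * k), i ≠ j →
        ((f (some i) : ℕ) - s) % 2 ≠ ((f none : ℕ) - s) % 2 := by
      intro i hij hi
      have b0 := hhub i
      have b1 := hhub j
      have b2 := hinj i j hij
      have s0 := hf (some j)
      have s1 := hf (some i)
      have s2 := hf none
      unfold R at b0 b1
      omega
    have hne : ∀ t : ℕ, 0 < t → t < 2 * k → ∀ x : Fin (2 * k), (x : ℕ) = t → j + x ≠ j := by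
      intro t ht0 ht x hx h
      have : x = 0 := by simpa using h
      rw [this] at hx
      simp only [Fin.val_zero] at hx
      omega
    apply hthree (j + 1)
    intro i hi
    simp only [Finset.mem_insert, Finset.mem_singleton] at hi
    have v2 : ((1 + 1 : Fin (2 * k)) : ℕ) = 2 := by
      rw [Fin.val_add, hval1, Nat.mod_eq_of_lt (by omega)]
    have v3 : ((1 + (1 + 1) : Fin (2 * k)) : ℕ) = 3 := by
      rw [Fin.val_add, hval1, v2, Nat.mod_eq_of_lt (by omega)]
    apply huniq
    rcases hi with rfl | rfl | rfl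
    · exact hne 1 (by omega) (by omega) 1 hval1
    · rw [add_assoc]
      exact hne 2 (by omega) (by omega) _ v2
    · rw [add_assoc, add_assoc]
      exact hne 3 (by omega) (by omega) _ v3
  · push Not at hex
    exact hthree 0 (fun i _ => hex i)

/-- The construction with `m - 1` special vertices contains no union of `m` wheels. -/
theorem free {m n : ℕ} (hm : 1 ≤ m) (k : Fin m → ℕ) (hk : ∀ i, 2 ≤ k i) :
    (wheels k).Free (H (m - 1) n) := by
  rintro ⟨f⟩
  by_cases h : ∃ i : Fin m, ∀ x, m - 1 ≤ (f ⟨i, x⟩ : ℕ)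
  · obtain ⟨i, hi⟩ := h
    let g : Copy (oddWheel (k i)) (H (m - 1) n) :=
      ⟨⟨fun x => f ⟨i, x⟩, fun {a b} hab => f.toHom.map_adj ⟨i, a, b, rfl, rfl, hab⟩⟩, by
        intro a b hab
        have := f.injective hab
        simpa using this⟩
    exact no_wheel (hk i) g hi
  · push Not at h
    choose x hx using h
    have hcard : Fintype.card (Fin m) ≤ Fintype.card (Fin (m - 1)) := by
      apply Fintype.card_le_of_injective (fun i => (⟨f ⟨i, x i⟩, hx i⟩ : Fin (m - 1)))
      intro i j hij
      have h1 : (f ⟨i, x i⟩ : ℕ) = f ⟨j, x j⟩ := by simpa using hij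
      have h2 := f.injective (Fin.ext h1)
      have h3 := congrArg Sigma.fst h2
      exact h3
    simp only [Fintype.card_fin] at hcard
    omega

/-- The number of ordered adjacent pairs. -/
def cnt (s n : ℕ) : ℕ := ∑ x ∈ range n, ∑ y ∈ range n, if R s x y then 1 else 0

lemma two_mul_edges (s n : ℕ) : 2 * #(H s n).edgeFinset = cnt s n := by
  rw [← (H s n).sum_degrees_eq_twice_card_edges, cnt,
    ← Fin.sum_univ_eq_sum_range (fun x => ∑ y ∈ range n, if R s x y then 1 else 0)]
  refine Finset.sum_congr rfl (fun x _ => ?_)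
  rw [← Fin.sum_univ_eq_sum_range (fun y => if R s x y then 1 else 0), ← Finset.card_filter,
    ← card_neighborFinset_eq_degree, neighborFinset_eq_filter]
  rfl

lemma cnt_succ (s n : ℕ) :
    cnt s (n + 1) = cnt s n + 2 * ∑ y ∈ range n, if R s n y then 1 else 0 := by
  unfold cnt
  rw [Finset.sum_range_succ, Finset.sum_range_succ]
  have h0 : (if R s n n then 1 else 0) = 0 := if_neg (fun h => h.1 rfl)
  rw [h0]
  have h1 : ∀ x ∈ range n, (∑ y ∈ range (n + 1), if R s x y then 1 else 0) =
      (∑ y ∈ range n, if R s x y then 1 else 0) + if R s n x then 1 else 0 := by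
    intro x _
    rw [Finset.sum_range_succ]
    congr 1
    have : R s x n ↔ R s n x := ⟨R_symm, R_symm⟩
    simp only [this]
  rw [Finset.sum_congr rfl h1, Finset.sum_add_distrib]
  ring

lemma parity_count (N : ℕ) :
    (∑ u ∈ range N, if u % 2 = 0 then 1 else 0) = (N + 1) / 2 ∧
      (∑ u ∈ range N, if u % 2 = 1 then 1 else 0) = N / 2 := by
  induction N with
  | zero => simp
  | succ N ih =>
    rw [Finset.sum_range_succ, Finset.sum_range_succ, ih.1, ih.2]
    constructor <;> split_ifs <;> omega

lemma back_degree (s N : ℕ) :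
    s + (N + 1) / 2 + (if 2 ≤ N % 4 then 1 else 0) ≤
      ∑ y ∈ range (s + N), if R s (s + N) y then 1 else 0 := by
  rw [Finset.sum_range_add]
  have h1 : (∑ y ∈ range s, if R s (s + N) y then 1 else 0) = s := by
    rw [Finset.sum_congr rfl (g := fun _ => 1)]
    · simp
    · intro y hy
      have := Finset.mem_range.1 hy
      rw [if_pos]
      unfold R
      omega
  have h2 : (∑ u ∈ range N, if u % 2 ≠ N % 2 then 1 else 0) +
      (if 2 ≤ N % 4 then 1 else 0) ≤
      ∑ u ∈ range N, if R s (s + N) (s + u) then 1 else 0 := by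
    have h3 : ∀ u ∈ range N, (if R s (s + N) (s + u) then 1 else 0) =
        (if u % 2 ≠ N % 2 then 1 else 0) + if (u % 2 = N % 2 ∧ u / 4 = N / 4) then 1 else 0 := by
      intro u hu
      have := Finset.mem_range.1 hu
      have hR : R s (s + N) (s + u) ↔ (u % 2 ≠ N % 2 ∨ (u % 2 = N % 2 ∧ u / 4 = N / 4)) := by
        unfold R
        omega
      by_cases hp : u % 2 = N % 2 <;> by_cases hq : u / 4 = N / 4 <;> simp [hR, hp, hq]
    rw [Finset.sum_congr rfl h3, Finset.sum_add_distrib]
    apply Nat.add_le_add_left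
    split_ifs with h4
    · have h5 : N - 2 ∈ range N := Finset.mem_range.2 (by omega)
      have h6 : (if ((N - 2) % 2 = N % 2 ∧ (N - 2) / 4 = N / 4) then 1 else 0) = 1 := by
        rw [if_pos]
        omega
      calc 1 = (if ((N - 2) % 2 = N % 2 ∧ (N - 2) / 4 = N / 4) then 1 else 0) := h6.symm
        _ ≤ _ := Finset.single_le_sum
          (f := fun u => if (u % 2 = N % 2 ∧ u / 4 = N / 4) then 1 else 0)
          (fun _ _ => Nat.zero_le _) h5
    · exact Nat.zero_le _
  have h7 : (∑ u ∈ range N, if u % 2 ≠ N % 2 then 1 else 0) = (N + 1) / 2 := by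
    obtain ⟨p0, p1⟩ := parity_count N
    rcases Nat.mod_two_eq_zero_or_one N with h | h
    · rw [h]
      rw [Finset.sum_congr rfl (g := fun u => if u % 2 = 1 then 1 else 0)]
      · rw [p1]; omega
      · intro u _
        split_ifs <;> omega
    · rw [h]
      rw [Finset.sum_congr rfl (g := fun u => if u % 2 = 0 then 1 else 0)]
      · rw [p0]
      · intro u _
        split_ifs <;> omega
  omega

lemma cnt_lower (s N : ℕ) :
    N * N + 4 * (s * N) + 2 * N ≤ 2 * cnt s (s + N) +
      (if N % 4 = 0 then 0 else if N % 4 = 2 then 4 else 3) := by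
  induction N with
  | zero => simp
  | succ N ih =>
    have h1 := back_degree s N
    have h2 := cnt_succ s (s + N)
    rw [← add_assoc, h2]
    have h3 : (N + 1) * (N + 1) = N * N + 2 * N + 1 := by ring
    have h4 : s * (N + 1) = s * N + s := by ring
    rw [h3, h4]
    split_ifs at ih h1 ⊢ <;> omega

/-- The number of edges of the construction. -/
lemma edges_lower (s N : ℕ) :
    N * N + 4 * (s * N) + 2 * N ≤ 4 * #(H s (s + N)).edgeFinset + 4 := by
  have h1 := cnt_lower s N
  have h2 := two_mul_edges s (s + N)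
  split_ifs at h1 <;> omega

end Pool.Agent.MP_f45649_co
end

section

/-!
Wheels given by a hub and a cyclic list.
-/

namespace Pool.Agent.MP_f45649_co

open SimpleGraph Finset

variable {V : Type}

/-- The list `l` is the rim of a wheel with hub `v`. -/
structure IsRim (G : SimpleGraph V) (v : V) (l : List V) : Prop where
  nodup : l.Nodup
  hub : ∀ u ∈ l, G.Adj v u
  chain : l.IsChain G.Adj
  closed : ∀ a ∈ l.getLast?, ∀ b ∈ l.head?, G.Adj a b

lemma rim_copy {G : SimpleGraph V} {v : V} {l : List V} {k : ℕ} (hk : 1 ≤ k)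
    (h : IsRim G v l) (hl : l.length = 2 * k) :
    ∃ f : Copy (oddWheel k) G, f none = v ∧ ∀ i, f (some i) ∈ l := by
  classical
  let g : Option (Fin (2 * k)) → V := fun x =>
    match x with
    | none => v
    | some i => l.get (i.cast hl.symm)
  have hg : ∀ i : Fin (2 * k), g (some i) = l.get (i.cast hl.symm) := fun i => rfl
  have hmem : ∀ i : Fin (2 * k), g (some i) ∈ l := fun i => List.get_mem _ _
  have hsucc : ∀ i j : Fin (2 * k), (i : ℕ) + 1 = j → G.Adj (g (some i)) (g (some j)) := by
    intro i j hij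
    have h1 := List.isChain_iff_getElem.1 h.chain i (by rw [hl]; omega)
    rw [hg, hg]
    simp only [List.get_eq_getElem, Fin.val_cast]
    have : (j : ℕ) = i + 1 := hij.symm
    simp only [this]
    exact h1
  have hlast : ∀ i j : Fin (2 * k), (i : ℕ) + 1 = 2 * k → (j : ℕ) = 0 →
      G.Adj (g (some i)) (g (some j)) := by
    intro i j hi hj
    apply h.closed
    · rw [hg]
      rw [List.getLast?_eq_getElem?, List.get_eq_getElem]
      simp only [Fin.val_cast]
      have : l.length - 1 = i := by omega
      rw [this]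
      exact List.getElem?_eq_getElem (by rw [hl]; omega)
    · rw [hg]
      rw [List.head?_eq_getElem?, List.get_eq_getElem]
      simp only [Fin.val_cast, hj]
      exact List.getElem?_eq_getElem (by rw [hl]; omega)
  have hcyc : ∀ i j : Fin (2 * k), (cycleGraph (2 * k)).Adj i j →
      G.Adj (g (some i)) (g (some j)) := by
    have key : ∀ i j : Fin (2 * k), (j - i).val = 1 → G.Adj (g (some i)) (g (some j)) := by
      intro i j hij
      rw [Fin.sub_def] at hij
      simp only at hij
      have hi := i.isLt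
      have hj := j.isLt
      by_cases hle : (i : ℕ) ≤ j
      · have h1 : (2 * k - (i : ℕ) + j) = (j - i) + 2 * k := by omega
        rw [h1, Nat.add_mod_right, Nat.mod_eq_of_lt (by omega)] at hij
        exact hsucc i j (by omega)
      · rw [Nat.mod_eq_of_lt (by omega)] at hij
        exact hlast i j (by omega) (by omega)
    intro i j hij
    rw [cycleGraph_adj'] at hij
    rcases hij with h1 | h1
    · exact (key j i h1).symm
    · exact key i j h1
  refine ⟨⟨⟨g, ?_⟩, ?_⟩, rfl, hmem⟩
  · rintro (_ | a) (_ | b) hab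
    · exact hab.elim
    · exact h.hub _ (hmem b)
    · exact (h.hub _ (hmem a)).symm
    · exact hcyc a b hab
  · rintro (_ | a) (_ | b) hab
    · rfl
    · exact absurd (h.hub _ (hmem b)) (by
        have : g (some b) = v := hab.symm
        rw [this]
        exact G.loopless.irrefl v)
    · exact absurd (h.hub _ (hmem a)) (by
        have : g (some a) = v := hab
        rw [this]
        exact G.loopless.irrefl v)
    · have h1 : l.get (a.cast hl.symm) = l.get (b.cast hl.symm) := hab
      have h2 := (List.Nodup.get_inj_iff h.nodup).1 h1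
      have h3 : (a : ℕ) = b := by simpa using congrArg Fin.val h2
      rw [Fin.ext h3]

/-- Interleave single vertices with blocks. -/
def weave : List V → List (List V) → List V
  | x :: X, p :: P => x :: (p ++ weave X P)
  | _, _ => []

lemma weave_perm : ∀ (X : List V) (P : List (List V)), X.length = P.length →
    (weave X P).Perm (X ++ P.flatten)
  | [], [], _ => by simp [weave]
  | x :: X, p :: P, h => by
    have h1 := weave_perm X P (by simpa using h)
    simp only [weave, List.flatten_cons, List.cons_append]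
    apply List.Perm.cons
    calc (p ++ weave X P).Perm (p ++ (X ++ P.flatten)) := List.Perm.append_left p h1
      _ = ((p ++ X) ++ P.flatten) := by rw [List.append_assoc]
      List.Perm _ ((X ++ p) ++ P.flatten) := List.Perm.append_right _ List.perm_append_comm
      _ = (X ++ (p ++ P.flatten)) := by rw [List.append_assoc]
  | [], p :: P, h => by simp at h
  | x :: X, [], h => by simp at h

lemma weave_head : ∀ (X : List V) (P : List (List V)), X.length = P.length →
    ∀ b ∈ (weave X P).head?, b ∈ X
  | [], [], _, b, hb => by simp [weave] at hb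
  | x :: X, p :: P, _, b, hb => by
    simp only [weave, List.head?_cons, Option.mem_def, Option.some.injEq] at hb
    simp [hb]
  | [], p :: P, h, _, _ => by simp at h
  | x :: X, [], h, _, _ => by simp at h

lemma weave_last : ∀ (X : List V) (P : List (List V)), X.length = P.length →
    (∀ p ∈ P, p ≠ []) → ∀ b ∈ (weave X P).getLast?, b ∈ P.flatten
  | [], [], _, _, b, hb => by simp [weave] at hb
  | x :: X, p :: P, h, hP, b, hb => by
    have hp : p ≠ [] := hP p (by simp)
    simp only [weave] at hb
    rw [List.flatten_cons]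
    cases hw : weave X P with
    | nil =>
      rw [hw, List.append_nil, List.getLast?_cons, Option.mem_def, Option.some.injEq,
        List.getLast?_eq_getLast_of_ne_nil hp] at hb
      rw [← hb]
      simp only [Option.getD_some]
      exact List.mem_append_left _ (List.getLast_mem hp)
    | cons c l =>
      rw [hw] at hb
      have h1 : b ∈ (weave X P).getLast? := by
        rw [hw]
        have h2 : x :: (p ++ c :: l) = (x :: p) ++ (c :: l) := by simp
        rw [h2, List.getLast?_append] at hb
        rw [List.getLast?_eq_getLast_of_ne_nil (List.cons_ne_nil c l)] at hb ⊢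
        simpa using hb
      exact List.mem_append_right _ (weave_last X P (by simpa using h)
        (fun q hq => hP q (List.mem_cons_of_mem _ hq)) b h1)
  | [], p :: P, h, _, _, _ => by simp at h
  | x :: X, [], h, _, _, _ => by simp at h

lemma weave_chain {G : SimpleGraph V} : ∀ (X : List V) (P : List (List V)),
    X.length = P.length → (∀ p ∈ P, p ≠ []) → (∀ p ∈ P, p.IsChain G.Adj) →
    (∀ x ∈ X, ∀ y ∈ P.flatten, G.Adj x y) → (weave X P).IsChain G.Adj
  | [], [], _, _, _, _ => by simp [weave]
  | x :: X, p :: P, h, hP, hc, hadj => by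
    have hp : p ≠ [] := hP p (by simp)
    have hlen : X.length = P.length := by simpa using h
    have ih := weave_chain X P hlen (fun q hq => hP q (List.mem_cons_of_mem _ hq))
      (fun q hq => hc q (List.mem_cons_of_mem _ hq)) (fun a ha b hb => hadj a
        (List.mem_cons_of_mem _ ha) b (by
          rw [List.flatten_cons]; exact List.mem_append_right _ hb))
    simp only [weave]
    rw [List.isChain_cons, List.isChain_append]
    refine ⟨?_, hc p (by simp), ih, ?_⟩
    · intro y hy
      apply hadj x (by simp)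
      rw [List.flatten_cons]
      apply List.mem_append_left
      rw [List.head?_append_of_ne_nil _ hp] at hy
      exact List.mem_of_mem_head? hy
    · intro a ha b hb
      have hb' := weave_head X P hlen b hb
      apply (hadj b (List.mem_cons_of_mem _ hb') a _).symm
      rw [List.flatten_cons]
      exact List.mem_append_left _ (List.mem_of_mem_getLast? ha)
  | [], p :: P, h, _, _, _ => by simp at h
  | x :: X, [], h, _, _, _ => by simp at h

/-- The weaving lemma: a hub `v`, vertices `X` and blocks `P` which are completely joined give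
a rim of length `|X| + ∑ |p|`. -/
lemma weave_rim {G : SimpleGraph V} {v : V} {X : List V} {P : List (List V)}
    (hlen : X.length = P.length) (hne : ∀ p ∈ P, p ≠ []) (hc : ∀ p ∈ P, p.IsChain G.Adj)
    (hX : X.Nodup) (hP : P.flatten.Nodup) (hadj : ∀ x ∈ X, ∀ y ∈ P.flatten, G.Adj x y)
    (hvX : ∀ x ∈ X, G.Adj v x) (hvP : ∀ y ∈ P.flatten, G.Adj v y) :
    IsRim G v (weave X P) ∧ (weave X P).length = X.length + P.flatten.length ∧
      ∀ u ∈ weave X P, u ∈ X ∨ u ∈ P.flatten := by
  have hperm := weave_perm X P hlen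
  have hmem : ∀ u ∈ weave X P, u ∈ X ∨ u ∈ P.flatten := fun u hu => by
    have := hperm.mem_iff.1 hu
    exact List.mem_append.1 this
  refine ⟨⟨?_, ?_, ?_, ?_⟩, ?_, hmem⟩
  · rw [hperm.nodup_iff, List.nodup_append]
    refine ⟨hX, hP, ?_⟩
    intro a ha b hb hab
    have := hadj a ha b hb
    rw [hab] at this
    exact G.loopless.irrefl b this
  · intro u hu
    rcases hmem u hu with h | h
    · exact hvX u h
    · exact hvP u h
  · exact weave_chain X P hlen hne hc hadj
  · intro a ha b hb
    exact (hadj b (weave_head X P hlen b hb) a (weave_last X P hlen hne a ha)).symm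
  · rw [hperm.length_eq, List.length_append]

end Pool.Agent.MP_f45649_co
end

section

/-!
Finding wheels in nearly complete bipartite graphs.
-/

namespace Pool.Agent.MP_f45649_co

open SimpleGraph Finset

variable {V : Type} [Fintype V] [DecidableEq V]

/-- A bipartition with bounded degrees inside the parts and few missing edges across. -/
structure Split (G : SimpleGraph V) [DecidableRel G.Adj] (A B : Finset V) (K D : ℕ) : Prop where
  disj : Disjoint A B
  cover : A ∪ B = univ
  inA : ∀ v ∈ A, (A.filter (G.Adj v)).card ≤ K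
  inB : ∀ v ∈ B, (B.filter (G.Adj v)).card ≤ K
  missA : ∀ v ∈ A, (B.filter (fun w => ¬ G.Adj v w)).card ≤ D
  missB : ∀ v ∈ B, (A.filter (fun w => ¬ G.Adj v w)).card ≤ D

lemma Split.symm {G : SimpleGraph V} [DecidableRel G.Adj] {A B : Finset V} {K D : ℕ}
    (h : Split G A B K D) : Split G B A K D :=
  ⟨h.disj.symm, by rw [Finset.union_comm]; exact h.cover, h.inB, h.inA, h.missB, h.missA⟩

/-- Many disjoint paths with `s` vertices inside `B`. -/
def Supply (G : SimpleGraph V) (B : Finset V) (N s : ℕ) : Prop :=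
  ∀ Bad : Finset V, Bad.card ≤ N → ∃ p : List V, p.length = s ∧ p.Nodup ∧ p.IsChain G.Adj ∧
    ∀ y ∈ p, y ∈ B ∧ y ∉ Bad

omit [Fintype V] [DecidableEq V] in
lemma Supply.mono {G : SimpleGraph V} {B : Finset V} {N s t : ℕ} (h : Supply G B N s)
    (hts : t ≤ s) : Supply G B N t := by
  intro Bad hBad
  obtain ⟨p, h1, h2, h3, h4⟩ := h Bad hBad
  refine ⟨p.take t, ?_, ?_, ?_, ?_⟩
  · rw [List.length_take, h1]
    omega
  · exact h2.sublist (List.take_sublist t p)
  · exact h3.take t
  · intro y hy
    exact h4 y (List.mem_of_mem_take hy)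

omit [Fintype V] in
lemma supply_one {G : SimpleGraph V} {B : Finset V} {N : ℕ} (h : N < B.card) :
    Supply G B N 1 := by
  intro Bad hBad
  have h1 : (B \ Bad).Nonempty := by
    rw [← Finset.card_pos]
    have := Finset.le_card_sdiff Bad B
    omega
  obtain ⟨y, hy⟩ := h1
  have h2 := Finset.mem_sdiff.1 hy
  refine ⟨[y], rfl, List.nodup_singleton y, by simp, ?_⟩
  intro z hz
  rw [List.mem_singleton] at hz
  rw [hz]
  exact h2

omit [Fintype V] in
lemma supply_of_source {G : SimpleGraph V} [DecidableRel G.Adj] {B Src : Finset V} {N K s : ℕ}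
    (hK : ∀ v ∈ B, (B.filter (G.Adj v)).card ≤ K) (hSrc : Src ⊆ B)
    (hc : N * (1 + K + K * K) < Src.card) (blk : V → List V)
    (hlen : ∀ y ∈ Src, (blk y).length = s) (hnd : ∀ y ∈ Src, (blk y).Nodup)
    (hch : ∀ y ∈ Src, (blk y).IsChain G.Adj)
    (hmem : ∀ y ∈ Src, ∀ z ∈ blk y, z ∈ B ∧
      (z = y ∨ G.Adj y z ∨ ∃ w ∈ B, G.Adj y w ∧ G.Adj w z)) : Supply G B N s := by
  intro Bad hBad
  by_contra hcon
  push Not at hcon
  have hhit : ∀ y ∈ Src, ∃ z ∈ blk y, z ∈ Bad := by
    intro y hy
    obtain ⟨z, hz, hz'⟩ := hcon (blk y) (hlen y hy) (hnd y hy) (hch y hy)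
    exact ⟨z, hz, hz' (hmem y hy z hz).1⟩
  set ball : V → Finset V := fun z =>
    insert z (B.filter (G.Adj z)) ∪ (B.filter (G.Adj z)).biUnion (fun w => B.filter (G.Adj w))
    with hball
  have hballc : ∀ z ∈ B, (ball z).card ≤ 1 + K + K * K := by
    intro z hz
    have h1 := Finset.card_union_le (insert z (B.filter (G.Adj z)))
      ((B.filter (G.Adj z)).biUnion (fun w => B.filter (G.Adj w)))
    have h2 := Finset.card_insert_le z (B.filter (G.Adj z))
    have h3 := hK z hz
    have h4 : ((B.filter (G.Adj z)).biUnion (fun w => B.filter (G.Adj w))).card ≤ K * K := by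
      calc ((B.filter (G.Adj z)).biUnion (fun w => B.filter (G.Adj w))).card
          ≤ ∑ w ∈ B.filter (G.Adj z), (B.filter (G.Adj w)).card := Finset.card_biUnion_le
        _ ≤ ∑ w ∈ B.filter (G.Adj z), K :=
            Finset.sum_le_sum (fun w hw => hK w (Finset.mem_filter.1 hw).1)
        _ = (B.filter (G.Adj z)).card * K := by rw [Finset.sum_const, smul_eq_mul]
        _ ≤ K * K := Nat.mul_le_mul_right _ h3
    have h5 : (ball z).card ≤ _ := h1
    omega
  have hsub : Src ⊆ (Bad ∩ B).biUnion ball := by
    intro y hy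
    obtain ⟨z, hz, hzB⟩ := hhit y hy
    obtain ⟨h1, h2⟩ := hmem y hy z hz
    rw [Finset.mem_biUnion]
    refine ⟨z, Finset.mem_inter.2 ⟨hzB, h1⟩, ?_⟩
    simp only [hball, Finset.mem_union, Finset.mem_insert, Finset.mem_filter, Finset.mem_biUnion]
    rcases h2 with h | h | ⟨w, hw, h, h'⟩
    · exact Or.inl (Or.inl h.symm)
    · exact Or.inl (Or.inr ⟨hSrc hy, h.symm⟩)
    · exact Or.inr ⟨w, ⟨hw, h'.symm⟩, hSrc hy, h.symm⟩
  have h1 := Finset.card_le_card hsub
  have h2 : ((Bad ∩ B).biUnion ball).card ≤ N * (1 + K + K * K) := by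
    calc ((Bad ∩ B).biUnion ball).card ≤ ∑ z ∈ Bad ∩ B, (ball z).card := Finset.card_biUnion_le
      _ ≤ ∑ z ∈ Bad ∩ B, (1 + K + K * K) :=
          Finset.sum_le_sum (fun z hz => hballc z (Finset.mem_inter.1 hz).2)
      _ = (Bad ∩ B).card * (1 + K + K * K) := by rw [Finset.sum_const, smul_eq_mul]
      _ ≤ N * (1 + K + K * K) := by
          apply Nat.mul_le_mul_right
          exact le_trans (Finset.card_le_card Finset.inter_subset_left) hBad
  omega

omit [Fintype V] in
lemma greedy_blocks {G : SimpleGraph V} {B : Finset V} {N : ℕ} :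
    ∀ (ss : List ℕ) (Bad : Finset V), (∀ s ∈ ss, Supply G B N s) → Bad.card + ss.sum ≤ N →
    ∃ P : List (List V), P.map List.length = ss ∧ P.flatten.Nodup ∧
      (∀ y ∈ P.flatten, y ∈ B ∧ y ∉ Bad) ∧ ∀ p ∈ P, p.IsChain G.Adj
  | [], Bad, _, _ => ⟨[], rfl, by simp, by simp, by simp⟩
  | s :: ss, Bad, hs, hN => by
    rw [List.sum_cons] at hN
    obtain ⟨p, h1, h2, h3, h4⟩ := hs s (by simp) Bad (by omega)
    obtain ⟨P, g1, g2, g3, g4⟩ := greedy_blocks ss (Bad ∪ p.toFinset)
      (fun t ht => hs t (List.mem_cons_of_mem _ ht)) (by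
        have e1 := Finset.card_union_le Bad p.toFinset
        have e2 := List.toFinset_card_le p
        omega)
    refine ⟨p :: P, ?_, ?_, ?_, ?_⟩
    · rw [List.map_cons, g1, h1]
    · rw [List.flatten_cons, List.nodup_append]
      refine ⟨h2, g2, ?_⟩
      intro a ha b hb hab
      apply (g3 b hb).2
      rw [← hab]
      exact Finset.mem_union_right _ (List.mem_toFinset.2 ha)
    · intro y hy
      rw [List.flatten_cons, List.mem_append] at hy
      rcases hy with h | h
      · exact h4 y h
      · exact ⟨(g3 y h).1, fun h' => (g3 y h).2 (Finset.mem_union_left _ h')⟩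
    · intro q hq
      rcases List.mem_cons.1 hq with rfl | h
      · exact h3
      · exact g4 q h

lemma find_wheel {G : SimpleGraph V} [DecidableRel G.Adj] {A B : Finset V} {K D N : ℕ}
    (hS : Split G A B K D) {x : V} (hx : x ∈ A) (X : Finset V) (hX : X ⊆ A.filter (G.Adj x))
    (P₀ : List (List V)) (hne : ∀ p ∈ P₀, p ≠ []) (hch : ∀ p ∈ P₀, p.IsChain G.Adj)
    (hnd : P₀.flatten.Nodup) (hxP : ∀ y ∈ P₀.flatten, G.Adj x y)
    (hXP : ∀ x' ∈ X, ∀ y ∈ P₀.flatten, G.Adj x' y) (ss : List ℕ) (hss : ∀ s ∈ ss, 1 ≤ s)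
    (hsup : ∀ s ∈ ss, Supply G B N s) (hlen : X.card = P₀.length + ss.length)
    (hN : (X.card + 1) * D + P₀.flatten.length + ss.sum ≤ N) :
    ∃ l, IsRim G x l ∧ l.length = X.card + P₀.flatten.length + ss.sum := by
  have hXA : ∀ x' ∈ X, x' ∈ A ∧ G.Adj x x' := fun x' hx' => Finset.mem_filter.1 (hX hx')
  set Bad : Finset V := (B.filter (fun w => ¬ G.Adj x w) ∪
    X.biUnion (fun x' => B.filter (fun w => ¬ G.Adj x' w))) ∪ P₀.flatten.toFinset with hBad
  have hBadc : Bad.card ≤ (X.card + 1) * D + P₀.flatten.length := by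
    have e1 := Finset.card_union_le (B.filter (fun w => ¬ G.Adj x w) ∪
      X.biUnion (fun x' => B.filter (fun w => ¬ G.Adj x' w))) P₀.flatten.toFinset
    have e2 := Finset.card_union_le (B.filter (fun w => ¬ G.Adj x w))
      (X.biUnion (fun x' => B.filter (fun w => ¬ G.Adj x' w)))
    have e3 := hS.missA x hx
    have e4 : (X.biUnion (fun x' => B.filter (fun w => ¬ G.Adj x' w))).card ≤ X.card * D := by
      calc (X.biUnion (fun x' => B.filter (fun w => ¬ G.Adj x' w))).card
          ≤ ∑ x' ∈ X, (B.filter (fun w => ¬ G.Adj x' w)).card := Finset.card_biUnion_le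
        _ ≤ ∑ x' ∈ X, D := Finset.sum_le_sum (fun x' hx' => hS.missA x' (hXA x' hx').1)
        _ = X.card * D := by rw [Finset.sum_const, smul_eq_mul]
    have e5 := List.toFinset_card_le P₀.flatten
    have e6 : (X.card + 1) * D = X.card * D + D := by ring
    have e7 : Bad.card ≤ _ := e1
    omega
  obtain ⟨P, g1, g2, g3, g4⟩ := greedy_blocks ss Bad hsup (by omega)
  have hBadx : ∀ y ∈ B, y ∉ Bad → G.Adj x y := by
    intro y hyB hy
    by_contra hcon
    apply hy
    rw [hBad]
    exact Finset.mem_union_left _ (Finset.mem_union_left _ (Finset.mem_filter.2 ⟨hyB, hcon⟩))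
  have hBadX : ∀ x' ∈ X, ∀ y ∈ B, y ∉ Bad → G.Adj x' y := by
    intro x' hx' y hyB hy
    by_contra hcon
    apply hy
    rw [hBad]
    exact Finset.mem_union_left _ (Finset.mem_union_right _
      (Finset.mem_biUnion.2 ⟨x', hx', Finset.mem_filter.2 ⟨hyB, hcon⟩⟩))
  have hBadP : ∀ y, y ∉ Bad → y ∉ P₀.flatten := by
    intro y hy hy'
    apply hy
    rw [hBad]
    exact Finset.mem_union_right _ (List.mem_toFinset.2 hy')
  have hPl : P.length = ss.length := by rw [← g1, List.length_map]
  have hrim := weave_rim (G := G) (v := x) (X := X.toList) (P := P₀ ++ P)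
    (by rw [Finset.length_toList, List.length_append, hPl, hlen])
    (by
      intro p hp
      rcases List.mem_append.1 hp with h | h
      · exact hne p h
      · intro h0
        have h1 : p.length ∈ ss := by rw [← g1]; exact List.mem_map_of_mem h
        have h2 := hss _ h1
        rw [h0] at h2
        simp at h2)
    (by
      intro p hp
      rcases List.mem_append.1 hp with h | h
      · exact hch p h
      · exact g4 p h)
    X.nodup_toList
    (by
      rw [List.flatten_append, List.nodup_append]
      refine ⟨hnd, g2, ?_⟩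
      intro a ha b hb hab
      apply hBadP b (g3 b hb).2
      rw [← hab]
      exact ha)
    (by
      intro x' hx' y hy
      rw [Finset.mem_toList] at hx'
      rw [List.flatten_append, List.mem_append] at hy
      rcases hy with h | h
      · exact hXP x' hx' y h
      · exact hBadX x' hx' y (g3 y h).1 (g3 y h).2)
    (by
      intro x' hx'
      exact (hXA x' (Finset.mem_toList.1 hx')).2)
    (by
      intro y hy
      rw [List.flatten_append, List.mem_append] at hy
      rcases hy with h | h
      · exact hxP y h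
      · exact hBadx y (g3 y h).1 (g3 y h).2)
  refine ⟨_, hrim.1, ?_⟩
  rw [hrim.2.1, Finset.length_toList, List.flatten_append, List.length_append,
    List.length_flatten (L := P), g1]
  ring

lemma exists_sizes (s : ℕ) : ∀ p N : ℕ, p ≤ N → N ≤ p * s →
    ∃ ss : List ℕ, ss.length = p ∧ ss.sum = N ∧ ∀ t ∈ ss, 1 ≤ t ∧ t ≤ s
  | 0, N, _, h2 => ⟨[], rfl, by simp at h2; simp [h2], by simp⟩
  | p + 1, N, h1, h2 => by
    have h3 : (p + 1) * s = p * s + s := by ring
    have hs : 1 ≤ s := by
      rcases Nat.eq_zero_or_pos s with h | h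
      · rw [h] at h2; omega
      · exact h
    have hps : p ≤ p * s := Nat.le_mul_of_pos_right p hs
    by_cases hN : N ≤ p * s + 1
    · obtain ⟨ss, g1, g2, g3⟩ := exists_sizes s p (N - 1) (by omega) (by omega)
      refine ⟨1 :: ss, by simp [g1], ?_, ?_⟩
      · rw [List.sum_cons, g2]; omega
      · intro t ht
        rcases List.mem_cons.1 ht with rfl | h
        · exact ⟨le_refl _, hs⟩
        · exact g3 t h
    · obtain ⟨ss, g1, g2, g3⟩ := exists_sizes s p (p * s) hps (le_refl _)
      refine ⟨(N - p * s) :: ss, by simp [g1], ?_, ?_⟩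
      · rw [List.sum_cons, g2]; omega
      · intro t ht
        rcases List.mem_cons.1 ht with rfl | h
        · constructor <;> omega
        · exact g3 t h

lemma wheel_of_degree {G : SimpleGraph V} [DecidableRel G.Adj] {A B : Finset V} {K D N k p s : ℕ}
    (hS : Split G A B K D) {x : V} (hx : x ∈ A) (hp : p ≤ (A.filter (G.Adj x)).card)
    (hpk : p ≤ k) (hk : 2 * k ≤ p * (1 + s)) (hsup : Supply G B N s)
    (hN : (k + 1) * D + 2 * k ≤ N) : ∃ l, IsRim G x l ∧ l.length = 2 * k := by
  obtain ⟨X, hX, hXc⟩ := Finset.exists_subset_card_eq hp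
  obtain ⟨ss, g1, g2, g3⟩ := exists_sizes s p (2 * k - p) (by omega) (by
    have : p * (1 + s) = p + p * s := by ring
    omega)
  obtain ⟨l, hl, hll⟩ := find_wheel hS hx X hX [] (by simp) (by simp) (by simp) (by simp)
    (by simp) ss (fun t ht => (g3 t ht).1) (fun t ht => hsup.mono (g3 t ht).2)
    (by simp [hXc, g1]) (by
      simp only [List.flatten_nil, List.length_nil, hXc, g2]
      have : (p + 1) * D ≤ (k + 1) * D := Nat.mul_le_mul_right _ (by omega)
      omega)
  refine ⟨l, hl, ?_⟩
  rw [hll]
  simp only [List.flatten_nil, List.length_nil, hXc, g2]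
  omega

end Pool.Agent.MP_f45649_co
end

section

/-!
The extremal problem for one odd wheel in nearly complete bipartite graphs.
-/

namespace Pool.Agent.MP_f45649_co

open SimpleGraph Finset

variable {V : Type} [Fintype V] [DecidableEq V]

/-- The degree of `v` into `S`. -/
def dg (G : SimpleGraph V) [DecidableRel G.Adj] (S : Finset V) (v : V) : ℕ :=
  (S.filter (G.Adj v)).card

/-- The number of ordered adjacent pairs inside `S`. -/
def sg (G : SimpleGraph V) [DecidableRel G.Adj] (S : Finset V) : ℕ := ∑ v ∈ S, dg G S v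

/-- The number of vertices of `S` that have at least `t` neighbours in `S`. -/
def cg (G : SimpleGraph V) [DecidableRel G.Adj] (S : Finset V) (t : ℕ) : ℕ :=
  (S.filter (fun v => t ≤ dg G S v)).card

lemma edges_split {G : SimpleGraph V} [DecidableRel G.Adj] {A B : Finset V} {K D : ℕ}
    (hS : Split G A B K D) :
    2 * #G.edgeFinset ≤ 2 * (A.card * B.card) + sg G A + sg G B := by
  rw [← G.sum_degrees_eq_twice_card_edges, ← hS.cover, Finset.sum_union hS.disj]
  have hdeg : ∀ v, G.degree v = dg G A v + dg G B v := by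
    intro v
    rw [← G.card_neighborFinset_eq_degree, neighborFinset_eq_filter, ← hS.cover,
      Finset.filter_union]
    exact Finset.card_union_of_disjoint (Finset.disjoint_filter_filter hS.disj)
  have h1 : ∑ v ∈ A, G.degree v = sg G A + ∑ v ∈ A, dg G B v := by
    unfold sg
    rw [← Finset.sum_add_distrib]
    exact Finset.sum_congr rfl (fun v _ => hdeg v)
  have h2 : ∑ v ∈ B, G.degree v = sg G B + ∑ v ∈ B, dg G A v := by
    unfold sg
    rw [← Finset.sum_add_distrib]
    refine Finset.sum_congr rfl (fun v _ => ?_)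
    rw [hdeg v, add_comm]
  have h3 : ∑ v ∈ A, dg G B v ≤ A.card * B.card := by
    rw [← smul_eq_mul]
    exact Finset.sum_le_card_nsmul _ _ _ (fun v _ => Finset.card_filter_le _ _)
  have h4 : ∑ v ∈ B, dg G A v ≤ A.card * B.card := by
    rw [mul_comm, ← smul_eq_mul]
    exact Finset.sum_le_card_nsmul _ _ _ (fun v _ => Finset.card_filter_le _ _)
  omega

omit [Fintype V] [DecidableEq V] in
lemma cg_anti {G : SimpleGraph V} [DecidableRel G.Adj] {S : Finset V} {s t : ℕ} (h : s ≤ t) :
    cg G S t ≤ cg G S s := by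
  apply Finset.card_le_card
  intro v hv
  rw [Finset.mem_filter] at hv ⊢
  exact ⟨hv.1, le_trans h hv.2⟩

omit [Fintype V] [DecidableEq V] in
lemma exists_of_cg {G : SimpleGraph V} [DecidableRel G.Adj] {S : Finset V} {t : ℕ}
    (h : 0 < cg G S t) : ∃ v ∈ S, t ≤ dg G S v := by
  obtain ⟨v, hv⟩ := Finset.card_pos.1 h
  rw [Finset.mem_filter] at hv
  exact ⟨v, hv⟩

omit [Fintype V] [DecidableEq V] in
lemma sg_le {G : SimpleGraph V} [DecidableRel G.Adj] {S : Finset V} {t : ℕ}
    (h : ∀ v ∈ S, dg G S v ≤ t) : sg G S ≤ t * S.card := by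
  unfold sg
  rw [mul_comm, ← smul_eq_mul]
  exact Finset.sum_le_card_nsmul _ _ _ h

omit [Fintype V] [DecidableEq V] in
lemma sg_le' {G : SimpleGraph V} [DecidableRel G.Adj] {S : Finset V} {t k : ℕ}
    (h : ∀ v ∈ S, dg G S v ≤ k) : sg G S ≤ t * S.card + cg G S (t + 1) * k := by
  unfold sg cg
  calc ∑ v ∈ S, dg G S v ≤ ∑ v ∈ S, (t + if t + 1 ≤ dg G S v then k else 0) := by
        refine Finset.sum_le_sum (fun v hv => ?_)
        have := h v hv
        split_ifs <;> omega
    _ = t * S.card + (S.filter (fun v => t + 1 ≤ dg G S v)).card * k := by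
        rw [Finset.sum_add_distrib, Finset.sum_const, smul_eq_mul, ← Finset.sum_filter,
          Finset.sum_const, smul_eq_mul, mul_comm t]

omit [Fintype V] in
lemma supply_two {G : SimpleGraph V} [DecidableRel G.Adj] {B : Finset V} {N K : ℕ}
    (hK : ∀ v ∈ B, (B.filter (G.Adj v)).card ≤ K) (hc : N * (1 + K + K * K) < cg G B 1) :
    Supply G B N 2 := by
  have h1 : ∀ y ∈ B.filter (fun v => 1 ≤ dg G B v), ∃ z ∈ B, G.Adj y z := by
    intro y hy
    have h2 := (Finset.mem_filter.1 hy).2
    obtain ⟨z, hz⟩ := Finset.card_pos.1 (show 0 < (B.filter (G.Adj y)).card from h2)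
    exact ⟨z, Finset.mem_filter.1 hz⟩
  choose! f hf1 hf2 using h1
  refine supply_of_source hK (Finset.filter_subset _ _) hc (fun y => [y, f y]) ?_ ?_ ?_ ?_
  · intro y _; rfl
  · intro y hy
    have := hf2 y hy
    simp only [List.nodup_cons, List.mem_singleton, List.not_mem_nil, not_false_eq_true,
      List.nodup_nil, and_true]
    exact this.ne
  · intro y hy
    simpa using hf2 y hy
  · intro y hy z hz
    simp only [List.mem_cons, List.not_mem_nil, or_false] at hz
    rcases hz with rfl | rfl
    · exact ⟨(Finset.mem_filter.1 hy).1, Or.inl rfl⟩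
    · exact ⟨hf1 y hy, Or.inr (Or.inl (hf2 y hy))⟩

omit [Fintype V] in
lemma supply_three {G : SimpleGraph V} [DecidableRel G.Adj] {B : Finset V} {N K : ℕ}
    (hK : ∀ v ∈ B, (B.filter (G.Adj v)).card ≤ K) (hc : N * (1 + K + K * K) < cg G B 2) :
    Supply G B N 3 := by
  have h1 : ∀ y ∈ B.filter (fun v => 2 ≤ dg G B v), ∃ z w, z ∈ B ∧ w ∈ B ∧ G.Adj y z ∧
      G.Adj y w ∧ z ≠ w := by
    intro y hy
    have h2 : 1 < (B.filter (G.Adj y)).card := (Finset.mem_filter.1 hy).2
    obtain ⟨z, hz, w, hw, hzw⟩ := Finset.one_lt_card.1 h2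
    have hz' := Finset.mem_filter.1 hz
    have hw' := Finset.mem_filter.1 hw
    exact ⟨z, w, hz'.1, hw'.1, hz'.2, hw'.2, hzw⟩
  choose! f g hf using h1
  refine supply_of_source hK (Finset.filter_subset _ _) hc (fun y => [f y, y, g y]) ?_ ?_ ?_ ?_
  · intro y _; rfl
  · intro y hy
    obtain ⟨a1, a2, a3, a4, a5⟩ := hf y hy
    simp only [List.nodup_cons, List.mem_cons, List.not_mem_nil, or_false, not_or,
      not_false_eq_true, List.nodup_nil, and_true]
    exact ⟨⟨a3.ne', a5⟩, a4.ne⟩
  · intro y hy
    obtain ⟨a1, a2, a3, a4, a5⟩ := hf y hy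
    simp [a3.symm, a4]
  · intro y hy z hz
    obtain ⟨a1, a2, a3, a4, a5⟩ := hf y hy
    simp only [List.mem_cons, List.not_mem_nil, or_false] at hz
    rcases hz with rfl | rfl | rfl
    · exact ⟨a1, Or.inr (Or.inl a3)⟩
    · exact ⟨(Finset.mem_filter.1 hy).1, Or.inl rfl⟩
    · exact ⟨a2, Or.inr (Or.inl a4)⟩

omit [Fintype V] in
lemma supply_four {G : SimpleGraph V} [DecidableRel G.Adj] {B Src : Finset V} {N K : ℕ}
    (hK : ∀ v ∈ B, (B.filter (G.Adj v)).card ≤ K) (hSrc : Src ⊆ B)
    (hc : N * (1 + K + K * K) < Src.card) (h3 : ∀ y ∈ Src, 2 ≤ dg G B y)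
    (h3' : ∀ y ∈ Src, ∀ z ∈ B, G.Adj y z → 3 ≤ dg G B z) :
    Supply G B N 4 := by
  have h1 : ∀ y ∈ Src, ∃ z w u, z ∈ B ∧ w ∈ B ∧ u ∈ B ∧ G.Adj y z ∧
      G.Adj y w ∧ z ≠ w ∧ G.Adj w u ∧ u ≠ y ∧ u ≠ z := by
    intro y hy
    have h2 : 1 < (B.filter (G.Adj y)).card := h3 y hy
    obtain ⟨z, hz, w, hw, hzw⟩ := Finset.one_lt_card.1 h2
    have hz' := Finset.mem_filter.1 hz
    have hw' := Finset.mem_filter.1 hw
    have h4 : 3 ≤ (B.filter (G.Adj w)).card := h3' y hy w hw'.1 hw'.2
    have h5 : ((B.filter (G.Adj w)) \ {y, z}).Nonempty := by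
      rw [← Finset.card_pos]
      have e1 := Finset.le_card_sdiff {y, z} (B.filter (G.Adj w))
      have e2 : ({y, z} : Finset V).card ≤ 2 := Finset.card_le_two
      omega
    obtain ⟨u, hu⟩ := h5
    rw [Finset.mem_sdiff, Finset.mem_filter, Finset.mem_insert, Finset.mem_singleton,
      not_or] at hu
    exact ⟨z, w, u, hz'.1, hw'.1, hu.1.1, hz'.2, hw'.2, hzw, hu.1.2, hu.2.1, hu.2.2⟩
  choose! f g h hf using h1
  refine supply_of_source hK hSrc hc (fun y => [f y, y, g y, h y]) ?_ ?_ ?_ ?_
  · intro y _; rfl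
  · intro y hy
    obtain ⟨a1, a2, a3, a4, a5, a6, a7, a8, a9⟩ := hf y hy
    simp only [List.nodup_cons, List.mem_cons, List.not_mem_nil, or_false, not_or,
      not_false_eq_true, List.nodup_nil, and_true]
    exact ⟨⟨a4.ne', a6, a9.symm⟩, ⟨a5.ne, a8.symm⟩, a7.ne⟩
  · intro y hy
    obtain ⟨a1, a2, a3, a4, a5, a6, a7, a8, a9⟩ := hf y hy
    simp [a4.symm, a5, a7]
  · intro y hy z hz
    obtain ⟨a1, a2, a3, a4, a5, a6, a7, a8, a9⟩ := hf y hy
    simp only [List.mem_cons, List.not_mem_nil, or_false] at hz
    rcases hz with rfl | rfl | rfl | rfl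
    · exact ⟨a1, Or.inr (Or.inl a4)⟩
    · exact ⟨hSrc hy, Or.inl rfl⟩
    · exact ⟨a2, Or.inr (Or.inl a5)⟩
    · exact ⟨a3, Or.inr (Or.inr ⟨_, a2, a5, a7⟩)⟩

end Pool.Agent.MP_f45649_co
end

section

/-!
Upper bound for the number of edges without a packing of stars.
-/

namespace Pool.Agent.MP_f45649_co

open SimpleGraph Finset

variable {V : Type} [Fintype V] [DecidableEq V]

/-- A packing of disjoint stars with prescribed numbers of leaves. -/
structure Packing (G : SimpleGraph V) {m : ℕ} (k : Fin m → ℕ) where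
  c : Fin m → V
  L : Fin m → Finset V
  card_L : ∀ i, (L i).card = k i
  adj : ∀ i, ∀ w ∈ L i, G.Adj (c i) w
  cne : ∀ i j, i ≠ j → c i ≠ c j
  cL : ∀ i j, c i ∉ L j
  LL : ∀ i j, i ≠ j → Disjoint (L i) (L j)

omit [Fintype V] [DecidableEq V] in
lemma Packing.contained {G : SimpleGraph V} {m : ℕ} {k : Fin m → ℕ} (P : Packing G k) :
    stars k ⊑ G := by
  classical
  let e : ∀ i, Fin (k i) ≃ P.L i := fun i => (finCongr (P.card_L i).symm).trans (P.L i).equivFin.symm
  let f : (Σ i, Option (Fin (k i))) → V := fun x =>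
    match x with
    | ⟨i, none⟩ => P.c i
    | ⟨i, some j⟩ => (e i j : V)
  have hmem : ∀ i j, ((e i j : P.L i) : V) ∈ P.L i := fun i j => (e i j).2
  refine ⟨⟨⟨f, ?_⟩, ?_⟩⟩
  · rintro x y ⟨i, a, b, rfl, rfl, h⟩
    change (starGraph (none : Option (Fin (k i)))).Adj a b at h
    rw [starGraph_adj] at h
    obtain ⟨h1, h2⟩ := h
    rcases a with _ | a <;> rcases b with _ | b
    · exact absurd rfl h1
    · exact P.adj i _ (hmem i b)
    · exact (P.adj i _ (hmem i a)).symm
    · rcases h2 with h2 | h2 <;> simp at h2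
  · rintro ⟨i, a⟩ ⟨j, b⟩ h
    rcases a with _ | a <;> rcases b with _ | b
    · have h' : P.c i = P.c j := h
      by_cases hij : i = j
      · subst hij; rfl
      · exact absurd h' (P.cne i j hij)
    · have h' : P.c i = ((e j b : P.L j) : V) := h
      exact absurd (h' ▸ hmem j b) (P.cL i j)
    · have h' : ((e i a : P.L i) : V) = P.c j := h
      exact absurd (h' ▸ hmem i a) (P.cL j i)
    · have h' : ((e i a : P.L i) : V) = ((e j b : P.L j) : V) := h
      by_cases hij : i = j
      · subst hij
        have := (e i).injective (Subtype.ext h')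
        rw [this]
      · exfalso
        apply Finset.disjoint_left.1 (P.LL i j hij) (hmem i a)
        rw [h']
        exact hmem j b

/-- The closed neighbourhood. -/
def cn (G : SimpleGraph V) [DecidableRel G.Adj] (v : V) : Finset V :=
  insert v (G.neighborFinset v)

lemma card_cn_le {G : SimpleGraph V} [DecidableRel G.Adj] {K : ℕ} (hK : ∀ v, G.degree v < K)
    (v : V) : (cn G v).card ≤ K := by
  unfold cn
  have h1 := Finset.card_insert_le v (G.neighborFinset v)
  have h2 := hK v
  rw [G.card_neighborFinset_eq_degree] at h1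
  omega

/-- Greedy choice of vertices with disjoint closed neighbourhoods. -/
lemma exists_spread {G : SimpleGraph V} [DecidableRel G.Adj] {K : ℕ} (hK0 : 0 < K)
    (hK : ∀ v, G.degree v < K) (r : ℕ) (B : Finset V) (hB : r * K ^ 2 ≤ B.card) :
    ∃ c : Fin r → V, (∀ i, c i ∈ B) ∧ ∀ i j, i ≠ j → Disjoint (cn G (c i)) (cn G (c j)) := by
  induction r generalizing B with
  | zero => exact ⟨Fin.elim0, fun i => i.elim0, fun i => i.elim0⟩
  | succ r ih =>
    have hpos : 0 < K ^ 2 := by positivity
    have hne : B.Nonempty := by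
      rw [← Finset.card_pos]
      have : 0 < (r + 1) * K ^ 2 := by positivity
      omega
    obtain ⟨v, hv⟩ := hne
    set Z := (cn G v).biUnion (fun z => cn G z) with hZ
    have hZc : Z.card ≤ K ^ 2 := by
      calc Z.card ≤ ∑ z ∈ cn G v, (cn G z).card := Finset.card_biUnion_le
        _ ≤ ∑ z ∈ cn G v, K := Finset.sum_le_sum (fun z _ => card_cn_le hK z)
        _ = (cn G v).card * K := by rw [Finset.sum_const, smul_eq_mul]
        _ ≤ K * K := Nat.mul_le_mul_right _ (card_cn_le hK v)
        _ = K ^ 2 := (sq K).symm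
    have hB' : r * K ^ 2 ≤ (B \ Z).card := by
      have h1 := Finset.le_card_sdiff Z B
      have h2 : (r + 1) * K ^ 2 = r * K ^ 2 + K ^ 2 := by ring
      omega
    obtain ⟨c, hc1, hc2⟩ := ih (B \ Z) hB'
    have hfar : ∀ i, Disjoint (cn G v) (cn G (c i)) := by
      intro i
      rw [Finset.disjoint_left]
      intro z hz1 hz2
      have h3 := (Finset.mem_sdiff.1 (hc1 i)).2
      apply h3
      rw [hZ, Finset.mem_biUnion]
      refine ⟨z, hz1, ?_⟩
      unfold cn at hz2 ⊢
      rw [Finset.mem_insert, mem_neighborFinset] at hz2 ⊢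
      rcases hz2 with h | h
      · left; exact h.symm
      · right; exact h.symm
    refine ⟨Fin.cons v c, ?_, ?_⟩
    · intro i
      refine Fin.cases ?_ (fun i => ?_) i
      · exact hv
      · exact (Finset.mem_sdiff.1 (hc1 i)).1
    · intro i j
      refine Fin.cases ?_ (fun i => ?_) i
      · refine Fin.cases ?_ (fun j => ?_) j
        · intro h; exact absurd rfl h
        · intro _; exact hfar j
      · refine Fin.cases ?_ (fun j => ?_) j
        · intro _; exact (hfar i).symm
        · intro h
          simp only [Fin.cons_succ]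
          exact hc2 i j (fun h' => h (by rw [h']))

/-- A graph without a packing has few edges. -/
theorem edges_le (m : ℕ) : ∃ C : ℕ, ∀ (V : Type) [Fintype V] [DecidableEq V] (G : SimpleGraph V)
    [DecidableRel G.Adj] (k : Fin m → ℕ), (∀ i, 1 ≤ k i) → (∀ i, k i ≤ 2 * (m - i)) →
    IsEmpty (Packing G k) → 2 * #G.edgeFinset + Fintype.card V ≤ 2 * m * Fintype.card V + C := by
  induction m with
  | zero =>
    refine ⟨0, fun V _ _ G _ k _ _ h => ?_⟩
    exfalso
    exact h.false ⟨Fin.elim0, Fin.elim0, fun i => i.elim0, fun i => i.elim0, fun i => i.elim0,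
      fun i => i.elim0, fun i => i.elim0⟩
  | succ m ih =>
    obtain ⟨C, hC⟩ := ih
    set K := m * (2 * m + 1) + 2 * (m + 1) + 1 with hKdef
    refine ⟨C + (m + 1) * K ^ 2 * K, fun V _ _ G _ k hk1 hk2 hP => ?_⟩
    by_cases hdeg : ∃ v, K ≤ G.degree v
    · obtain ⟨v, hv⟩ := hdeg
      have hP' : IsEmpty (Packing (G.deleteIncidenceSet v) (fun i : Fin m => k i.succ)) := by
        constructor
        intro P
        apply not_nonempty_iff.2 hP
        have hadj : ∀ i, ∀ w ∈ P.L i, G.Adj (P.c i) w ∧ P.c i ≠ v ∧ w ≠ v := fun i w hw =>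
          deleteIncidenceSet_adj.1 (P.adj i w hw)
        have hcv : ∀ i, P.c i ≠ v := by
          intro i
          have hne : (P.L i).Nonempty := by
            rw [← Finset.card_pos, P.card_L]
            exact hk1 _
          obtain ⟨w, hw⟩ := hne
          exact (hadj i w hw).2.1
        have hLv : ∀ i, v ∉ P.L i := fun i hw => (hadj i v hw).2.2 rfl
        set U : Finset V := univ.image P.c ∪ univ.biUnion P.L with hU
        have hUc : U.card ≤ m * (2 * m + 1) := by
          have h1 : (univ.image P.c).card ≤ m := by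
            simpa using (Finset.card_image_le (s := (univ : Finset (Fin m))) (f := P.c))
          have h2 : (univ.biUnion P.L).card ≤ m * (2 * m) := by
            calc (univ.biUnion P.L).card ≤ ∑ i : Fin m, (P.L i).card := Finset.card_biUnion_le
              _ ≤ ∑ _i : Fin m, 2 * m := by
                  refine Finset.sum_le_sum (fun i _ => ?_)
                  rw [P.card_L]
                  have := hk2 i.succ
                  rw [Fin.val_succ] at this
                  omega
              _ = m * (2 * m) := by simp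
          have h3 : U.card ≤ _ := Finset.card_union_le (univ.image P.c) (univ.biUnion P.L)
          have h4 : m * (2 * m + 1) = m + m * (2 * m) := by ring
          omega
        have hk0 : k 0 ≤ (G.neighborFinset v \ U).card := by
          have h1 := Finset.le_card_sdiff U (G.neighborFinset v)
          rw [G.card_neighborFinset_eq_degree] at h1
          have h2 := hk2 0
          rw [Fin.val_zero] at h2
          omega
        obtain ⟨L₀, hL₀, hL₀c⟩ := Finset.exists_subset_card_eq hk0
        have hL₀adj : ∀ w ∈ L₀, G.Adj v w := fun w hw => by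
          have := (Finset.mem_sdiff.1 (hL₀ hw)).1
          rwa [mem_neighborFinset] at this
        have hL₀U : ∀ w ∈ L₀, w ∉ U := fun w hw => (Finset.mem_sdiff.1 (hL₀ hw)).2
        have hcU : ∀ i, P.c i ∈ U := fun i =>
          Finset.mem_union_left _ (Finset.mem_image_of_mem _ (Finset.mem_univ i))
        have hLU : ∀ i, ∀ w ∈ P.L i, w ∈ U := fun i w hw =>
          Finset.mem_union_right _ (Finset.mem_biUnion.2 ⟨i, Finset.mem_univ i, hw⟩)
        refine ⟨⟨Fin.cons v P.c, Fin.cons L₀ P.L, ?_, ?_, ?_, ?_, ?_⟩⟩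
        · intro i
          refine Fin.cases ?_ (fun i => ?_) i
          · exact hL₀c
          · exact P.card_L i
        · intro i
          refine Fin.cases ?_ (fun i => ?_) i
          · exact hL₀adj
          · exact fun w hw => (hadj i w hw).1
        · intro i j
          refine Fin.cases ?_ (fun i => ?_) i
          · refine Fin.cases ?_ (fun j => ?_) j
            · intro h; exact absurd rfl h
            · intro _; exact (hcv j).symm
          · refine Fin.cases ?_ (fun j => ?_) j
            · intro _; exact hcv i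
            · intro h
              simp only [Fin.cons_succ]
              exact P.cne i j (fun h' => h (by rw [h']))
        · intro i j
          refine Fin.cases ?_ (fun i => ?_) i
          · refine Fin.cases ?_ (fun j => ?_) j
            · exact fun h => G.loopless.irrefl v (hL₀adj v h)
            · exact hLv j
          · refine Fin.cases ?_ (fun j => ?_) j
            · exact fun h => hL₀U _ h (hcU i)
            · exact P.cL i j
        · intro i j
          refine Fin.cases ?_ (fun i => ?_) i
          · refine Fin.cases ?_ (fun j => ?_) j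
            · intro h; exact absurd rfl h
            · intro _
              exact Finset.disjoint_left.2 (fun w hw hw' => hL₀U w hw (hLU j w hw'))
          · refine Fin.cases ?_ (fun j => ?_) j
            · intro _
              exact Finset.disjoint_left.2 (fun w hw hw' => hL₀U w hw' (hLU i w hw))
            · intro h
              simp only [Fin.cons_succ]
              exact P.LL i j (fun h' => h (by rw [h']))
      have h1 := hC V (G.deleteIncidenceSet v) (fun i => k i.succ) (fun i => hk1 _) (fun i => by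
        have := hk2 i.succ
        rw [Fin.val_succ] at this
        omega) hP'
      have h2 := G.card_edgeFinset_deleteIncidenceSet v
      have h3 := G.degree_lt_card_verts v
      have h4 : 2 * (m + 1) * Fintype.card V = 2 * m * Fintype.card V + 2 * Fintype.card V := by
        ring
      have h5 : G.degree v ≤ #G.edgeFinset := by
        rw [← G.card_incidenceFinset_eq_degree]
        exact Finset.card_le_card (G.incidenceFinset_subset v)
      omega
    · push Not at hdeg
      set B : Finset V := univ.filter (fun v => 2 * (m + 1) ≤ G.degree v) with hB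
      have hBc : B.card < (m + 1) * K ^ 2 := by
        by_contra hcon
        push Not at hcon
        obtain ⟨c, hc1, hc2⟩ := exists_spread (by omega) hdeg (m + 1) B hcon
        have hdc : ∀ i, k i ≤ (G.neighborFinset (c i)).card := by
          intro i
          rw [G.card_neighborFinset_eq_degree]
          have h1 := (Finset.mem_filter.1 (hc1 i)).2
          have h2 := hk2 i
          omega
        choose L hL hLc using fun i => Finset.exists_subset_card_eq (hdc i)
        have hLcn : ∀ i, ∀ w ∈ L i, w ∈ cn G (c i) := fun i w hw =>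
          Finset.mem_insert_of_mem (hL i hw)
        have hccn : ∀ i, c i ∈ cn G (c i) := fun i => Finset.mem_insert_self _ _
        apply not_nonempty_iff.2 hP
        refine ⟨⟨c, L, hLc, ?_, ?_, ?_, ?_⟩⟩
        · intro i w hw
          have := hL i hw
          rwa [mem_neighborFinset] at this
        · intro i j hij heq
          apply Finset.disjoint_left.1 (hc2 i j hij) (hccn i)
          rw [heq]
          exact hccn j
        · intro i j h
          by_cases hij : i = j
          · subst hij
            have := hL i h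
            rw [mem_neighborFinset] at this
            exact G.loopless.irrefl _ this
          · exact Finset.disjoint_left.1 (hc2 i j hij) (hccn i) (hLcn j _ h)
        · intro i j hij
          exact Finset.disjoint_left.2 (fun w hw hw' =>
            Finset.disjoint_left.1 (hc2 i j hij) (hLcn i w hw) (hLcn j w hw'))
      have h1 : 2 * #G.edgeFinset = ∑ v, G.degree v := (G.sum_degrees_eq_twice_card_edges).symm
      have h2 : ∑ v, G.degree v ≤ ∑ v : V, ((2 * m + 1) + if v ∈ B then K else 0) := by
        refine Finset.sum_le_sum (fun v _ => ?_)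
        split_ifs with h
        · have := hdeg v
          omega
        · have : ¬ 2 * (m + 1) ≤ G.degree v := fun h' => h (Finset.mem_filter.2 ⟨Finset.mem_univ v, h'⟩)
          omega
      have h3 : ∑ v : V, ((2 * m + 1) + if v ∈ B then K else 0) =
          Fintype.card V * (2 * m + 1) + B.card * K := by
        rw [Finset.sum_add_distrib, Finset.sum_const, smul_eq_mul, Finset.sum_ite_mem,
          Finset.univ_inter, Finset.sum_const, smul_eq_mul, Finset.card_univ]
      have h4 : B.card * K ≤ (m + 1) * K ^ 2 * K := Nat.mul_le_mul_right _ hBc.le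
      have h5 : 2 * (m + 1) * Fintype.card V =
          Fintype.card V * (2 * m + 1) + Fintype.card V := by ring
      omega

end Pool.Agent.MP_f45649_co
end

section

/-!
The posed formula fails for every large `n`.
-/

namespace Pool.Agent.MP_f45649_co

open SimpleGraph Finset

lemma ex_stars_le {m : ℕ} (hm : 1 ≤ m) : ∃ C : ℕ, ∀ (k : Fin m → ℕ), (∀ i, 1 ≤ k i) →
    (∀ i : Fin m, k i ≤ 2 * (m - i)) → ∀ n₀ : ℕ,
    2 * extremalNumber n₀ (stars k) + n₀ ≤ 2 * m * n₀ + C := by
  obtain ⟨C, hC⟩ := edges_le m
  refine ⟨C, fun k hk1 hk2 n₀ => ?_⟩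
  have hn : n₀ ≤ 2 * m * n₀ := Nat.le_mul_of_pos_left n₀ (by omega)
  have h1 : extremalNumber n₀ (stars k) ≤ (2 * m * n₀ + C - n₀) / 2 := by
    conv_lhs => rw [← Fintype.card_fin n₀]
    rw [extremalNumber_le_iff]
    intro G _ hG
    have h2 : IsEmpty (Packing G k) := ⟨fun P => hG P.contained⟩
    have h3 := hC (Fin n₀) G k hk1 hk2 h2
    rw [Fintype.card_fin] at h3
    omega
  omega

lemma final_arith (m C n₀ r e E N s : ℤ) (hm : m = s + 1) (hs : 0 ≤ s)
    (h1 : 2 * e + n₀ ≤ 2 * m * n₀ + C) (hn : n₀ + r = s + N)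
    (h2 : N * N + 4 * (s * N) + 2 * N ≤ 4 * E + 4)
    (hbig : (2 * m - 1) ^ 2 + 3 * s ^ 2 + 3 * s + 2 * C + 9 ≤ N) :
    n₀ * r + e + 1 < E := by
  have hr : r = s + N - n₀ := by linarith
  subst hr hm
  nlinarith [sq_nonneg (4 * n₀ - 2 * (s + N) - (2 * (s + 1) - 1)), sq_nonneg (2 * (s + 1) - 1)]

theorem posed_lt {m : ℕ} (hm : 1 ≤ m) (k : Fin m → ℕ) (hk : ∀ i, 2 ≤ k i)
    (hk2 : ∀ i : Fin m, k i ≤ 2 * (m - i)) :
    ∃ n₁ : ℕ, ∀ n, n₁ ≤ n → posedValue k n < extremalNumber n (wheels k) := by
  obtain ⟨C, hC⟩ := ex_stars_le hm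
  obtain ⟨s, rfl⟩ : ∃ s, m = s + 1 := ⟨m - 1, by omega⟩
  refine ⟨s + ((2 * (s + 1)) ^ 2 + 3 * s ^ 2 + 3 * s + 2 * C + 9), fun n hn => ?_⟩
  obtain ⟨N, rfl⟩ : ∃ N, n = s + N := ⟨n - s, by omega⟩
  have hN : (2 * (s + 1)) ^ 2 + 3 * s ^ 2 + 3 * s + 2 * C + 9 ≤ N := by omega
  have hE : #(H s (s + N)).edgeFinset ≤ extremalNumber (s + N) (wheels k) := by
    have h1 := free (n := s + N) hm k hk
    rw [Nat.add_sub_cancel] at h1
    have h2 := card_edgeFinset_le_extremalNumber h1
    rwa [Fintype.card_fin] at h2
  refine lt_of_lt_of_le ?_ hE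
  have hEl := edges_lower s N
  unfold posedValue
  rw [Finset.sup_lt_iff]
  · intro n₀ hn₀
    obtain ⟨ha, hb⟩ := Finset.mem_Icc.1 hn₀
    have h1 := hC k (fun i => by have := hk i; omega) hk2 n₀
    obtain ⟨r, hr⟩ : ∃ r, s + N = n₀ + r := ⟨s + N - n₀, by omega⟩
    have h3 : s + N - n₀ = r := by omega
    rw [h3]
    have h4 := final_arith ((s + 1 : ℕ) : ℤ) C n₀ r (extremalNumber n₀ (stars k))
      (#(H s (s + N)).edgeFinset) N s (by push_cast; ring) (by positivity)
      (by exact_mod_cast h1) (by exact_mod_cast hr.symm) (by exact_mod_cast hEl) (by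
        have : (((2 * (s + 1)) ^ 2 + 3 * s ^ 2 + 3 * s + 2 * C + 9 : ℕ) : ℤ) ≤ N := by
          exact_mod_cast hN
        push_cast at this ⊢
        nlinarith)
    exact_mod_cast h4
  · rw [bot_eq_zero]
    nlinarith

end Pool.Agent.MP_f45649_co
end

section

/-!
Flexible vertices.
-/

namespace Pool.Agent.MP_f45649_co

open SimpleGraph Finset

variable {V : Type} [Fintype V] [DecidableEq V]

/-- A vertex is flexible if it is the hub of a wheel that avoids any given small set. -/
def Flexible (G : SimpleGraph V) (k z₀ : ℕ) (v : V) : Prop :=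
  ∀ Z : Finset V, Z.card ≤ z₀ → ∃ l : List V, IsRim G v l ∧ l.length = 2 * k ∧ ∀ u ∈ l, u ∉ Z

omit [Fintype V] [DecidableEq V] in
lemma flatten_singletons (l : List V) : (l.map (fun y => [y])).flatten = l := by
  induction l with
  | nil => rfl
  | cons a l ih => simp [ih]

omit [Fintype V] in
lemma flexible_of {G : SimpleGraph V} [DecidableRel G.Adj] {k z₀ q D : ℕ} {v : V}
    (P Q : Finset V) (hq : k + z₀ ≤ q) (hP : ∀ p ∈ P, G.Adj v p) (hPc : q ≤ P.card)
    (hQ : ∀ p ∈ P, (Q.filter (fun y => ¬ G.Adj p y)).card ≤ D)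
    (hvQ : k * D + q ≤ (Q.filter (G.Adj v)).card) : Flexible G k z₀ v := by
  intro Z hZ
  have h1 : k ≤ (P \ Z).card := by
    have := Finset.le_card_sdiff Z P
    omega
  obtain ⟨X, hX, hXc⟩ := Finset.exists_subset_card_eq h1
  have hXP : ∀ x ∈ X, x ∈ P ∧ x ∉ Z := fun x hx => Finset.mem_sdiff.1 (hX hx)
  set W := X.biUnion (fun x => Q.filter (fun y => ¬ G.Adj x y)) with hW
  have hWc : W.card ≤ k * D := by
    calc W.card ≤ ∑ x ∈ X, (Q.filter (fun y => ¬ G.Adj x y)).card := Finset.card_biUnion_le
      _ ≤ ∑ x ∈ X, D := Finset.sum_le_sum (fun x hx => hQ x (hXP x hx).1)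
      _ = k * D := by rw [Finset.sum_const, smul_eq_mul, hXc]
  have h2 : k ≤ ((Q.filter (G.Adj v)) \ (Z ∪ W)).card := by
    have h3 := Finset.le_card_sdiff (Z ∪ W) (Q.filter (G.Adj v))
    have h4 := Finset.card_union_le Z W
    omega
  obtain ⟨Y, hY, hYc⟩ := Finset.exists_subset_card_eq h2
  have hYQ : ∀ y ∈ Y, y ∈ Q ∧ G.Adj v y ∧ y ∉ Z ∧ y ∉ W := by
    intro y hy
    have h5 := Finset.mem_sdiff.1 (hY hy)
    have h6 := Finset.mem_filter.1 h5.1
    exact ⟨h6.1, h6.2, fun h => h5.2 (Finset.mem_union_left _ h),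
      fun h => h5.2 (Finset.mem_union_right _ h)⟩
  have hXY : ∀ x ∈ X, ∀ y ∈ Y, G.Adj x y := by
    intro x hx y hy
    by_contra hcon
    apply (hYQ y hy).2.2.2
    rw [hW, Finset.mem_biUnion]
    exact ⟨x, hx, Finset.mem_filter.2 ⟨(hYQ y hy).1, hcon⟩⟩
  have hrim := weave_rim (G := G) (v := v) (X := X.toList) (P := Y.toList.map (fun y => [y]))
    (by simp [hXc, hYc])
    (by simp)
    (by
      intro p hp
      obtain ⟨y, _, rfl⟩ := List.mem_map.1 hp
      simp)
    X.nodup_toList
    (by rw [flatten_singletons]; exact Y.nodup_toList)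
    (by
      intro x hx y hy
      rw [flatten_singletons] at hy
      exact hXY x (Finset.mem_toList.1 hx) y (Finset.mem_toList.1 hy))
    (by
      intro x hx
      exact hP x (hXP x (Finset.mem_toList.1 hx)).1)
    (by
      intro y hy
      rw [flatten_singletons] at hy
      exact (hYQ y (Finset.mem_toList.1 hy)).2.1)
  refine ⟨_, hrim.1, ?_, ?_⟩
  · rw [hrim.2.1, flatten_singletons, Finset.length_toList, Finset.length_toList, hXc, hYc]
    ring
  · intro u hu
    rcases hrim.2.2 u hu with h | h
    · exact (hXP u (Finset.mem_toList.1 h)).2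
    · rw [flatten_singletons] at h
      exact (hYQ u (Finset.mem_toList.1 h)).2.2.1

end Pool.Agent.MP_f45649_co
end

section

/-!
Reductions: removing vertices, combining copies, minimum degree.
-/

namespace Pool.Agent.MP_f45649_co

open SimpleGraph Finset

variable {V : Type} [Fintype V] [DecidableEq V]

omit [Fintype V] [DecidableEq V] in
/-- A wheel and a disjoint copy of the other wheels give a copy of all wheels. -/
lemma combine {G : SimpleGraph V} {m : ℕ} {k : Fin (m + 1) → ℕ}
    (g : Copy (oddWheel (k 0)) G) (f : Copy (wheels (fun i : Fin m => k i.succ)) G)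
    (hdis : ∀ x y, g x ≠ f y) : wheels k ⊑ G := by
  let F : (Σ i, Option (Fin (2 * k i))) → V := fun z =>
    Fin.cases (motive := fun i => Option (Fin (2 * k i)) → V) (fun x => g x)
      (fun i x => f ⟨i, x⟩) z.1 z.2
  have hF0 : ∀ x, F ⟨0, x⟩ = g x := fun x => rfl
  have hFs : ∀ i x, F ⟨Fin.succ i, x⟩ = f ⟨i, x⟩ := fun i x => rfl
  refine ⟨⟨⟨F, ?_⟩, ?_⟩⟩
  · rintro x y ⟨i, a, b, rfl, rfl, h⟩
    revert a b h
    refine Fin.cases ?_ (fun i => ?_) i
    · intro a b h
      rw [hF0, hF0]
      exact g.toHom.map_adj h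
    · intro a b h
      rw [hFs, hFs]
      exact f.toHom.map_adj ⟨i, a, b, rfl, rfl, h⟩
  · rintro ⟨i, a⟩ ⟨j, b⟩ h
    revert a b h
    refine Fin.cases ?_ (fun i => ?_) i <;> refine Fin.cases ?_ (fun j => ?_) j
    · intro a b h
      have h' : g a = g b := h
      rw [g.injective h']
    · intro a b h
      exact absurd (show g a = f ⟨j, b⟩ from h) (hdis _ _)
    · intro a b h
      exact absurd (show g b = f ⟨i, a⟩ from Eq.symm h) (hdis _ _)
    · intro a b h
      have h' : f ⟨i, a⟩ = f ⟨j, b⟩ := h
      have h2 := f.injective h'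
      simp only [Sigma.mk.injEq] at h2
      obtain ⟨rfl, h3⟩ := h2
      rw [eq_of_heq h3]

/-- The number of vertices of the other wheels. -/
noncomputable def tailSize {m : ℕ} (k : Fin (m + 1) → ℕ) : ℕ :=
  Fintype.card (Σ i : Fin m, Option (Fin (2 * k i.succ)))

omit [Fintype V] [DecidableEq V] in
/-- A copy in an induced subgraph is a copy in the graph that avoids the removed set. -/
lemma copy_of_induce {G : SimpleGraph V} {W : Type} {H : SimpleGraph W} {s : Set V}
    (f : Copy H (G.induce s)) : ∃ g : Copy H G, ∀ x, g x ∈ s := by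
  refine ⟨(Copy.induce G s).comp f, fun x => ?_⟩
  exact (f x).2

omit [Fintype V] in
/-- If `v` is flexible, then removing `v` leaves a graph without the other wheels. -/
lemma free_of_flexible {G : SimpleGraph V} {m : ℕ} {k : Fin (m + 1) → ℕ}
    (hk : 1 ≤ k 0) (hfree : (wheels k).Free G) {v : V} (hv : Flexible G (k 0) (tailSize k) v) :
    (wheels (fun i : Fin m => k i.succ)).Free (G.induce ({v}ᶜ : Set V)) := by
  classical
  rintro ⟨f⟩
  obtain ⟨g, hg⟩ := copy_of_induce f
  obtain ⟨l, hl, hll, hlZ⟩ := hv (univ.image g) (by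
    refine le_trans Finset.card_image_le ?_
    rw [Finset.card_univ]
    exact le_refl _)
  obtain ⟨w, hw1, hw2⟩ := rim_copy hk hl hll
  apply hfree
  refine combine w g ?_
  rintro (_ | x) y hxy
  · rw [hw1] at hxy
    apply hg y
    exact hxy.symm
  · apply hlZ _ (hw2 x)
    rw [hxy]
    exact Finset.mem_image_of_mem _ (Finset.mem_univ y)

omit [Fintype V] in
/-- If `v`, `l` form a wheel, then removing it leaves a graph without the other wheels. -/
lemma free_of_rim {G : SimpleGraph V} {m : ℕ} {k : Fin (m + 1) → ℕ}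
    (hk : 1 ≤ k 0) (hfree : (wheels k).Free G) {v : V} {l : List V} (hl : IsRim G v l)
    (hll : l.length = 2 * k 0) :
    (wheels (fun i : Fin m => k i.succ)).Free
      (G.induce ((insert v l.toFinset : Finset V) : Set V)ᶜ) := by
  rintro ⟨f⟩
  obtain ⟨g, hg⟩ := copy_of_induce f
  obtain ⟨w, hw1, hw2⟩ := rim_copy hk hl hll
  apply hfree
  refine combine w g ?_
  rintro (_ | x) y hxy
  · apply hg y
    rw [← hxy, hw1]
    simp
  · apply hg y
    rw [← hxy]
    have := hw2 x
    simp [this]

/-- The number of edges that touch `U` is at most the sum of the degrees. -/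
lemma edges_le_induce (G : SimpleGraph V) [DecidableRel G.Adj] (U : Finset V) :
    #G.edgeFinset ≤ #(G.induce ((U : Set V)ᶜ)).edgeFinset + ∑ u ∈ U, G.degree u := by
  have hsub : G.edgeFinset ⊆ ((G.induce ((U : Set V)ᶜ)).edgeFinset.image
      (Sym2.map Subtype.val)) ∪ U.biUnion (fun u => G.incidenceFinset u) := by
    intro e he
    rw [Finset.mem_union]
    by_cases h : ∃ u ∈ U, u ∈ e
    · obtain ⟨u, hu, hue⟩ := h
      right
      rw [Finset.mem_biUnion]
      refine ⟨u, hu, ?_⟩
      rw [mem_incidenceFinset]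
      exact ⟨mem_edgeFinset.1 he, hue⟩
    · left
      push Not at h
      induction e using Sym2.ind with
      | _ a b =>
        rw [mem_edgeFinset, mem_edgeSet] at he
        have ha : a ∈ ((U : Set V)ᶜ) := fun h' => h a h' (Sym2.mem_mk_left a b)
        have hb : b ∈ ((U : Set V)ᶜ) := fun h' => h b h' (Sym2.mem_mk_right a b)
        rw [Finset.mem_image]
        refine ⟨s(⟨a, ha⟩, ⟨b, hb⟩), ?_, rfl⟩
        rw [mem_edgeFinset, mem_edgeSet]
        exact he
  calc #G.edgeFinset ≤ _ := Finset.card_le_card hsub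
    _ ≤ _ := Finset.card_union_le _ _
    _ ≤ _ := by
        apply Nat.add_le_add Finset.card_image_le
        refine le_trans Finset.card_biUnion_le ?_
        refine le_of_eq (Finset.sum_congr rfl (fun u _ => ?_))
        exact G.card_incidenceFinset_eq_degree u

/-- Minimum degree reduction. -/
lemma reduce {W : Type} (H : SimpleGraph W) (val : ℕ → ℕ) (n₂ : ℕ)
    (hval : ∀ n, n₂ ≤ n → 2 * val n + n ≤ 2 * val (n + 1))
    (hG : ∀ n, n₂ ≤ n → ∀ (G : SimpleGraph (Fin n)) [DecidableRel G.Adj], H.Free G →
      (∀ v, n ≤ 2 * G.degree v + 1) → #G.edgeFinset ≤ val n) :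
    ∃ n₃ : ℕ, ∀ n, n₃ ≤ n → extremalNumber n H ≤ val n := by
  have key : ∀ t, extremalNumber (n₂ + t) H ≤ val (n₂ + t) + (extremalNumber n₂ H - t) := by
    intro t
    induction t with
    | zero => simp
    | succ t ih =>
      have hmain : ∀ (G : SimpleGraph (Fin (n₂ + t + 1))) [DecidableRel G.Adj], H.Free G →
          #G.edgeFinset ≤ val (n₂ + t + 1) + (extremalNumber n₂ H - (t + 1)) := by
        intro G _ hfree
        by_cases hdeg : ∀ v, n₂ + t + 1 ≤ 2 * G.degree v + 1
        · exact le_trans (hG _ (by omega) G hfree hdeg) (Nat.le_add_right _ _)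
        · push Not at hdeg
          obtain ⟨v, hv⟩ := hdeg
          have h1 := G.card_edgeFinset_induce_compl_singleton v
          have h2 := G.card_edgeFinset_deleteIncidenceSet v
          have h3 : H.Free (G.induce ({v}ᶜ : Set (Fin (n₂ + t + 1)))) := by
            rintro ⟨f⟩
            obtain ⟨g, _⟩ := copy_of_induce f
            exact hfree ⟨g⟩
          have h4 := card_edgeFinset_le_extremalNumber h3
          have h5 : Fintype.card ({v}ᶜ : Set (Fin (n₂ + t + 1))) = n₂ + t := by
            rw [Fintype.card_compl_set]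
            simp
          rw [h5] at h4
          have h6 := hval (n₂ + t) (by omega)
          omega
      have h7 := (extremalNumber_le_iff (V := Fin (n₂ + t + 1)) H
        (val (n₂ + t + 1) + (extremalNumber n₂ H - (t + 1)))).2
        (fun G _ hfree => hmain G hfree)
      rw [Fintype.card_fin] at h7
      exact h7
  refine ⟨n₂ + extremalNumber n₂ H, fun n hn => ?_⟩
  obtain ⟨t, rfl⟩ : ∃ t, n = n₂ + t := ⟨n - n₂, by omega⟩
  have h1 := key t
  have h2 : extremalNumber n₂ H - t = 0 := by omega
  rw [h2, add_zero] at h1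
  exact h1

end Pool.Agent.MP_f45649_co
end
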