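import Mathlib
import Pool.Agent.Lib.MP_f45649_co.Defs
import Pool.Agent.Lib.MP_f45649_co.Mg.G001

section

/-!
Nearly regular graphs with small components.
-/

namespace Pool.Agent.MP_f45649_co

open SimpleGraph Finset

/-- Twice the number of edges, as a sum. -/
lemma two_mul_card_edges {V : Type} [Fintype V] (G : SimpleGraph V) [DecidableRel G.Adj] :
    2 * #G.edgeFinset = ∑ v, ∑ w, if G.Adj v w then 1 else 0 := by
  rw [← G.sum_degrees_eq_twice_card_edges]
  refine Finset.sum_congr rfl (fun v _ => ?_)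
  rw [← G.card_neighborFinset_eq_degree, neighborFinset_eq_filter, Finset.card_filter]

/-- There is a graph on `N` vertices with maximum degree at most `κ - 1`, whose components have
at most `2 κ - 2` vertices, and with at least `E / 2` edges. -/
def Good (κ N E : ℕ) : Prop :=
  ∃ (V : Type) (_ : Fintype V) (_ : DecidableEq V) (R : SimpleGraph V) (_ : DecidableRel R.Adj)
    (f : V → ℕ), Fintype.card V = N ∧
    (∀ v, (∑ w, if R.Adj v w then 1 else 0) ≤ κ - 1) ∧ (∀ x y, R.Adj x y → f x = f y) ∧
    (∀ c, (univ.filter (fun v => f v = c)).card ≤ 2 * κ - 2) ∧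
    E ≤ ∑ v, ∑ w, if R.Adj v w then 1 else 0

lemma Good.zero (κ : ℕ) : Good κ 0 0 :=
  ⟨Empty, inferInstance, inferInstance, ⊥, inferInstance, fun x => x.elim, rfl,
    fun v => v.elim, fun x => x.elim, fun c => by simp, by simp⟩

lemma Good.add {κ N₁ N₂ E₁ E₂ : ℕ} (h₁ : Good κ N₁ E₁) (h₂ : Good κ N₂ E₂) :
    Good κ (N₁ + N₂) (E₁ + E₂) := by
  obtain ⟨V₁, i1, i2, R₁, i3, f₁, a1, a2, a3, a4, a5⟩ := h₁
  obtain ⟨V₂, j1, j2, R₂, j3, f₂, b1, b2, b3, b4, b5⟩ := h₂
  let R : SimpleGraph (V₁ ⊕ V₂) :=
    { Adj := fun x y => match x, y with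
        | Sum.inl a, Sum.inl b => R₁.Adj a b
        | Sum.inr a, Sum.inr b => R₂.Adj a b
        | _, _ => False
      symm := ⟨by
        rintro (a | a) (b | b) h
        · exact SimpleGraph.Adj.symm h
        · exact h
        · exact h
        · exact SimpleGraph.Adj.symm h⟩
      loopless := ⟨by
        rintro (a | a) h
        · exact R₁.loopless.irrefl a h
        · exact R₂.loopless.irrefl a h⟩ }
  have hll : ∀ a b, R.Adj (Sum.inl a) (Sum.inl b) ↔ R₁.Adj a b := fun a b => Iff.rfl
  have hrr : ∀ a b, R.Adj (Sum.inr a) (Sum.inr b) ↔ R₂.Adj a b := fun a b => Iff.rfl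
  have hlr : ∀ a b, ¬ R.Adj (Sum.inl a) (Sum.inr b) := fun a b h => h
  have hrl : ∀ a b, ¬ R.Adj (Sum.inr a) (Sum.inl b) := fun a b h => h
  classical
  have hdl : ∀ a, (∑ w, if R.Adj (Sum.inl a) w then 1 else 0) =
      ∑ w, if R₁.Adj a w then 1 else 0 := by
    intro a
    rw [Fintype.sum_sum_type]
    simp [hll, hlr]
  have hdr : ∀ a, (∑ w, if R.Adj (Sum.inr a) w then 1 else 0) =
      ∑ w, if R₂.Adj a w then 1 else 0 := by
    intro a
    rw [Fintype.sum_sum_type]
    simp [hrr, hrl]
  refine ⟨V₁ ⊕ V₂, inferInstance, inferInstance, R, inferInstance,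
    Sum.elim (fun x => 2 * f₁ x) (fun x => 2 * f₂ x + 1), ?_, ?_, ?_, ?_, ?_⟩
  · rw [Fintype.card_sum, a1, b1]
  · rintro (a | a)
    · rw [hdl]; exact a2 a
    · rw [hdr]; exact b2 a
  · rintro (a | a) (b | b) h
    · simp only [Sum.elim_inl]
      rw [a3 a b h]
    · exact absurd h (hlr a b)
    · exact absurd h (hrl a b)
    · simp only [Sum.elim_inr]
      rw [b3 a b h]
  · intro c
    rcases Nat.even_or_odd' c with ⟨d, hd | hd⟩
    · have e1 : (univ.filter (fun v : V₁ ⊕ V₂ =>
          Sum.elim (fun x => 2 * f₁ x) (fun x => 2 * f₂ x + 1) v = c)) =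
          (univ.filter (fun v : V₁ => f₁ v = d)).map ⟨Sum.inl, Sum.inl_injective⟩ := by
        ext (v | v)
        · simp only [Finset.mem_filter, Finset.mem_univ, true_and, Sum.elim_inl,
            Finset.mem_map, Function.Embedding.coeFn_mk, Sum.inl.injEq, exists_eq_right]
          omega
        · simp only [Finset.mem_filter, Finset.mem_univ, true_and, Sum.elim_inr,
            Finset.mem_map, Function.Embedding.coeFn_mk, reduceCtorEq, and_false, exists_false,
            iff_false]
          omega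
      rw [e1, Finset.card_map]
      exact a4 d
    · have e1 : (univ.filter (fun v : V₁ ⊕ V₂ =>
          Sum.elim (fun x => 2 * f₁ x) (fun x => 2 * f₂ x + 1) v = c)) =
          (univ.filter (fun v : V₂ => f₂ v = d)).map ⟨Sum.inr, Sum.inr_injective⟩ := by
        ext (v | v)
        · simp only [Finset.mem_filter, Finset.mem_univ, true_and, Sum.elim_inl,
            Finset.mem_map, Function.Embedding.coeFn_mk, reduceCtorEq, and_false, exists_false,
            iff_false]
          omega
        · simp only [Finset.mem_filter, Finset.mem_univ, true_and, Sum.elim_inr,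
            Finset.mem_map, Function.Embedding.coeFn_mk, Sum.inr.injEq, exists_eq_right]
          omega
      rw [e1, Finset.card_map]
      exact b4 d
  · rw [Fintype.sum_sum_type]
    simp only [hdl, hdr]
    exact Nat.add_le_add a5 b5

lemma Good.mul {κ N E : ℕ} (h : Good κ N E) (a : ℕ) : Good κ (a * N) (a * E) := by
  induction a with
  | zero => simpa using Good.zero κ
  | succ a ih =>
    rw [Nat.succ_mul, Nat.succ_mul]
    exact ih.add h

lemma Good.weaken {κ N E E' : ℕ} (h : Good κ N E) (hE : E' ≤ E) : Good κ N E' := by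
  obtain ⟨V₁, i1, i2, R₁, i3, f₁, a1, a2, a3, a4, a5⟩ := h
  exact ⟨V₁, i1, i2, R₁, i3, f₁, a1, a2, a3, a4, le_trans hE a5⟩

/-- A base block: the complement of a sparse symmetric relation on few vertices. -/
lemma Good.base {κ N E : ℕ} (hN : N ≤ 2 * κ - 2) (M : Fin N → Fin N → Prop)
    (hsymm : ∀ x y, M x y → M y x) [DecidableRel M]
    (d : Fin N → ℕ) (hd : ∀ x, (univ.filter (fun y => ¬ (x = y ∨ M x y))).card = d x)
    (hdκ : ∀ x, d x ≤ κ - 1) (hE : E ≤ ∑ x, d x) : Good κ N E := by
  let R : SimpleGraph (Fin N) :=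
    { Adj := fun x y => ¬ (x = y ∨ M x y)
      symm := ⟨fun x y h h' => h (by
        rcases h' with h' | h'
        · exact Or.inl h'.symm
        · exact Or.inr (hsymm _ _ h'))⟩
      loopless := ⟨fun x h => h (Or.inl rfl)⟩ }
  have hdec : DecidableRel R.Adj := fun x y => inferInstanceAs (Decidable (¬ (x = y ∨ M x y)))
  have hs : ∀ x, (∑ w, if R.Adj x w then 1 else 0) = d x := by
    intro x
    rw [← Finset.card_filter, ← hd x]
    congr 1
    ext w
    simp only [Finset.mem_filter, Finset.mem_univ, true_and]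
    exact Iff.rfl
  refine ⟨Fin N, inferInstance, inferInstance, R, hdec, fun _ => 0, by simp, ?_, ?_, ?_, ?_⟩
  · intro x; rw [hs]; exact hdκ x
  · intro x y _; rfl
  · intro c
    refine le_trans (Finset.card_filter_le _ _) ?_
    simpa using hN
  · simp only [hs]
    exact hE

lemma count_not {N : ℕ} (P : Fin N → Prop) [DecidablePred P] (S : Finset (Fin N)) (c : ℕ)
    (hS : ∀ y, P y ↔ y ∈ S) (hc : S.card = c) :
    (univ.filter (fun y => ¬ P y)).card = N - c := by
  have h1 : (univ.filter P).card + (univ.filter (fun y => ¬ P y)).card =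
      (univ : Finset (Fin N)).card := Finset.card_filter_add_card_filter_not _
  have h2 : univ.filter P = S := by
    ext y
    simp [hS]
  rw [h2, hc, Finset.card_univ, Fintype.card_fin] at h1
  omega

lemma good_self {κ : ℕ} (hκ : 2 ≤ κ) : Good κ κ (κ * (κ - 1)) := by
  refine Good.base (by omega) (fun _ _ => False) (fun _ _ h => h) (fun _ => κ - 1) ?_
    (fun _ => le_refl _) (by simp)
  intro x
  apply count_not (fun y => x = y ∨ False) {x} 1
  · intro y
    simp [eq_comm]
  · simp

lemma good_succ_odd {κ : ℕ} (hκ : 3 ≤ κ) (hodd : κ % 2 = 1) :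
    Good κ (κ + 1) ((κ + 1) * (κ - 1)) := by
  refine Good.base (by omega) (fun x y => (x : ℕ) + y = κ)
    (fun x y h => by omega) (fun _ => κ - 1) ?_
    (fun _ => le_refl _) (by simp)
  intro x
  have hx := x.isLt
  apply count_not (fun y => x = y ∨ (x : ℕ) + y = κ) {x, ⟨κ - x, by omega⟩} 2
  · intro y
    simp only [Finset.mem_insert, Finset.mem_singleton, Fin.ext_iff]
    omega
  · rw [Finset.card_pair]
    intro h
    rw [Fin.ext_iff] at h
    simp only at h
    omega

lemma good_succ_even {κ : ℕ} (hκ : 4 ≤ κ) (heven : κ % 2 = 0) :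
    Good κ (κ + 1) ((κ + 1) * (κ - 1) - 1) := by
  refine Good.base (by omega)
    (fun x y => (x : ℕ) + y = κ ∨ ((x : ℕ) = 0 ∧ (y : ℕ) = κ / 2) ∨
      ((y : ℕ) = 0 ∧ (x : ℕ) = κ / 2))
    (fun x y h => by omega)
    (fun x => if (x : ℕ) = 0 then κ - 2 else κ - 1) ?_ ?_ ?_
  · intro x
    have hx := x.isLt
    by_cases h0 : (x : ℕ) = 0
    · rw [if_pos h0]
      have e1 : κ - 2 = κ + 1 - 3 := by omega
      rw [e1]
      apply count_not (fun y => x = y ∨ ((x : ℕ) + y = κ ∨ ((x : ℕ) = 0 ∧ (y : ℕ) = κ / 2) ∨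
        ((y : ℕ) = 0 ∧ (x : ℕ) = κ / 2)))
        {x, ⟨κ, by omega⟩, ⟨κ / 2, by omega⟩} 3
      · intro y
        simp only [Finset.mem_insert, Finset.mem_singleton, Fin.ext_iff]
        omega
      · rw [Finset.card_eq_three]
        refine ⟨_, _, _, ?_, ?_, ?_, rfl⟩ <;>
        · simp only [ne_eq, Fin.ext_iff]
          omega
    · rw [if_neg h0]
      have e1 : κ - 1 = κ + 1 - 2 := by omega
      rw [e1]
      by_cases hh : (x : ℕ) = κ / 2
      · apply count_not (fun y => x = y ∨ ((x : ℕ) + y = κ ∨ ((x : ℕ) = 0 ∧ (y : ℕ) = κ / 2) ∨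
          ((y : ℕ) = 0 ∧ (x : ℕ) = κ / 2))) {x, ⟨0, by omega⟩} 2
        · intro y
          simp only [Finset.mem_insert, Finset.mem_singleton, Fin.ext_iff]
          omega
        · rw [Finset.card_pair]
          simp only [ne_eq, Fin.ext_iff]
          omega
      · apply count_not (fun y => x = y ∨ ((x : ℕ) + y = κ ∨ ((x : ℕ) = 0 ∧ (y : ℕ) = κ / 2) ∨
          ((y : ℕ) = 0 ∧ (x : ℕ) = κ / 2))) {x, ⟨κ - x, by omega⟩} 2
        · intro y
          simp only [Finset.mem_insert, Finset.mem_singleton, Fin.ext_iff]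
          omega
        · rw [Finset.card_pair]
          simp only [ne_eq, Fin.ext_iff]
          omega
  · intro x
    split_ifs <;> omega
  · rw [Fin.sum_univ_succ]
    simp only [Fin.val_zero, if_true, Fin.val_succ, Nat.succ_ne_zero, if_false,
      Finset.sum_const, Finset.card_univ, Fintype.card_fin, smul_eq_mul]
    obtain ⟨r, rfl⟩ : ∃ r, κ = r + 2 := ⟨κ - 2, by omega⟩
    have e1 : r + 2 - 1 = r + 1 := by omega
    have e2 : r + 2 - 2 = r := by omega
    rw [e1, e2]
    have e3 : (r + 2 + 1) * (r + 1) = (r + 2) * (r + 1) + r + 1 := by ring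
    omega

lemma good_add_two {κ : ℕ} (hκ : 4 ≤ κ) (heven : κ % 2 = 0) :
    Good κ (κ + 2) ((κ + 2) * (κ - 1)) := by
  refine Good.base (by omega)
    (fun x y => (x : ℕ) + y = κ + 1 ∨ (x : ℕ) + y = κ - 1 ∨ (x : ℕ) + y = 2 * κ + 1)
    (fun x y h => by omega) (fun _ => κ - 1) ?_
    (fun _ => le_refl _) (by simp)
  intro x
  have hx := x.isLt
  have e1 : κ - 1 = κ + 2 - 3 := by omega
  by_cases hx2 : (x : ℕ) ≤ κ - 1
  · conv_rhs => rw [e1]
    apply count_not (fun y => x = y ∨ ((x : ℕ) + y = κ + 1 ∨ (x : ℕ) + y = κ - 1 ∨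
      (x : ℕ) + y = 2 * κ + 1)) {x, ⟨κ + 1 - x, by omega⟩, ⟨κ - 1 - x, by omega⟩} 3
    · intro y
      have hy := y.isLt
      simp only [Finset.mem_insert, Finset.mem_singleton, Fin.ext_iff]
      omega
    · rw [Finset.card_eq_three]
      refine ⟨_, _, _, ?_, ?_, ?_, rfl⟩ <;>
      · simp only [ne_eq, Fin.ext_iff]
        omega
  · conv_rhs => rw [e1]
    apply count_not (fun y => x = y ∨ ((x : ℕ) + y = κ + 1 ∨ (x : ℕ) + y = κ - 1 ∨
      (x : ℕ) + y = 2 * κ + 1)) {x, ⟨κ + 1 - x, by omega⟩, ⟨2 * κ + 1 - x, by omega⟩} 3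
    · intro y
      have hy := y.isLt
      simp only [Finset.mem_insert, Finset.mem_singleton, Fin.ext_iff]
      omega
    · rw [Finset.card_eq_three]
      refine ⟨_, _, _, ?_, ?_, ?_, rfl⟩ <;>
      · simp only [ne_eq, Fin.ext_iff]
        omega

lemma good_one : Good 2 1 0 :=
  ⟨Fin 1, inferInstance, inferInstance, ⊥, inferInstance, fun _ => 0, by simp, by simp,
    fun _ _ _ => rfl, fun c => by
      refine le_trans (Finset.card_filter_le _ _) ?_
      simp, by simp⟩

/-- Good graphs exist on every large number of vertices. -/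
theorem good_large {κ N : ℕ} (hκ : 2 ≤ κ) (hN : κ * κ + κ + 1 ≤ N) :
    Good κ N ((κ - 1) * N - 1) ∧ (2 ∣ (κ - 1) * N → Good κ N ((κ - 1) * N)) := by
  obtain ⟨r, rfl⟩ : ∃ r, κ = r + 1 := ⟨κ - 1, by omega⟩
  have e0 : r + 1 - 1 = r := by omega
  rw [e0]
  -- it suffices to construct the exact versions
  rcases Nat.even_or_odd' r with ⟨s, hs | hs⟩
  · -- `κ` odd
    have h1 := good_self (κ := r + 1) hκ
    have h2 := good_succ_odd (κ := r + 1) (by omega) (by omega)
    rw [e0] at h1 h2
    obtain ⟨b, hb⟩ : ∃ b, b = N % (r + 1) := ⟨_, rfl⟩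
    obtain ⟨c, hc⟩ : ∃ c, c = N / (r + 1) := ⟨_, rfl⟩
    have h3 : (r + 1) * c + b = N := by rw [hb, hc]; exact Nat.div_add_mod N (r + 1)
    have h4 : b < r + 1 := by rw [hb]; exact Nat.mod_lt _ (by omega)
    have h5 : b ≤ c := by
      by_contra hcon
      push Not at hcon
      have : (r + 1) * c ≤ (r + 1) * (r + 1) := Nat.mul_le_mul_left _ (by omega)
      omega
    obtain ⟨a, rfl⟩ : ∃ a, c = a + b := ⟨c - b, by omega⟩
    have h6 := (h1.mul a).add (h2.mul b)
    have e1 : a * (r + 1) + b * (r + 1 + 1) = N := by rw [← h3]; ring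
    have e2 : a * ((r + 1) * r) + b * ((r + 1 + 1) * r) = r * N := by rw [← e1]; ring
    rw [e1, e2] at h6
    exact ⟨h6.weaken (Nat.sub_le _ _), fun _ => h6⟩
  · by_cases hr1 : r = 1
    · -- `κ = 2`
      subst hr1
      have h1 : Good 2 2 2 := good_self (κ := 2) (le_refl _)
      rcases Nat.even_or_odd' N with ⟨t, ht | ht⟩
      · have h2 := h1.mul t
        have e1 : t * 2 = N := by omega
        rw [e1] at h2
        rw [one_mul]
        exact ⟨h2.weaken (Nat.sub_le _ _), fun _ => h2⟩
      · have h2 := (h1.mul t).add good_one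
        have e1 : t * 2 + 1 = N := by omega
        have e2 : t * 2 + 0 = N - 1 := by omega
        rw [e1, e2] at h2
        rw [one_mul]
        exact ⟨h2, fun h => by omega⟩
    · -- `κ ≥ 4` even
      have h1 := good_self (κ := r + 1) hκ
      have h2 := good_add_two (κ := r + 1) (by omega) (by omega)
      have h3 := good_succ_even (κ := r + 1) (by omega) (by omega)
      rw [e0] at h1 h2 h3
      -- even numbers of vertices
      have heven : ∀ N', N' % 2 = 0 → (r + 1) * (r + 1) ≤ N' → Good (r + 1) N' (r * N') := by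
        intro N' hN' hN'2
        obtain ⟨b, hb⟩ : ∃ b, b = N' % (r + 1) := ⟨_, rfl⟩
        obtain ⟨c, hc⟩ : ∃ c, c = N' / (r + 1) := ⟨_, rfl⟩
        have g3 : (r + 1) * c + b = N' := by rw [hb, hc]; exact Nat.div_add_mod N' (r + 1)
        have g4 : b < r + 1 := by rw [hb]; exact Nat.mod_lt _ (by omega)
        have g5 : b ≤ c := by
          by_contra hcon
          push Not at hcon
          have : (r + 1) * (c + 1) ≤ (r + 1) * (r + 1) := Nat.mul_le_mul_left _ (by omega)
          have : (r + 1) * (c + 1) = (r + 1) * c + (r + 1) := by ring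
          omega
        have g6 : b % 2 = 0 := by
          have e1 : (r + 1) * c = 2 * ((s + 1) * c) := by rw [hs]; ring
          omega
        obtain ⟨b', rfl⟩ : ∃ b', b = 2 * b' := ⟨b / 2, by omega⟩
        obtain ⟨a, rfl⟩ : ∃ a, c = a + b' := ⟨c - b', by omega⟩
        have g7 := (h1.mul a).add (h2.mul b')
        have e1 : a * (r + 1) + b' * (r + 1 + 2) = N' := by rw [← g3]; ring
        have e2 : a * ((r + 1) * r) + b' * ((r + 1 + 2) * r) = r * N' := by rw [← e1]; ring
        rw [e1, e2] at g7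
        exact g7
      rcases Nat.mod_two_eq_zero_or_one N with hN2 | hN2
      · have h4 := heven N hN2 (by omega)
        exact ⟨h4.weaken (Nat.sub_le _ _), fun _ => h4⟩
      · have h4 := (heven (N - (r + 1 + 1)) (by omega) (by omega)).add h3
        have e1 : N - (r + 1 + 1) + (r + 1 + 1) = N := by omega
        have e2 : r * (N - (r + 1 + 1)) + ((r + 1 + 1) * r - 1) = r * N - 1 := by
          obtain ⟨N', rfl⟩ : ∃ N', N = N' + (r + 1 + 1) := ⟨N - (r + 1 + 1), by omega⟩
          have e3 : N' + (r + 1 + 1) - (r + 1 + 1) = N' := by omega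
          rw [e3]
          have e4 : r * (N' + (r + 1 + 1)) = r * N' + (r + 1 + 1) * r := by ring
          have e5 : 1 ≤ (r + 1 + 1) * r := Nat.mul_pos (by omega) (by omega)
          omega
        rw [e1, e2] at h4
        refine ⟨h4, fun h => ?_⟩
        exfalso
        have h5 : r * N = 2 * (s * N) + N := by rw [hs]; ring
        omega

/-- The form used in the constructions. -/
theorem good_floor {κ N : ℕ} (hκ : 2 ≤ κ) (hN : κ * κ + κ + 1 ≤ N) :
    Good κ N (2 * ((κ - 1) * N / 2)) := by
  obtain ⟨h1, h2⟩ := good_large hκ hN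
  rcases Nat.mod_two_eq_zero_or_one ((κ - 1) * N) with h | h
  · exact (h2 (Nat.dvd_of_mod_eq_zero h)).weaken (by omega)
  · exact h1.weaken (by omega)

end Pool.Agent.MP_f45649_co
end

section

/-!
The constructions with full vertices.
-/

namespace Pool.Agent.MP_f45649_co

open SimpleGraph Finset

/-- `K_j` joined to `G₀`. -/
def apexJoin (j : ℕ) {W : Type} (G₀ : SimpleGraph W) : SimpleGraph (Fin j ⊕ W) where
  Adj x y := match x, y with
    | Sum.inl a, Sum.inl b => a ≠ b
    | Sum.inl _, Sum.inr _ => True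
    | Sum.inr _, Sum.inl _ => True
    | Sum.inr a, Sum.inr b => G₀.Adj a b
  symm := ⟨by
    rintro (a | a) (b | b) h
    · exact Ne.symm h
    · trivial
    · trivial
    · exact SimpleGraph.Adj.symm h⟩
  loopless := ⟨by
    rintro (a | a) h
    · exact h rfl
    · exact G₀.loopless.irrefl a h⟩

lemma apexJoin_edges (j : ℕ) {W : Type} [Fintype W] (G₀ : SimpleGraph W) [DecidableRel G₀.Adj]
    [DecidableRel (apexJoin j G₀).Adj] :
    #(apexJoin j G₀).edgeFinset = j.choose 2 + j * Fintype.card W + #G₀.edgeFinset := by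
  have h1 := two_mul_card_edges (apexJoin j G₀)
  have h2 := two_mul_card_edges G₀
  have hll : ∀ a b : Fin j, (apexJoin j G₀).Adj (Sum.inl a) (Sum.inl b) ↔ a ≠ b :=
    fun _ _ => Iff.rfl
  have hlr : ∀ (a : Fin j) (b : W), (apexJoin j G₀).Adj (Sum.inl a) (Sum.inr b) ↔ True :=
    fun _ _ => Iff.rfl
  have hrl : ∀ (a : Fin j) (b : W), (apexJoin j G₀).Adj (Sum.inr b) (Sum.inl a) ↔ True :=
    fun _ _ => Iff.rfl
  have hrr : ∀ a b : W, (apexJoin j G₀).Adj (Sum.inr a) (Sum.inr b) ↔ G₀.Adj a b :=
    fun _ _ => Iff.rfl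
  simp only [Fintype.sum_sum_type, hll, hlr, hrl, hrr, if_true] at h1
  rw [Finset.sum_add_distrib, Finset.sum_add_distrib] at h1
  simp only [Finset.sum_const, Finset.card_univ, Fintype.card_fin, smul_eq_mul, mul_one] at h1
  rw [← h2] at h1
  have h3 : (∑ a : Fin j, ∑ b : Fin j, if a ≠ b then 1 else 0) = j * (j - 1) := by
    have e1 : ∀ a : Fin j, (∑ b : Fin j, if a ≠ b then 1 else 0) = j - 1 := by
      intro a
      rw [← Finset.card_filter]
      have : univ.filter (fun b => a ≠ b) = univ.erase a := by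
        ext b
        simp [eq_comm]
      rw [this, Finset.card_erase_of_mem (Finset.mem_univ a), Finset.card_univ,
        Fintype.card_fin]
    rw [Finset.sum_congr rfl (fun a _ => e1 a), Finset.sum_const, Finset.card_univ,
      Fintype.card_fin, smul_eq_mul]
  rw [h3] at h1
  have h4 : 2 * j.choose 2 = j * (j - 1) := by
    rw [Nat.choose_two_right]
    exact Nat.mul_div_cancel' (Nat.even_mul_pred_self j).two_dvd
  have h5 : Fintype.card W * j = j * Fintype.card W := mul_comm _ _
  omega

/-- A copy of a disjoint union in `apexJoin j G₀`: one of the first `j + 1` graphs is in `G₀`. -/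
lemma apex_pigeon {m j : ℕ} {U : Fin m → Type} (Gs : ∀ i, SimpleGraph (U i)) (hj : j < m)
    {W : Type} {G₀ : SimpleGraph W} (f : Copy (disjointUnion Gs) (apexJoin j G₀)) :
    ∃ i : Fin m, (i : ℕ) ≤ j ∧ Nonempty (Copy (Gs i) G₀) := by
  by_cases h : ∃ i : Fin m, (i : ℕ) ≤ j ∧ ∀ x : U i, ∃ w, f ⟨i, x⟩ = Sum.inr w
  · obtain ⟨i, hi, hx⟩ := h
    choose w hw using hx
    refine ⟨i, hi, ⟨⟨⟨w, ?_⟩, ?_⟩⟩⟩
    · intro a b hab
      have h1 := f.toHom.map_adj (show (disjointUnion Gs).Adj ⟨i, a⟩ ⟨i, b⟩ from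
        ⟨i, a, b, rfl, rfl, hab⟩)
      have h2 : (apexJoin j G₀).Adj (f ⟨i, a⟩) (f ⟨i, b⟩) := h1
      rw [hw a, hw b] at h2
      exact h2
    · intro a b hab
      have h1 : f ⟨i, a⟩ = f ⟨i, b⟩ := by
        rw [hw a, hw b]
        exact congrArg Sum.inr hab
      have := f.injective h1
      simpa using this
  · push Not at h
    exfalso
    have h1 : ∀ i : Fin (j + 1), ∃ (x : U ⟨i, by omega⟩) (a : Fin j),
        f ⟨⟨i, by omega⟩, x⟩ = Sum.inl a := by
      intro i
      obtain ⟨x, hx⟩ := h ⟨i, by omega⟩ (by have := i.isLt; simp only; omega)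
      refine ⟨x, ?_⟩
      rcases hfx : f ⟨⟨i, by omega⟩, x⟩ with a | w
      · exact ⟨a, rfl⟩
      · exact absurd hfx (hx w)
    choose x a hxa using h1
    have hinj : Function.Injective a := by
      intro i i' hii'
      have e1 : f ⟨⟨i, by omega⟩, x i⟩ = f ⟨⟨i', by omega⟩, x i'⟩ := by
        rw [hxa i, hxa i', hii']
      have e2 := f.injective e1
      have e3 := congrArg (fun z : (Σ i, U i) => (z.1 : ℕ)) e2
      exact Fin.ext e3
    have := Fintype.card_le_of_injective a hinj
    simp only [Fintype.card_fin] at this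
    omega

/-- The complete bipartite graph with `R` in the first part and one edge in the second part. -/
def baseT {U : Type} (R : SimpleGraph U) (b : ℕ) : SimpleGraph (U ⊕ Fin b) where
  Adj x y := match x, y with
    | Sum.inl a, Sum.inl b => R.Adj a b
    | Sum.inl _, Sum.inr _ => True
    | Sum.inr _, Sum.inl _ => True
    | Sum.inr a, Sum.inr b => a ≠ b ∧ (a : ℕ) < 2 ∧ (b : ℕ) < 2
  symm := ⟨by
    rintro (a | a) (b | b) h
    · exact SimpleGraph.Adj.symm h
    · trivial
    · trivial
    · exact ⟨Ne.symm h.1, h.2.2, h.2.1⟩⟩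
  loopless := ⟨by
    rintro (a | a) h
    · exact R.loopless.irrefl a h
    · exact h.1 rfl⟩

lemma baseT_edges {U : Type} [Fintype U] (R : SimpleGraph U) [DecidableRel R.Adj] {b : ℕ}
    (hb : 2 ≤ b) [DecidableRel (baseT R b).Adj] :
    (∑ v, ∑ w, if R.Adj v w then 1 else 0) + 2 * (Fintype.card U * b) + 2 ≤
      2 * #(baseT R b).edgeFinset := by
  have h1 := two_mul_card_edges (baseT R b)
  have hll : ∀ x y : U, (baseT R b).Adj (Sum.inl x) (Sum.inl y) ↔ R.Adj x y :=
    fun _ _ => Iff.rfl
  have hlr : ∀ (x : U) (y : Fin b), (baseT R b).Adj (Sum.inl x) (Sum.inr y) ↔ True :=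
    fun _ _ => Iff.rfl
  have hrl : ∀ (x : U) (y : Fin b), (baseT R b).Adj (Sum.inr y) (Sum.inl x) ↔ True :=
    fun _ _ => Iff.rfl
  have hrr : ∀ x y : Fin b, (baseT R b).Adj (Sum.inr x) (Sum.inr y) ↔
      (x ≠ y ∧ (x : ℕ) < 2 ∧ (y : ℕ) < 2) := fun _ _ => Iff.rfl
  simp only [Fintype.sum_sum_type, hll, hlr, hrl, hrr, if_true] at h1
  rw [Finset.sum_add_distrib, Finset.sum_add_distrib] at h1
  simp only [Finset.sum_const, Finset.card_univ, Fintype.card_fin, smul_eq_mul, mul_one] at h1
  have h2 : 2 ≤ ∑ x : Fin b, ∑ y : Fin b, if (x ≠ y ∧ (x : ℕ) < 2 ∧ (y : ℕ) < 2) then 1 else 0 := by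
    have e1 : ∀ x ∈ (univ : Finset (Fin b)), (if (x : ℕ) < 2 then 1 else 0) ≤
        ∑ y : Fin b, if (x ≠ y ∧ (x : ℕ) < 2 ∧ (y : ℕ) < 2) then 1 else 0 := by
      intro x _
      split_ifs with hx
      · obtain ⟨y, hy, hxy⟩ : ∃ y : Fin b, (y : ℕ) < 2 ∧ x ≠ y := by
          refine ⟨⟨1 - x, by omega⟩, ?_, ?_⟩
          · simp only; omega
          · intro h
            rw [Fin.ext_iff] at h
            simp only at h
            omega
        calc 1 = (if (x ≠ y ∧ (x : ℕ) < 2 ∧ (y : ℕ) < 2) then 1 else 0) := by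
              rw [if_pos ⟨hxy, hx, hy⟩]
          _ ≤ _ := Finset.single_le_sum
            (f := fun y : Fin b => if (x ≠ y ∧ (x : ℕ) < 2 ∧ (y : ℕ) < 2) then 1 else 0)
            (fun _ _ => Nat.zero_le _) (Finset.mem_univ y)
      · exact Nat.zero_le _
    refine le_trans ?_ (Finset.sum_le_sum e1)
    rw [← Finset.card_filter]
    have e2 : ({⟨0, by omega⟩, ⟨1, by omega⟩} : Finset (Fin b)) ⊆
        univ.filter (fun x : Fin b => (x : ℕ) < 2) := by
      intro x hx
      simp only [Finset.mem_insert, Finset.mem_singleton, Fin.ext_iff] at hx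
      simp only [Finset.mem_filter, Finset.mem_univ, true_and]
      omega
    have e3 := Finset.card_le_card e2
    rw [Finset.card_pair (by simp [Fin.ext_iff])] at e3
    exact e3
  have h5 : b * Fintype.card U = Fintype.card U * b := mul_comm _ _
  omega

/-- `baseT R b` contains no large odd wheel. -/
lemma baseT_no_wheel {U : Type} [Fintype U] [DecidableEq U] {R : SimpleGraph U}
    [DecidableRel R.Adj] {b κ k : ℕ} (f : U → ℕ) (hκ : 2 ≤ κ) (hk : κ ≤ k)
    (hdeg : ∀ v, (∑ w, if R.Adj v w then 1 else 0) ≤ κ - 1)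
    (hf : ∀ x y, R.Adj x y → f x = f y)
    (hfib : ∀ c, (univ.filter (fun v => f v = c)).card ≤ 2 * κ - 2)
    (g : Copy (oddWheel k) (baseT R b)) : False := by
  classical
  have : NeZero (2 * k) := ⟨by omega⟩
  have hval1 : ((1 : Fin (2 * k)) : ℕ) = 1 := by
    rw [Fin.val_one']
    exact Nat.mod_eq_of_lt (by omega)
  have hadj : ∀ j : Fin (2 * k), (baseT R b).Adj (g (some j)) (g (some (j + 1))) := by
    intro j
    have : (oddWheel k).Adj (some j) (some (j + 1)) := by
      show (cycleGraph (2 * k)).Adj j (j + 1)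
      rw [cycleGraph_adj']
      right
      rw [add_sub_cancel_left, hval1]
    exact g.toHom.map_adj this
  have hhub : ∀ j : Fin (2 * k), (baseT R b).Adj (g none) (g (some j)) := by
    intro j
    have : (oddWheel k).Adj none (some j) := trivial
    exact g.toHom.map_adj this
  have hinj : ∀ i j : Fin (2 * k), g (some i) = g (some j) → i = j := by
    intro i j h
    exact Option.some.inj (g.injective h)
  rcases hx : g none with x | y
  · -- the hub is in the first part
    set SA : Finset (Fin (2 * k)) := univ.filter (fun j => ∃ u, g (some j) = Sum.inl u) with hSA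
    set SB : Finset (Fin (2 * k)) := univ.filter (fun j => ¬ ∃ u, g (some j) = Sum.inl u) with hSB
    have hcard : SA.card + SB.card = 2 * k := by
      have := Finset.card_filter_add_card_filter_not (s := (univ : Finset (Fin (2 * k))))
        (fun j => ∃ u, g (some j) = Sum.inl u)
      rw [Finset.card_univ, Fintype.card_fin] at this
      exact this
    have hSAc : SA.card ≤ κ - 1 := by
      have h1 : ∀ j ∈ SA, ∃ u, g (some j) = Sum.inl u := fun j hj => (Finset.mem_filter.1 hj).2
      have hne : Nonempty U := ⟨x⟩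
      choose! u hu using h1
      refine le_trans ?_ (hdeg x)
      rw [← Finset.card_filter]
      apply Finset.card_le_card_of_injOn u
      · intro j hj
        have h2 := hhub j
        rw [hx, hu j hj] at h2
        exact Finset.mem_filter.2 ⟨Finset.mem_univ _, h2⟩
      · intro j hj j' hj' hjj
        apply hinj
        rw [hu j hj, hu j' hj', hjj]
    set SBB : Finset (Fin (2 * k)) := SB.filter (fun j => j + 1 ∈ SB) with hSBB
    have hSBA : (SB.filter (fun j => ¬ j + 1 ∈ SB)).card ≤ SA.card := by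
      apply Finset.card_le_card_of_injOn (fun j => j + 1)
      · intro j hj
        have h2 := (Finset.mem_filter.1 hj).2
        by_contra h3
        apply h2
        refine Finset.mem_filter.2 ⟨Finset.mem_univ _, fun h4 => h3 ?_⟩
        exact Finset.mem_filter.2 ⟨Finset.mem_univ _, h4⟩
      · intro j _ j' _ hjj
        exact add_right_cancel hjj
    have hSBBc : 2 ≤ SBB.card := by
      have := Finset.card_filter_add_card_filter_not (s := SB) (fun j => j + 1 ∈ SB)
      have h4 : SBB.card = (SB.filter (fun j => j + 1 ∈ SB)).card := rfl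
      omega
    obtain ⟨j, hj, j', hj', hne⟩ := Finset.one_lt_card.1 hSBBc
    have hval : ∀ i ∈ SBB, ∃ y y' : Fin b, g (some i) = Sum.inr y ∧
        g (some (i + 1)) = Sum.inr y' ∧ y ≠ y' ∧ (y : ℕ) < 2 ∧ (y' : ℕ) < 2 := by
      intro i hi
      have h1 := (Finset.mem_filter.1 (Finset.mem_filter.1 hi).1).2
      have h2 := (Finset.mem_filter.1 (Finset.mem_filter.1 hi).2).2
      rcases hy : g (some i) with u | y
      · exact absurd ⟨u, hy⟩ h1
      rcases hy' : g (some (i + 1)) with u | y'
      · exact absurd ⟨u, hy'⟩ h2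
      have h3 := hadj i
      rw [hy, hy'] at h3
      exact ⟨y, y', rfl, rfl, h3⟩
    obtain ⟨y, z, hy, hz, hyz, hy2, hz2⟩ := hval j hj
    obtain ⟨y', z', hy', hz', hyz', hy2', hz2'⟩ := hval j' hj'
    have h1 : y ≠ y' := by
      intro h
      apply hne
      apply hinj
      rw [hy, hy', h]
    have h2 : z = y' := by
      apply Fin.ext
      have e1 : (y : ℕ) ≠ y' := fun h => h1 (Fin.ext h)
      have e2 : (y : ℕ) ≠ z := fun h => hyz (Fin.ext h)
      omega
    have h3 : z' = y := by
      apply Fin.ext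
      have e1 : (y : ℕ) ≠ y' := fun h => h1 (Fin.ext h)
      have e2 : (y' : ℕ) ≠ z' := fun h => hyz' (Fin.ext h)
      omega
    have h4 : j + 1 = j' := hinj _ _ (by rw [hz, hy', h2])
    have h5 : j' + 1 = j := hinj _ _ (by rw [hz', hy, h3])
    rw [← h4] at h5
    have h6 : (j + 1 + 1 : Fin (2 * k)) - j = 0 := by rw [h5]; exact sub_self j
    have h7 : (j + 1 + 1 : Fin (2 * k)) - j = 1 + 1 := by abel
    rw [h7] at h6
    have h8 := congrArg Fin.val h6
    rw [Fin.val_add, hval1] at h8
    simp only [Fin.val_zero] at h8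
    rw [Nat.mod_eq_of_lt (by omega)] at h8
    omega
  · -- the hub is in the second part
    have huniq : ∀ i j : Fin (2 * k), (¬ ∃ u, g (some i) = Sum.inl u) →
        (¬ ∃ u, g (some j) = Sum.inl u) → i = j := by
      intro i j hi hj
      have h1 := hhub i
      have h2 := hhub j
      rcases hy : g (some i) with u | z
      · exact absurd ⟨u, hy⟩ hi
      rcases hy' : g (some j) with u | z'
      · exact absurd ⟨u, hy'⟩ hj
      rw [hx, hy] at h1
      rw [hx, hy'] at h2
      obtain ⟨a1, a2, a3⟩ := h1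
      obtain ⟨b1, b2, b3⟩ := h2
      apply hinj
      rw [hy, hy']
      congr 1
      apply Fin.ext
      have e1 : (y : ℕ) ≠ z := fun h => a1 (Fin.ext h)
      have e2 : (y : ℕ) ≠ z' := fun h => b1 (Fin.ext h)
      omega
    obtain ⟨i₀, hi₀⟩ : ∃ i₀ : Fin (2 * k), ∀ i, i ≠ i₀ → ∃ u, g (some i) = Sum.inl u := by
      by_cases h : ∃ i, ¬ ∃ u, g (some i) = Sum.inl u
      · obtain ⟨i, hi⟩ := h
        refine ⟨i, fun i' hi' => ?_⟩
        by_contra hcon
        exact hi' (huniq i' i hcon hi)
      · push Not at h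
        exact ⟨0, fun i _ => h i⟩
    let p : ℕ → Fin (2 * k) := fun t => ⟨((i₀ : ℕ) + t) % (2 * k), Nat.mod_lt _ (by omega)⟩
    have hp1 : ∀ t, p (t + 1) = p t + 1 := by
      intro t
      apply Fin.ext
      rw [Fin.val_add, hval1]
      simp only [p]
      rw [← add_assoc, Nat.add_mod, Nat.mod_eq_of_lt (show 1 < 2 * k by omega)]
    have hp0 : p 0 = i₀ := by
      apply Fin.ext
      simp only [p, add_zero]
      exact Nat.mod_eq_of_lt i₀.isLt
    have hpinj : ∀ t t', t < 2 * k → t' < 2 * k → p t = p t' → t = t' := by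
      intro t t' ht ht' h
      have h1 : ((i₀ : ℕ) + t) % (2 * k) = ((i₀ : ℕ) + t') % (2 * k) := congrArg Fin.val h
      have h2 : t ≡ t' [MOD 2 * k] := Nat.ModEq.add_left_cancel' (i₀ : ℕ) h1
      have h3 : t % (2 * k) = t' % (2 * k) := h2
      rwa [Nat.mod_eq_of_lt ht, Nat.mod_eq_of_lt ht'] at h3
    have hpA : ∀ t : ℕ, t < 2 * k - 1 → ∃ u, g (some (p (t + 1))) = Sum.inl u := by
      intro t ht
      apply hi₀
      intro h
      rw [← hp0] at h
      have := hpinj (t + 1) 0 (by omega) (by omega) h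
      omega
    obtain ⟨u₀, hu₀⟩ := hpA 0 (by omega)
    have hne : Nonempty U := ⟨u₀⟩
    choose! u hu using hpA
    have hfu : ∀ t, t < 2 * k - 1 → f (u t) = f (u 0) := by
      intro t
      induction t with
      | zero => intro _; rfl
      | succ t ih =>
        intro ht
        rw [← ih (by omega)]
        have h1 := hadj (p (t + 1))
        rw [← hp1 (t + 1), hu t (by omega), hu (t + 1) ht] at h1
        exact (hf _ _ h1).symm
    have h1 : (2 * k - 1) ≤ (univ.filter (fun v => f v = f (u 0))).card := by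
      calc 2 * k - 1 = (range (2 * k - 1)).card := (Finset.card_range _).symm
        _ ≤ _ := by
          apply Finset.card_le_card_of_injOn u
          · intro t ht
            exact Finset.mem_filter.2 ⟨Finset.mem_univ _, hfu t (Finset.mem_range.1 ht)⟩
          · intro t ht t' ht' htt
            have ht1 := Finset.mem_range.1 ht
            have ht1' := Finset.mem_range.1 ht'
            have h2 : g (some (p (t + 1))) = g (some (p (t' + 1))) := by
              rw [hu t ht1, hu t' ht1', htt]
            have h3 := hpinj _ _ (by omega) (by omega) (hinj _ _ h2)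
            omega
    have h2 := hfib (f (u 0))
    omega

/-- The lower bound from one construction. -/
theorem lower_T {m : ℕ} (k : Fin m → ℕ) (hanti : Antitone k) (hk : ∀ i, 2 ≤ k i) (j : Fin m)
    {a b : ℕ} (ha : k j * k j + k j + 1 ≤ a) (hb : 2 ≤ b) :
    (j : ℕ).choose 2 + j * (a + b) + (a * b + ((k j - 1) * a) / 2 + 1) ≤
      extremalNumber (j + (a + b)) (wheels k) := by
  classical
  obtain ⟨U, i1, i2, R, i3, f, c1, c2, c3, c4, c5⟩ := good_floor (hk j) ha
  have hfree : (wheels k).Free (apexJoin j (baseT R b)) := by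
    rintro ⟨g⟩
    obtain ⟨i, hi, ⟨g'⟩⟩ := apex_pigeon (fun i => oddWheel (k i)) j.isLt g
    exact baseT_no_wheel f (hk j) (hanti (Fin.le_def.2 hi)) c2 c3 c4 g'
  have h1 := card_edgeFinset_le_extremalNumber hfree
  rw [apexJoin_edges] at h1
  have h2 := baseT_edges R hb
  rw [c1] at h2
  have h3 : Fintype.card (Fin j ⊕ (U ⊕ Fin b)) = j + (a + b) := by
    simp [c1]
  have h4 : Fintype.card (U ⊕ Fin b) = a + b := by
    simp [c1]
  rw [h3, h4] at h1
  omega

end Pool.Agent.MP_f45649_co
end

section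

/-!
The extremal numbers of star forests.
-/

namespace Pool.Agent.MP_f45649_co

open SimpleGraph Finset

/-- The values of the star forest constructions. -/
def sval (j κ n : ℕ) : ℕ := j.choose 2 + j * (n - j) + ((κ - 1) * (n - j)) / 2

/-- The largest of them. -/
def Sval {m : ℕ} (k : Fin m → ℕ) (n : ℕ) : ℕ := univ.sup (fun i : Fin m => sval i (k i) n)

lemma sval_le_Sval {m : ℕ} (k : Fin m → ℕ) (n : ℕ) (i : Fin m) : sval i (k i) n ≤ Sval k n :=
  Finset.le_sup (f := fun i : Fin m => sval i (k i) n) (Finset.mem_univ i)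

lemma sval_join {j κ n : ℕ} (h : j ≤ n) : sval (j + 1) κ (n + 1) = n + sval j κ n := by
  unfold sval
  obtain ⟨r, rfl⟩ : ∃ r, n = j + r := ⟨n - j, by omega⟩
  have e1 : j + r + 1 - (j + 1) = r := by omega
  have e2 : j + r - j = r := by omega
  rw [e1, e2, Nat.choose_succ_succ' j 1, Nat.choose_one_right]
  ring

lemma sval_mono {j κ n n' : ℕ} (h : n ≤ n') : sval j κ n ≤ sval j κ n' := by
  unfold sval
  have h1 : n - j ≤ n' - j := by omega
  have h2 : j * (n - j) ≤ j * (n' - j) := Nat.mul_le_mul_left _ h1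
  have h3 : (κ - 1) * (n - j) / 2 ≤ (κ - 1) * (n' - j) / 2 :=
    Nat.div_le_div_right (Nat.mul_le_mul_left _ h1)
  omega

lemma Sval_mono {m : ℕ} (k : Fin m → ℕ) {n n' : ℕ} (h : n ≤ n') : Sval k n ≤ Sval k n' := by
  unfold Sval
  apply Finset.sup_le
  intro i _
  exact le_trans (sval_mono h) (sval_le_Sval k n' i)

lemma Sval_join {m : ℕ} (k : Fin (m + 2) → ℕ) {n : ℕ} (h : m + 1 ≤ n) :
    n + Sval (fun i : Fin (m + 1) => k i.succ) n ≤ Sval k (n + 1) := by
  have h1 : Sval (fun i : Fin (m + 1) => k i.succ) n ≤ Sval k (n + 1) - n := by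
    unfold Sval
    apply Finset.sup_le
    intro i _
    have e1 := sval_le_Sval k (n + 1) i.succ
    unfold Sval at e1
    rw [Fin.val_succ, sval_join (by omega)] at e1
    show sval i (k i.succ) n ≤ _
    omega
  have e1 := sval_le_Sval k (n + 1) (Fin.succ 0)
  rw [Fin.val_succ, sval_join (by simp)] at e1
  omega

/-- Combine a copy of the first graph and a disjoint copy of the others. -/
lemma combine' {V : Type} {G : SimpleGraph V} {m : ℕ} {U : Fin (m + 1) → Type}
    {Gs : ∀ i, SimpleGraph (U i)}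
    (g : Copy (Gs 0) G) (f : Copy (disjointUnion (fun i : Fin m => Gs i.succ)) G)
    (hdis : ∀ x y, g x ≠ f y) : disjointUnion Gs ⊑ G := by
  let F : (Σ i, U i) → V := fun z =>
    Fin.cases (motive := fun i => U i → V) (fun x => g x) (fun i x => f ⟨i, x⟩) z.1 z.2
  have hF0 : ∀ x, F ⟨0, x⟩ = g x := fun x => rfl
  have hFs : ∀ i x, F ⟨Fin.succ i, x⟩ = f ⟨i, x⟩ := fun i x => rfl
  refine ⟨⟨⟨F, ?_⟩, ?_⟩⟩
  · rintro x y ⟨i, a, b, rfl, rfl, h⟩
    revert a b h
    refine Fin.cases ?_ (fun i => ?_) i
    · intro a b h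
      rw [hF0, hF0]
      exact g.toHom.map_adj h
    · intro a b h
      rw [hFs, hFs]
      exact f.toHom.map_adj ⟨i, a, b, rfl, rfl, h⟩
  · rintro ⟨i, a⟩ ⟨j, b⟩ h
    revert a b h
    refine Fin.cases ?_ (fun i => ?_) i <;> refine Fin.cases ?_ (fun j => ?_) j
    · intro a b h
      have h' : g a = g b := h
      rw [g.injective h']
    · intro a b h
      exact absurd (show g a = f ⟨j, b⟩ from h) (hdis _ _)
    · intro a b h
      exact absurd (show g b = f ⟨i, a⟩ from Eq.symm h) (hdis _ _)
    · intro a b h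
      have h' : f ⟨i, a⟩ = f ⟨j, b⟩ := h
      have h2 := f.injective h'
      simp only [Sigma.mk.injEq] at h2
      obtain ⟨rfl, h3⟩ := h2
      rw [eq_of_heq h3]

/-- A star from a centre and a set of leaves. -/
lemma star_copy {V : Type} {G : SimpleGraph V} {κ : ℕ} {v : V} {L : Finset V}
    (hL : L.card = κ) (hadj : ∀ w ∈ L, G.Adj v w) :
    ∃ g : Copy (kStar κ) G, ∀ x, g x = v ∨ g x ∈ L := by
  classical
  let e : Fin κ ≃ L := (finCongr hL.symm).trans L.equivFin.symm
  let g : Option (Fin κ) → V := fun x =>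
    match x with
    | none => v
    | some j => (e j : V)
  have hmem : ∀ j, ((e j : L) : V) ∈ L := fun j => (e j).2
  refine ⟨⟨⟨g, ?_⟩, ?_⟩, ?_⟩
  · rintro (_ | a) (_ | b) h
    · exact absurd rfl h.ne
    · exact hadj _ (hmem b)
    · exact (hadj _ (hmem a)).symm
    · change (starGraph (none : Option (Fin κ))).Adj _ _ at h
      rw [starGraph_adj] at h
      rcases h.2 with h2 | h2 <;> simp at h2
  · rintro (_ | a) (_ | b) h
    · rfl
    · have h' : v = ((e b : L) : V) := h
      have := hadj _ (hmem b)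
      rw [← h'] at this
      exact absurd this (G.loopless.irrefl v)
    · have h' : ((e a : L) : V) = v := h
      have := hadj _ (hmem a)
      rw [h'] at this
      exact absurd this (G.loopless.irrefl v)
    · have h' : ((e a : L) : V) = ((e b : L) : V) := h
      have := e.injective (Subtype.ext h')
      rw [this]
  · rintro (_ | a)
    · exact Or.inl rfl
    · exact Or.inr (hmem a)

/-- The inductive step. -/
lemma stars_step {m : ℕ} (k : Fin (m + 1) → ℕ)
    (ih : ∃ n₂ : ℕ, ∀ n', n₂ ≤ n' → ∀ (W : Type) [Fintype W] [DecidableEq W]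
      (G' : SimpleGraph W) [DecidableRel G'.Adj], Fintype.card W = n' →
      (stars (fun i : Fin m => k i.succ)).Free G' → ∀ t,
      #G'.edgeFinset + (n' + t) ≤ Sval k (n' + t + 1)) :
    ∃ n₁ : ℕ, ∀ n, n₁ ≤ n → extremalNumber n (stars k) ≤ Sval k n := by
  classical
  obtain ⟨n₂, ih⟩ := ih
  obtain ⟨κ, hκ⟩ : ∃ κ, κ = k 0 := ⟨_, rfl⟩
  obtain ⟨z, hz⟩ : ∃ z, z = Fintype.card (Σ i : Fin m, Option (Fin (k i.succ))) := ⟨_, rfl⟩
  refine ⟨n₂ + (κ + 1) * (κ + z) + κ + 2, fun n hn => ?_⟩
  have hmain : ∀ (G : SimpleGraph (Fin n)) [DecidableRel G.Adj], (stars k).Free G →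
      #G.edgeFinset ≤ Sval k n := by
    intro G inst hfree
    by_cases hbig : ∃ v, κ + z ≤ G.degree v
    · obtain ⟨v, hv⟩ := hbig
      have h1 : (stars (fun i : Fin m => k i.succ)).Free (G.induce ({v}ᶜ : Set (Fin n))) := by
        rintro ⟨f⟩
        obtain ⟨g, hg⟩ := copy_of_induce f
        have h2 : κ ≤ (G.neighborFinset v \ univ.image g).card := by
          have e1 := Finset.le_card_sdiff (univ.image g) (G.neighborFinset v)
          have e2 : (univ.image g).card ≤ z := by
            rw [hz, ← Finset.card_univ]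
            exact Finset.card_image_le
          rw [G.card_neighborFinset_eq_degree] at e1
          omega
        obtain ⟨L, hL, hLc⟩ := Finset.exists_subset_card_eq h2
        rw [hκ] at hLc
        obtain ⟨w, hw⟩ := star_copy (G := G) hLc (fun x hx => by
          have := (Finset.mem_sdiff.1 (hL hx)).1
          rwa [mem_neighborFinset] at this)
        apply hfree
        refine combine' w g ?_
        intro x y hxy
        rcases hw x with h | h
        · rw [h] at hxy
          exact hg y hxy.symm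
        · rw [hxy] at h
          exact (Finset.mem_sdiff.1 (hL h)).2 (Finset.mem_image_of_mem _ (Finset.mem_univ y))
      have h2 := ih (n - 1) (by omega) _ (G.induce ({v}ᶜ : Set (Fin n))) (by
        rw [Fintype.card_compl_set]; simp) h1 0
      have h3 := G.card_edgeFinset_induce_compl_singleton v
      have h4 := G.card_edgeFinset_deleteIncidenceSet v
      have h5 := G.degree_lt_card_verts v
      rw [Fintype.card_fin] at h5
      have h6 : n - 1 + 0 + 1 = n := by omega
      rw [h6] at h2
      omega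
    · push Not at hbig
      by_cases hst : ∃ v, κ ≤ G.degree v
      · obtain ⟨v, hv⟩ := hst
        rw [← G.card_neighborFinset_eq_degree] at hv
        obtain ⟨L, hL, hLc⟩ := Finset.exists_subset_card_eq hv
        have hLadj : ∀ w ∈ L, G.Adj v w := fun w hw => by
          have := hL hw
          rwa [mem_neighborFinset] at this
        set U : Finset (Fin n) := insert v L with hU
        have hUc : U.card = κ + 1 := by
          rw [hU, Finset.card_insert_of_notMem, hLc]
          intro h
          exact G.loopless.irrefl v (hLadj v h)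
        have h1 : (stars (fun i : Fin m => k i.succ)).Free (G.induce ((U : Set (Fin n))ᶜ)) := by
          rintro ⟨f⟩
          obtain ⟨g, hg⟩ := copy_of_induce f
          obtain ⟨w, hw⟩ := star_copy (G := G) (hLc.trans hκ) hLadj
          apply hfree
          refine combine' w g ?_
          intro x y hxy
          apply hg y
          have h5 : w x ∈ (U : Set (Fin n)) := by
            rcases hw x with h | h
            · rw [h, hU]
              exact Finset.mem_coe.2 (Finset.mem_insert_self _ _)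
            · exact Finset.mem_coe.2 (Finset.mem_insert_of_mem h)
          exact Eq.subst (motive := fun z => z ∈ (U : Set (Fin n))) hxy h5
        have h2 := edges_le_induce G U
        have h3 : ∑ u ∈ U, G.degree u ≤ (κ + 1) * (κ + z) := by
          rw [← hUc, ← smul_eq_mul]
          exact Finset.sum_le_card_nsmul _ _ _ (fun u _ => (hbig u).le)
        obtain ⟨n', hn'⟩ : ∃ n', n = n' + κ + 1 := ⟨n - (κ + 1), by omega⟩
        have h4 := ih n' (by omega) _ (G.induce ((U : Set (Fin n))ᶜ)) (by
          rw [Fintype.card_compl_set]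
          simp only [Fintype.card_fin, Finset.coe_sort_coe, Fintype.card_coe, hUc]
          omega) h1 κ
        rw [← hn'] at h4
        omega
      · push Not at hst
        have h1 : 2 * #G.edgeFinset = ∑ v, G.degree v :=
          (G.sum_degrees_eq_twice_card_edges).symm
        have h2 : ∑ v, G.degree v ≤ n * (κ - 1) := by
          have := Finset.sum_le_card_nsmul (univ : Finset (Fin n)) (fun v => G.degree v) (κ - 1)
            (fun v _ => by have := hst v; omega)
          rwa [Finset.card_univ, Fintype.card_fin, smul_eq_mul] at this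
        have h3 := sval_le_Sval k n 0
        have h4 : sval (0 : ℕ) (k 0) n = ((k 0 - 1) * n) / 2 := by
          unfold sval
          simp
        rw [Fin.val_zero, h4, ← hκ] at h3
        have h5 : n * (κ - 1) = (κ - 1) * n := mul_comm _ _
        omega
  have h7 := (extremalNumber_le_iff (V := Fin n) (stars k) (Sval k n)).2
    (fun G _ hfree => hmain G hfree)
  rwa [Fintype.card_fin] at h7

/-- The upper bound for star forests. -/
theorem stars_upper : ∀ (m : ℕ) (k : Fin (m + 1) → ℕ),
    ∃ n₁ : ℕ, ∀ n, n₁ ≤ n → extremalNumber n (stars k) ≤ Sval k n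
  | 0, k => by
    apply stars_step k
    refine ⟨0, fun n' _ W _ _ G' _ _ hfree => ?_⟩
    exfalso
    apply hfree
    refine ⟨⟨⟨fun x => x.1.elim0, ?_⟩, ?_⟩⟩
    · intro a; exact a.1.elim0
    · intro a; exact a.1.elim0
  | m + 1, k => by
    obtain ⟨n₁, h⟩ := stars_upper m (fun i => k i.succ)
    apply stars_step k
    refine ⟨n₁ + m + 1, fun n' hn' W _ _ G' _ hW hfree t => ?_⟩
    have h1 := card_edgeFinset_le_extremalNumber hfree
    rw [hW] at h1
    have h2 := h n' (by omega)
    have h3 := Sval_mono (fun i : Fin (m + 1) => k i.succ) (show n' ≤ n' + t by omega)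
    have h4 := Sval_join k (n := n' + t) (by omega)
    omega

/-- The lower bound for star forests from one construction. -/
theorem lower_S {m : ℕ} (k : Fin m → ℕ) (hanti : Antitone k) (hk : ∀ i, 2 ≤ k i) (j : Fin m)
    {a : ℕ} (ha : k j * k j + k j + 1 ≤ a) :
    sval j (k j) (j + a) ≤ extremalNumber (j + a) (stars k) := by
  classical
  obtain ⟨U, i1, i2, R, i3, f, c1, c2, c3, c4, c5⟩ := good_floor (hk j) ha
  have hfree : (stars k).Free (apexJoin j R) := by
    rintro ⟨g⟩
    obtain ⟨i, hi, ⟨g'⟩⟩ := apex_pigeon (fun i => kStar (k i)) j.isLt g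
    have h1 := hanti (Fin.le_def.2 hi)
    have h2 := c2 (g' none)
    rw [← Finset.card_filter] at h2
    have h3 : (univ : Finset (Fin (k i))).card ≤
        (univ.filter (fun w => R.Adj (g' none) w)).card := by
      apply Finset.card_le_card_of_injOn (fun x => g' (some x))
      · intro x _
        refine Finset.mem_filter.2 ⟨Finset.mem_univ _, ?_⟩
        have : (kStar (k i)).Adj none (some x) := by
          change (starGraph (none : Option (Fin (k i)))).Adj _ _
          rw [starGraph_adj]
          simp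
        exact g'.toHom.map_adj this
      · intro x _ y _ hxy
        exact Option.some.inj (g'.injective hxy)
    rw [Finset.card_univ, Fintype.card_fin] at h3
    have h4 := hk j
    omega
  have h1 := card_edgeFinset_le_extremalNumber hfree
  rw [apexJoin_edges] at h1
  have h2 := two_mul_card_edges R
  have h3 : Fintype.card (Fin j ⊕ U) = j + a := by
    simp [c1]
  rw [h3, c1] at h1
  unfold sval
  rw [Nat.add_sub_cancel_left]
  omega

end Pool.Agent.MP_f45649_co
end

section

/-!
A graph of large minimum degree without flexible vertices is nearly bipartite.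
-/

namespace Pool.Agent.MP_f45649_co

open SimpleGraph Finset

variable {V : Type} [Fintype V] [DecidableEq V]

omit [Fintype V] [DecidableEq V] in
lemma filter_add_filter_not (Q : Finset V) (G : SimpleGraph V) [DecidableRel G.Adj] (p : V) :
    (Q.filter (G.Adj p)).card + (Q.filter (fun y => ¬ G.Adj p y)).card = Q.card :=
  Finset.card_filter_add_card_filter_not _

omit [Fintype V] in
lemma flex_far {G : SimpleGraph V} [DecidableRel G.Adj] {k z₀ q e n : ℕ} {v : V}
    (hq : k + z₀ ≤ q) (P Q : Finset V) (hP : ∀ p ∈ P, G.Adj v p) (hPc : q ≤ P.card)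
    (hp : ∀ p ∈ P, n ≤ 2 * (Q.filter (G.Adj p)).card + 2 * q + 2 * e + 1)
    (hQ : 2 * Q.card ≤ n + 2 * q + 1)
    (hv : k * (2 * q + e + 1) + q ≤ (Q.filter (G.Adj v)).card) : Flexible G k z₀ v := by
  refine flexible_of P Q hq hP hPc (D := 2 * q + e + 1) (fun p hpP => ?_) hv
  have h1 := filter_add_filter_not Q G p
  have h2 := hp p hpP
  omega

/-- The bipartite structure from two large sets. -/
lemma split_of {n : ℕ} {G : SimpleGraph V} [DecidableRel G.Adj] {k z₀ q e : ℕ}
    (hq : k + z₀ ≤ q) (hdeg : ∀ v, n ≤ 2 * G.degree v + 1) (hflex : ∀ v, ¬ Flexible G k z₀ v)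
    (A' B' E : Finset V) (hcov : ∀ v, v ∈ A' ∨ v ∈ B' ∨ v ∈ E) (hE : E.card ≤ e)
    (hA' : 2 * A'.card ≤ n + 2 * q + 1) (hB' : 2 * B'.card ≤ n + 2 * q + 1)
    (hAA : ∀ v ∈ A', (A'.filter (G.Adj v)).card < q)
    (hBB : ∀ v ∈ B', (B'.filter (G.Adj v)).card < q)
    (hbig : 4 * (k * (2 * q + e + 1) + q) + 2 * q + 2 * e + 1 ≤ n) :
    ∃ A : Finset V, (∀ v ∈ A, (A.filter (G.Adj v)).card < q) ∧
      (∀ v ∈ Aᶜ, (Aᶜ.filter (G.Adj v)).card < q) := by
  have hsum : ∀ v, n ≤ 2 * ((A'.filter (G.Adj v)).card + (B'.filter (G.Adj v)).card + e) + 1 := by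
    intro v
    have h1 := hdeg v
    have h2 : G.degree v ≤ (A'.filter (G.Adj v)).card + (B'.filter (G.Adj v)).card + e := by
      rw [← G.card_neighborFinset_eq_degree]
      have h3 : G.neighborFinset v ⊆ A'.filter (G.Adj v) ∪ (B'.filter (G.Adj v) ∪ E) := by
        intro w hw
        rw [mem_neighborFinset] at hw
        simp only [Finset.mem_union, Finset.mem_filter]
        rcases hcov w with h | h | h
        · exact Or.inl ⟨h, hw⟩
        · exact Or.inr (Or.inl ⟨h, hw⟩)
        · exact Or.inr (Or.inr h)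
      have h4 := Finset.card_le_card h3
      have h5 := Finset.card_union_le (A'.filter (G.Adj v)) (B'.filter (G.Adj v) ∪ E)
      have h6 := Finset.card_union_le (B'.filter (G.Adj v)) E
      omega
    omega
  have hA'B : ∀ v ∈ A', n ≤ 2 * (B'.filter (G.Adj v)).card + 2 * q + 2 * e + 1 := by
    intro v hv
    have h1 := hAA v hv
    have h2 := hsum v
    omega
  have hB'A : ∀ v ∈ B', n ≤ 2 * (A'.filter (G.Adj v)).card + 2 * q + 2 * e + 1 := by
    intro v hv
    have h1 := hBB v hv
    have h2 := hsum v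
    omega
  have h5a : ∀ v, n ≤ 4 * (B'.filter (G.Adj v)).card + 2 * e + 1 →
      (A'.filter (G.Adj v)).card < q := by
    intro v hv
    by_contra hcon
    push Not at hcon
    apply hflex v
    exact flex_far hq (A'.filter (G.Adj v)) B' (fun p hp => (Finset.mem_filter.1 hp).2) hcon
      (fun p hp => hA'B p (Finset.mem_filter.1 hp).1) hB' (by omega)
  have h5b : ∀ v, n ≤ 4 * (A'.filter (G.Adj v)).card + 2 * e + 1 →
      (B'.filter (G.Adj v)).card < q := by
    intro v hv
    by_contra hcon
    push Not at hcon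
    apply hflex v
    exact flex_far hq (B'.filter (G.Adj v)) A' (fun p hp => (Finset.mem_filter.1 hp).2) hcon
      (fun p hp => hB'A p (Finset.mem_filter.1 hp).1) hA' (by omega)
  refine ⟨univ.filter (fun v => (A'.filter (G.Adj v)).card < q), ?_, ?_⟩
  · have hA : ∀ v, (A'.filter (G.Adj v)).card < q →
        n ≤ 2 * (B'.filter (G.Adj v)).card + 2 * q + 2 * e + 1 := by
      intro v hv
      have h2 := hsum v
      omega
    intro v hv
    rw [Finset.mem_filter] at hv
    by_contra hcon
    push Not at hcon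
    apply hflex v
    refine flex_far hq _ B' (fun p hp => (Finset.mem_filter.1 hp).2) hcon
      (fun p hp => hA p ?_) hB' ?_
    · exact (Finset.mem_filter.1 (Finset.mem_filter.1 hp).1).2
    · have := hA v hv.2
      omega
  · have hB : ∀ v, ¬ (A'.filter (G.Adj v)).card < q →
        n ≤ 2 * (A'.filter (G.Adj v)).card + 2 * q + 2 * e + 1 := by
      intro v hv
      have h2 := hsum v
      have h3 : ¬ (n ≤ 4 * (B'.filter (G.Adj v)).card + 2 * e + 1) := fun h => hv (h5a v h)
      have h4 := h5b v (by omega)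
      omega
    intro v hv
    rw [Finset.mem_compl, Finset.mem_filter] at hv
    by_contra hcon
    push Not at hcon
    apply hflex v
    refine flex_far hq _ A' (fun p hp => (Finset.mem_filter.1 hp).2) hcon
      (fun p hp => hB p ?_) hA' ?_
    · have h1 := (Finset.mem_filter.1 hp).1
      rw [Finset.mem_compl, Finset.mem_filter] at h1
      exact fun h => h1 ⟨Finset.mem_univ _, h⟩
    · have := hB v (fun h => hv ⟨Finset.mem_univ _, h⟩)
      omega

/-- Large minimum degree gives a large complete bipartite graph. -/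
lemma exists_ktt (T : ℕ) : ∃ n₀ : ℕ, ∀ n, n₀ ≤ n → ∀ (G : SimpleGraph (Fin n))
    [DecidableRel G.Adj], (∀ v, n ≤ 2 * G.degree v + 1) →
    ∃ A B : Finset (Fin n), A.card = T ∧ B.card = T ∧ ∀ a ∈ A, ∀ b ∈ B, G.Adj a b := by
  have h := SimpleGraph.eventually_completeEquipartiteGraph_isContained_of_minDegree
    (ε := 1 / 3) (by norm_num) 1 T
  obtain ⟨n₀, hn₀⟩ := Filter.eventually_atTop.1 h
  refine ⟨max n₀ 3, fun n hn G _ hdeg => ?_⟩
  have hn3 : 3 ≤ n := le_trans (le_max_right _ _) hn
  have : Nonempty (Fin n) := ⟨⟨0, by omega⟩⟩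
  obtain ⟨v, hv⟩ := G.exists_minimal_degree_vertex
  have hmin : (G.minDegree : ℝ) ≥ (1 - 1 / ((1 : ℕ) : ℝ) + 1 / 3) * n := by
    have h1 := hdeg v
    rw [← hv] at h1
    have h2 : (n : ℝ) ≤ 2 * G.minDegree + 1 := by exact_mod_cast h1
    have h3 : (3 : ℝ) ≤ n := by exact_mod_cast hn3
    push_cast
    linarith
  obtain ⟨f⟩ := hn₀ n (le_trans (le_max_left _ _) hn) hmin
  refine ⟨univ.image (fun j : Fin T => f (0, j)), univ.image (fun j : Fin T => f (1, j)),
    ?_, ?_, ?_⟩
  · rw [Finset.card_image_of_injective]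
    · simp
    · intro i j hij
      have := f.injective hij
      simpa using this
  · rw [Finset.card_image_of_injective]
    · simp
    · intro i j hij
      have := f.injective hij
      simpa using this
  · intro a ha b hb
    obtain ⟨i, _, rfl⟩ := Finset.mem_image.1 ha
    obtain ⟨j, _, rfl⟩ := Finset.mem_image.1 hb
    apply f.toHom.map_adj
    simp [completeEquipartiteGraph]

omit [DecidableEq V] in
lemma sum_filter_adj (G : SimpleGraph V) [DecidableRel G.Adj] (A : Finset V) :
    ∑ v, (A.filter (G.Adj v)).card = ∑ a ∈ A, G.degree a := by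
  simp only [Finset.card_filter]
  rw [Finset.sum_comm]
  refine Finset.sum_congr rfl (fun a _ => ?_)
  rw [← Finset.card_filter, ← G.card_neighborFinset_eq_degree, neighborFinset_eq_filter]
  congr 1
  ext v
  simp [G.adj_comm]

/-- A graph on `n` vertices with minimum degree at least `(n - 1) / 2` and without flexible
vertices has a bipartition with bounded degrees inside the parts. -/
theorem structure_thm (k z₀ : ℕ) (hk : 1 ≤ k) : ∃ n₁ : ℕ, ∀ n, n₁ ≤ n →
    ∀ (G : SimpleGraph (Fin n)) [DecidableRel G.Adj], (∀ v, n ≤ 2 * G.degree v + 1) →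
    (∀ v, ¬ Flexible G k z₀ v) →
    ∃ A : Finset (Fin n), (∀ v ∈ A, (A.filter (G.Adj v)).card < k + z₀) ∧
      (∀ v ∈ Aᶜ, (Aᶜ.filter (G.Adj v)).card < k + z₀) := by
  obtain ⟨q, hqdef⟩ : ∃ q, q = k + z₀ := ⟨_, rfl⟩
  obtain ⟨R, hR⟩ : ∃ R, R = 16 * k + 16 := ⟨_, rfl⟩
  obtain ⟨γ, hγ⟩ : ∃ γ, γ = 2 * q * R := ⟨_, rfl⟩
  obtain ⟨T, hT⟩ : ∃ T, T = (k + 1) * (γ + q) + q := ⟨_, rfl⟩
  obtain ⟨n₀, hn₀⟩ := exists_ktt T
  refine ⟨n₀ + T + 32 * (k * (2 * q + 1) + q + q + 1), fun n hn G _ hdeg hflex => ?_⟩
  rw [← hqdef]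
  have hq1 : 1 ≤ q := by omega
  obtain ⟨A₀, B₀, hA₀, hB₀, hAB⟩ := hn₀ n (by omega) G hdeg
  have hTn : T ≤ n := by omega
  -- step 1
  have h1 : ∀ v, (A₀.filter (G.Adj v)).card < q ∨ (B₀.filter (G.Adj v)).card < q := by
    intro v
    by_contra hcon
    push Not at hcon
    apply hflex v
    refine flexible_of (q := q) (D := 0) (A₀.filter (G.Adj v)) B₀ (by omega)
      (fun p hp => (Finset.mem_filter.1 hp).2) hcon.1 (fun p hp => ?_) (by simpa using hcon.2)
    rw [Nat.le_zero, Finset.card_eq_zero, Finset.filter_eq_empty_iff]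
    intro b hb
    rw [not_not]
    exact hAB p (Finset.mem_filter.1 hp).1 b hb
  have hle : ∀ v, (A₀.filter (G.Adj v)).card ≤ T ∧ (B₀.filter (G.Adj v)).card ≤ T := by
    intro v
    constructor
    · rw [← hA₀]; exact Finset.card_filter_le _ _
    · rw [← hB₀]; exact Finset.card_filter_le _ _
  -- step 2
  set E : Finset (Fin n) := univ.filter
    (fun v => (A₀.filter (G.Adj v)).card + (B₀.filter (G.Adj v)).card + γ ≤ T) with hE
  have hlow : T * n ≤
      (∑ v, ((A₀.filter (G.Adj v)).card + (B₀.filter (G.Adj v)).card)) + T := by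
    rw [Finset.sum_add_distrib, sum_filter_adj, sum_filter_adj]
    have e1 : A₀.card * n ≤ ∑ a ∈ A₀, (2 * G.degree a + 1) := by
      rw [← smul_eq_mul]
      exact Finset.card_nsmul_le_sum _ _ _ (fun a _ => hdeg a)
    have e2 : B₀.card * n ≤ ∑ a ∈ B₀, (2 * G.degree a + 1) := by
      rw [← smul_eq_mul]
      exact Finset.card_nsmul_le_sum _ _ _ (fun a _ => hdeg a)
    rw [Finset.sum_add_distrib, ← Finset.mul_sum, Finset.sum_const, smul_eq_mul, mul_one] at e1 e2
    rw [hA₀] at e1
    rw [hB₀] at e2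
    omega
  have hup : (∑ v, ((A₀.filter (G.Adj v)).card + (B₀.filter (G.Adj v)).card)) +
      E.card * (γ + q) ≤ n * (T + q) := by
    have e1 : ∀ v ∈ (univ : Finset (Fin n)),
        (A₀.filter (G.Adj v)).card + (B₀.filter (G.Adj v)).card +
        (if v ∈ E then γ + q else 0) ≤ T + q := by
      intro v _
      have e2 := h1 v
      have e3 := hle v
      split_ifs with h
      · have := (Finset.mem_filter.1 h).2
        omega
      · omega
    have e4 := Finset.sum_le_sum e1
    rw [Finset.sum_add_distrib, Finset.sum_ite_mem, Finset.univ_inter, Finset.sum_const,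
      Finset.sum_const, smul_eq_mul, smul_eq_mul, Finset.card_univ, Fintype.card_fin] at e4
    exact e4
  have hEc : E.card * R ≤ n := by
    have e1 : n * (T + q) = T * n + n * q := by ring
    have e2 : E.card * (γ + q) ≤ n * q + T := by omega
    have e3 : n * q + T ≤ 2 * (n * q) := by
      have : T ≤ n * q := le_trans hTn (Nat.le_mul_of_pos_right n hq1)
      omega
    have e4 : E.card * (γ + q) = (E.card * R) * (2 * q) + E.card * q := by rw [hγ]; ring
    have e5 : (E.card * R) * (2 * q) ≤ n * (2 * q) := by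
      have : 2 * (n * q) = n * (2 * q) := by ring
      omega
    exact Nat.le_of_mul_le_mul_right e5 (by omega)
  -- the sets
  set A' : Finset (Fin n) := univ.filter (fun v => v ∉ E ∧ (A₀.filter (G.Adj v)).card < q)
    with hA'
  set B' : Finset (Fin n) := univ.filter (fun v => v ∉ E ∧ ¬ (A₀.filter (G.Adj v)).card < q)
    with hB'
  have hE' : ∀ v, v ∉ E →
      T < (A₀.filter (G.Adj v)).card + (B₀.filter (G.Adj v)).card + γ := by
    intro v hv
    by_contra hcon
    push Not at hcon
    exact hv (Finset.mem_filter.2 ⟨Finset.mem_univ _, hcon⟩)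
  have hTk : T = k * (γ + q) + (γ + q) + q := by rw [hT]; ring
  have hAb : ∀ v ∈ A', T < (B₀.filter (G.Adj v)).card + (γ + q) := by
    intro v hv
    have e1 := (Finset.mem_filter.1 hv).2
    have e2 := hE' v e1.1
    omega
  have hBa : ∀ v ∈ B', T < (A₀.filter (G.Adj v)).card + (γ + q) := by
    intro v hv
    have e1 := (Finset.mem_filter.1 hv).2
    have e2 := hE' v e1.1
    have e3 := h1 v
    omega
  have hAA : ∀ v ∈ A', (A'.filter (G.Adj v)).card < q := by
    intro v hv
    by_contra hcon
    push Not at hcon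
    apply hflex v
    refine flexible_of (q := q) (D := γ + q) (A'.filter (G.Adj v)) B₀ (by omega)
      (fun p hp => (Finset.mem_filter.1 hp).2) hcon (fun p hp => ?_) ?_
    · have e1 := hAb p (Finset.mem_filter.1 hp).1
      have e2 := filter_add_filter_not B₀ G p
      omega
    · have e1 := hAb v hv
      omega
  have hBB : ∀ v ∈ B', (B'.filter (G.Adj v)).card < q := by
    intro v hv
    by_contra hcon
    push Not at hcon
    apply hflex v
    refine flexible_of (q := q) (D := γ + q) (B'.filter (G.Adj v)) A₀ (by omega)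
      (fun p hp => (Finset.mem_filter.1 hp).2) hcon (fun p hp => ?_) ?_
    · have e1 := hBa p (Finset.mem_filter.1 hp).1
      have e2 := filter_add_filter_not A₀ G p
      omega
    · have e1 := hBa v hv
      omega
  have hcov : ∀ v, v ∈ A' ∨ v ∈ B' ∨ v ∈ E := by
    intro v
    by_cases hvE : v ∈ E
    · exact Or.inr (Or.inr hvE)
    · by_cases hva : (A₀.filter (G.Adj v)).card < q
      · exact Or.inl (Finset.mem_filter.2 ⟨Finset.mem_univ _, hvE, hva⟩)
      · exact Or.inr (Or.inl (Finset.mem_filter.2 ⟨Finset.mem_univ _, hvE, hva⟩))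
  have hcard : A'.card + B'.card + E.card = n := by
    have e1 : Disjoint A' B' := by
      rw [Finset.disjoint_left]
      intro v hv hv'
      exact (Finset.mem_filter.1 hv').2.2 (Finset.mem_filter.1 hv).2.2
    have e2 : Disjoint (A' ∪ B') E := by
      rw [Finset.disjoint_left]
      intro v hv hv'
      rcases Finset.mem_union.1 hv with h | h
      · exact (Finset.mem_filter.1 h).2.1 hv'
      · exact (Finset.mem_filter.1 h).2.1 hv'
    rw [← Finset.card_union_of_disjoint e1, ← Finset.card_union_of_disjoint e2]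
    have e3 : A' ∪ B' ∪ E = univ := by
      ext v
      simp only [Finset.mem_union, Finset.mem_univ, iff_true]
      rcases hcov v with h | h | h
      · exact Or.inl (Or.inl h)
      · exact Or.inl (Or.inr h)
      · exact Or.inr h
    rw [e3, Finset.card_univ, Fintype.card_fin]
  have hsum : ∀ v, n ≤
      2 * ((A'.filter (G.Adj v)).card + (B'.filter (G.Adj v)).card + E.card) + 1 := by
    intro v
    have h1 := hdeg v
    have h2 : G.degree v ≤ (A'.filter (G.Adj v)).card + (B'.filter (G.Adj v)).card + E.card := by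
      rw [← G.card_neighborFinset_eq_degree]
      have h3 : G.neighborFinset v ⊆ A'.filter (G.Adj v) ∪ (B'.filter (G.Adj v) ∪ E) := by
        intro w hw
        rw [mem_neighborFinset] at hw
        simp only [Finset.mem_union, Finset.mem_filter (s := A'), Finset.mem_filter (s := B')]
        rcases hcov w with h | h | h
        · exact Or.inl ⟨h, hw⟩
        · exact Or.inr (Or.inl ⟨h, hw⟩)
        · exact Or.inr (Or.inr h)
      have h4 := Finset.card_le_card h3
      have h5 := Finset.card_union_le (A'.filter (G.Adj v)) (B'.filter (G.Adj v) ∪ E)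
      have h6 := Finset.card_union_le (B'.filter (G.Adj v)) E
      omega
    omega
  -- arithmetic
  obtain ⟨e, he⟩ : ∃ e, e = E.card := ⟨_, rfl⟩
  rw [← he] at hEc hcard hsum
  have hke : 16 * (k * e) + 16 * e ≤ n := by
    have : e * R = 16 * (k * e) + 16 * e := by rw [hR]; ring
    omega
  have hconst : 32 * (k * (2 * q + 1) + q + q + 1) ≤ n := by omega
  have hkq : k * (2 * q + e + 1) = k * (2 * q + 1) + k * e := by ring
  have hBlow : A'.Nonempty → n ≤ 2 * B'.card + 2 * q + 2 * e + 1 := by
    rintro ⟨v, hv⟩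
    have e1 := hsum v
    have e2 := hAA v hv
    have e3 : (B'.filter (G.Adj v)).card ≤ B'.card := Finset.card_filter_le _ _
    omega
  have hAlow : B'.Nonempty → n ≤ 2 * A'.card + 2 * q + 2 * e + 1 := by
    rintro ⟨v, hv⟩
    have e1 := hsum v
    have e2 := hBB v hv
    have e3 : (A'.filter (G.Adj v)).card ≤ A'.card := Finset.card_filter_le _ _
    omega
  have hboth : A'.Nonempty ∧ B'.Nonempty := by
    rw [← Finset.card_pos, ← Finset.card_pos]
    rw [← Finset.card_pos] at hBlow hAlow
    omega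
  have hA'lo := hAlow hboth.2
  have hB'lo := hBlow hboth.1
  exact split_of (e := e) (by omega) hdeg hflex A' B' E hcov (by omega) (by omega) (by omega)
    hAA hBB (by omega)

end Pool.Agent.MP_f45649_co
end
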