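import Mathlib
import Pool.Agent.Lib.MP_f45649_co.Mg.G001
import Pool.Agent.Lib.MP_f45649_co.Mg.G003

section

/-!
The extremal problem for one odd wheel in nearly complete bipartite graphs, continued.
-/

namespace Pool.Agent.MP_f45649_co

open SimpleGraph Finset

variable {V : Type} [Fintype V] [DecidableEq V]

omit [Fintype V] in
/-- Two different edges inside `B` give one or two blocks with two extra vertices. -/
lemma two_edges {G : SimpleGraph V} [DecidableRel G.Adj] {B : Finset V} (h : 3 ≤ sg G B) :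
    ∃ P : List (List V), (∀ p ∈ P, p ≠ []) ∧ (∀ p ∈ P, p.IsChain G.Adj) ∧ P.flatten.Nodup ∧
      (∀ y ∈ P.flatten, y ∈ B) ∧ P.flatten.length = P.length + 2 ∧ 1 ≤ P.length ∧
      P.length ≤ 2 := by
  set Pr : Finset (V × V) := (B ×ˢ B).filter (fun z => G.Adj z.1 z.2) with hPr
  have hc : Pr.card = sg G B := by
    unfold sg dg
    rw [hPr, Finset.card_filter, Finset.sum_product]
    refine Finset.sum_congr rfl (fun v _ => ?_)
    rw [Finset.card_filter]
  have hpos : 0 < Pr.card := by omega
  obtain ⟨⟨a, b⟩, hab⟩ := Finset.card_pos.1 hpos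
  have h2 : (Pr \ {(a, b), (b, a)}).Nonempty := by
    rw [← Finset.card_pos]
    have e1 := Finset.le_card_sdiff {(a, b), (b, a)} Pr
    have e2 : ({(a, b), (b, a)} : Finset (V × V)).card ≤ 2 := Finset.card_le_two
    omega
  obtain ⟨⟨c, d⟩, hcd⟩ := h2
  rw [Finset.mem_sdiff] at hcd
  obtain ⟨hcd, hne⟩ := hcd
  rw [hPr, Finset.mem_filter, Finset.mem_product] at hab hcd
  obtain ⟨⟨haB, hbB⟩, hab⟩ := hab
  obtain ⟨⟨hcB, hdB⟩, hcd⟩ := hcd
  simp only at haB hbB hab hcB hdB hcd
  simp only [Finset.mem_insert, Finset.mem_singleton, Prod.mk.injEq, not_or, not_and] at hne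
  obtain ⟨hne1, hne2⟩ := hne
  -- a path with three vertices
  have hpath : ∀ x y z : V, x ∈ B → y ∈ B → z ∈ B → G.Adj x y → G.Adj y z → x ≠ z →
      ∃ P : List (List V), (∀ p ∈ P, p ≠ []) ∧ (∀ p ∈ P, p.IsChain G.Adj) ∧ P.flatten.Nodup ∧
      (∀ y ∈ P.flatten, y ∈ B) ∧ P.flatten.length = P.length + 2 ∧ 1 ≤ P.length ∧
      P.length ≤ 2 := by
    intro x y z hx hy hz hxy hyz hxz
    refine ⟨[[x, y, z]], by simp, ?_, ?_, ?_, by simp, by simp, by simp⟩
    · simp [hxy, hyz]
    · simp [hxy.ne, hyz.ne, hxz]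
    · simp [hx, hy, hz]
  by_cases hac : a = c
  · subst hac
    exact hpath b a d hbB haB hdB hab.symm hcd (fun h => hne1 rfl h.symm)
  by_cases had : a = d
  · subst had
    exact hpath b a c hbB haB hcB hab.symm hcd.symm (fun h => hne2 h.symm rfl)
  by_cases hbc : b = c
  · subst hbc
    exact hpath a b d haB hbB hdB hab hcd had
  by_cases hbd : b = d
  · subst hbd
    exact hpath a b c haB hbB hcB hab hcd.symm hac
  refine ⟨[[a, b], [c, d]], by simp, ?_, ?_, ?_, by simp, by simp, by simp⟩
  · simp [hab, hcd]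
  · simp [hab.ne, hcd.ne, hac, had, hbc, hbd]
  · simp [haB, hbB, hcB, hdB]

/-- If `B` contains two edges, then few vertices of `A` have inside degree `k - 1`. -/
lemma full_few {G : SimpleGraph V} [DecidableRel G.Adj] {A B : Finset V} {K D N k : ℕ}
    (hS : Split G A B K D) (hk : 3 ≤ k) (hfree : ∀ v l, IsRim G v l → l.length ≠ 2 * k)
    (hN : (k + 1) * D + 2 * k + 4 ≤ N) (hBN : N < B.card) (h3 : 3 ≤ sg G B) :
    cg G A (k - 1) ≤ 4 * (D * (1 + K)) := by
  obtain ⟨P, p1, p2, p3, p4, p5, p6, p7⟩ := two_edges h3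
  set W : Finset V := P.flatten.toFinset.biUnion (fun y =>
    (A.filter (fun w => ¬ G.Adj y w)).biUnion (fun a => insert a (A.filter (G.Adj a)))) with hW
  have hWc : W.card ≤ 4 * (D * (1 + K)) := by
    calc W.card ≤ ∑ y ∈ P.flatten.toFinset, ((A.filter (fun w => ¬ G.Adj y w)).biUnion
          (fun a => insert a (A.filter (G.Adj a)))).card := Finset.card_biUnion_le
      _ ≤ ∑ y ∈ P.flatten.toFinset, D * (1 + K) := by
          refine Finset.sum_le_sum (fun y hy => ?_)
          have hyB := p4 y (List.mem_toFinset.1 hy)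
          calc ((A.filter (fun w => ¬ G.Adj y w)).biUnion
                (fun a => insert a (A.filter (G.Adj a)))).card
              ≤ ∑ a ∈ A.filter (fun w => ¬ G.Adj y w),
                (insert a (A.filter (G.Adj a))).card := Finset.card_biUnion_le
            _ ≤ ∑ a ∈ A.filter (fun w => ¬ G.Adj y w), (1 + K) := by
                refine Finset.sum_le_sum (fun a ha => ?_)
                have e1 := Finset.card_insert_le a (A.filter (G.Adj a))
                have e2 := hS.inA a (Finset.mem_filter.1 ha).1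
                omega
            _ = (A.filter (fun w => ¬ G.Adj y w)).card * (1 + K) := by
                rw [Finset.sum_const, smul_eq_mul]
            _ ≤ D * (1 + K) := Nat.mul_le_mul_right _ (hS.missB y hyB)
      _ = P.flatten.toFinset.card * (D * (1 + K)) := by rw [Finset.sum_const, smul_eq_mul]
      _ ≤ 4 * (D * (1 + K)) := by
          apply Nat.mul_le_mul_right
          have := List.toFinset_card_le P.flatten
          omega
  refine le_trans ?_ hWc
  apply Finset.card_le_card
  intro x hx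
  rw [Finset.mem_filter] at hx
  obtain ⟨hxA, hxd⟩ := hx
  by_contra hxW
  -- `x` and its neighbours are adjacent to all vertices of the blocks
  have hall : ∀ a ∈ A, x = a ∨ G.Adj x a → ∀ y ∈ P.flatten, G.Adj a y := by
    intro a ha hxa y hy
    by_contra hcon
    apply hxW
    rw [hW, Finset.mem_biUnion]
    refine ⟨y, List.mem_toFinset.2 hy, ?_⟩
    rw [Finset.mem_biUnion]
    refine ⟨a, Finset.mem_filter.2 ⟨ha, fun h => hcon h.symm⟩, ?_⟩
    rw [Finset.mem_insert, Finset.mem_filter]
    rcases hxa with h | h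
    · exact Or.inl h
    · exact Or.inr ⟨hxA, h.symm⟩
  obtain ⟨X, hX, hXc⟩ := Finset.exists_subset_card_eq hxd
  obtain ⟨l, hl, hll⟩ := find_wheel (N := N) hS hxA X hX P p1 p2 p3
    (fun y hy => hall x hxA (Or.inl rfl) y hy)
    (fun x' hx' y hy => hall x' (Finset.mem_filter.1 (hX hx')).1
      (Or.inr (Finset.mem_filter.1 (hX hx')).2) y hy)
    (List.replicate (k - 1 - P.length) 1)
    (fun s hs => by rw [List.eq_of_mem_replicate hs])
    (fun s hs => by rw [List.eq_of_mem_replicate hs]; exact supply_one hBN)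
    (by rw [List.length_replicate, hXc]; omega)
    (by
      rw [hXc, List.sum_replicate, smul_eq_mul, mul_one, p5]
      have : (k - 1 + 1) * D ≤ (k + 1) * D := Nat.mul_le_mul_right _ (by omega)
      omega)
  apply hfree x l hl
  rw [hll, hXc, p5, List.sum_replicate, smul_eq_mul, mul_one]
  omega

/-- The value `max_{a ≤ n} (a (n - a) + ⌊(k - 1) a / 2⌋) + 1`. -/
def gval (k n : ℕ) : ℕ := (range (n + 1)).sup (fun a => a * (n - a) + ((k - 1) * a) / 2) + 1

lemma gval_ge {k n a b : ℕ} (h : a + b = n) : a * b + ((k - 1) * a) / 2 + 1 ≤ gval k n := by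
  unfold gval
  have h1 : a ∈ range (n + 1) := Finset.mem_range.2 (by omega)
  have h2 : a * (n - a) + ((k - 1) * a) / 2 ≤ _ :=
    Finset.le_sup (f := fun a => a * (n - a) + ((k - 1) * a) / 2) h1
  have h3 : n - a = b := by omega
  rw [h3] at h2
  omega

/-- The comparison with unbalanced inside degrees. -/
lemma gval_tie {k n a b M μ : ℕ} (h : a + b = n) (hM : 1 ≤ M) (hk : M + μ = k - 1)
    (hbig : M + μ ≤ b) : 2 * (a * b) + M * a + μ * b ≤ 2 * gval k n := by
  -- shift `a` by about `μ / 2`
  have key : ∀ t, t ≤ b → 2 * ((a + t) * (b - t)) + (M + μ) * (a + t) + 1 ≤ 2 * gval k n := by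
    intro t ht
    have h1 := gval_ge (k := k) (n := n) (a := a + t) (b := b - t) (by omega)
    rw [← hk] at h1
    omega
  rcases Nat.even_or_odd' μ with ⟨s, hs | hs⟩
  · have h1 := key s (by omega)
    obtain ⟨c, hc⟩ : ∃ c, b = s + c := ⟨b - s, by omega⟩
    have h2 : b - s = c := by omega
    rw [h2] at h1
    subst hs hc
    nlinarith [Nat.zero_le (s * M), Nat.zero_le (a * s)]
  · by_cases hab : a ≤ b
    · have h1 := key (s + 1) (by omega)
      obtain ⟨c, hc⟩ : ∃ c, b = (s + 1) + c := ⟨b - (s + 1), by omega⟩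
      have h2 : b - (s + 1) = c := by omega
      rw [h2] at h1
      obtain ⟨M', rfl⟩ : ∃ M', M = M' + 1 := ⟨M - 1, by omega⟩
      subst hs hc
      nlinarith [Nat.zero_le (s * M')]
    · have h1 := key s (by omega)
      obtain ⟨c, hc⟩ : ∃ c, b = s + c := ⟨b - s, by omega⟩
      have h2 : b - s = c := by omega
      rw [h2] at h1
      subst hs hc
      nlinarith [Nat.zero_le (s * M)]

/-- The main case: both parts have many vertices with inside neighbours. -/
lemma tie_case {G : SimpleGraph V} [DecidableRel G.Adj] {A B : Finset V}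
    {K D N L k M μ n : ℕ} (hS : Split G A B K D) (hk : 3 ≤ k)
    (hfree : ∀ v l, IsRim G v l → l.length ≠ 2 * k) (hN : (k + 1) * D + 2 * k + 4 ≤ N)
    (hL : L = N * (1 + K + K * K)) (hA : ∀ x ∈ A, dg G A x ≤ k - 1)
    (hB : ∀ y ∈ B, dg G B y ≤ k - 1) (hM : L < cg G A M) (hμ : L < cg G B μ)
    (hμ' : cg G B (μ + 1) ≤ L) (hle : μ ≤ M) (hM2 : M ≤ k - 2) (hsum : k - 1 ≤ M + μ)
    (hn : A.card + B.card = n) (hbig : k ≤ B.card)
    (hAbig : L + 4 * (L * (1 + K)) < A.card) :
    2 * #G.edgeFinset ≤ 2 * gval k n := by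
  have hN' : (k + 1) * D + 2 * k ≤ N := by omega
  have hE := edges_split hS
  have conclude : M + μ = k - 1 → 1 ≤ M → sg G A + sg G B ≤ M * A.card + μ * B.card →
      2 * #G.edgeFinset ≤ 2 * gval k n := by
    intro h1 h2 h3
    have := gval_tie (k := k) hn h2 h1 (by omega)
    omega
  have hμ1 : 1 ≤ μ := by omega
  obtain ⟨x₀, hx₀, hx₀M⟩ := exists_of_cg (lt_of_le_of_lt (Nat.zero_le L) hM)
  by_cases hμ2 : 2 ≤ μ
  · -- paths with three vertices are available in `B`
    have hs3 : Supply G B N 3 :=
      supply_three hS.inB (by rw [← hL]; exact lt_of_lt_of_le hμ (cg_anti hμ2))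
    have hsA3 : Supply G A N 3 :=
      supply_three hS.inA (by rw [← hL]; exact lt_of_lt_of_le hM (cg_anti (by omega)))
    have h4 : 4 * M < 2 * k := by
      by_contra hcon
      push Not at hcon
      obtain ⟨l, hl, hll⟩ := wheel_of_degree hS hx₀ hx₀M (k := k) (s := 3) (by omega) (by omega)
        hs3 hN'
      exact hfree _ l hl hll
    have hMμ : μ = M := by omega
    have hAM : ∀ x ∈ A, dg G A x ≤ M := by
      intro x hx
      by_contra hcon
      push Not at hcon
      obtain ⟨l, hl, hll⟩ := wheel_of_degree hS hx hcon (k := k) (s := 3) (by omega) (by omega)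
        hs3 hN'
      exact hfree _ l hl hll
    have hBM : ∀ y ∈ B, dg G B y ≤ M := by
      intro y hy
      by_contra hcon
      push Not at hcon
      obtain ⟨l, hl, hll⟩ := wheel_of_degree hS.symm hy hcon (k := k) (s := 3) (by omega)
        (by omega) hsA3 hN'
      exact hfree _ l hl hll
    apply conclude (by omega) (by omega)
    have h5 := sg_le hAM
    have h6 := sg_le hBM
    rw [hMμ]
    omega
  · have hμ1' : μ = 1 := by omega
    subst hμ1'
    have hMk : M = k - 2 := by omega
    have hs2 : Supply G B N 2 := supply_two hS.inB (by rw [← hL]; exact hμ)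
    have h3 : 3 * M < 2 * k := by
      by_contra hcon
      push Not at hcon
      obtain ⟨l, hl, hll⟩ := wheel_of_degree hS hx₀ hx₀M (k := k) (s := 2) (by omega) (by omega)
        hs2 hN'
      exact hfree _ l hl hll
    have hAM : ∀ x ∈ A, dg G A x ≤ M := by
      intro x hx
      by_contra hcon
      push Not at hcon
      obtain ⟨l, hl, hll⟩ := wheel_of_degree hS hx (p := k - 1) (by
        have : dg G A x = (A.filter (G.Adj x)).card := rfl
        omega) (k := k) (s := 2) (by omega) (by omega) hs2 hN'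
      exact hfree _ l hl hll
    have hsA := sg_le hAM
    have hB1 : ∀ s, 2 * k ≤ 2 * (1 + s) → Supply G A N s → ∀ y ∈ B, dg G B y ≤ 1 := by
      intro s hs hsup y hy
      by_contra hcon
      push Not at hcon
      obtain ⟨l, hl, hll⟩ := wheel_of_degree hS.symm hy (p := 2) hcon (k := k) (s := s)
        (by omega) (by omega) hsup hN'
      exact hfree _ l hl hll
    have hfin : (∀ y ∈ B, dg G B y ≤ 1) → 2 * #G.edgeFinset ≤ 2 * gval k n := by
      intro h
      apply conclude (by omega) (by omega)
      have := sg_le h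
      omega
    have hk5 : k = 3 ∨ k = 4 ∨ k = 5 := by omega
    rcases hk5 with rfl | rfl | rfl
    · apply hfin
      apply hB1 2 (by omega)
      apply supply_two hS.inA
      rw [← hL]
      exact lt_of_lt_of_le hM (cg_anti (by omega))
    · apply hfin
      apply hB1 3 (by omega)
      apply supply_three hS.inA
      rw [← hL]
      exact lt_of_lt_of_le hM (cg_anti (by omega))
    · have hM3 : M = 3 := by omega
      subst hM3
      set Df : Finset V := A.filter (fun x => dg G A x ≤ 2) with hDf
      by_cases hD4 : 4 * L ≤ Df.card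
      · -- the deficiency pays for the exceptional vertices
        apply conclude (by omega) (by omega)
        have h5 : sg G A + Df.card ≤ 3 * A.card := by
          have h6 : ∑ x ∈ A, (dg G A x + if dg G A x ≤ 2 then 1 else 0) ≤ ∑ x ∈ A, 3 := by
            refine Finset.sum_le_sum (fun x hx => ?_)
            have := hAM x hx
            split_ifs <;> omega
          rw [Finset.sum_add_distrib, ← Finset.card_filter, Finset.sum_const, smul_eq_mul] at h6
          have h7 : sg G A + Df.card ≤ A.card * 3 := h6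
          omega
        have h8 := sg_le' (t := 1) (k := 4) hB
        have h9 : cg G B (1 + 1) * 4 ≤ L * 4 := Nat.mul_le_mul_right _ hμ'
        omega
      · push Not at hD4
        apply hfin
        apply hB1 4 (by omega)
        set W : Finset V := Df.biUnion (fun x => insert x (A.filter (G.Adj x))) with hW
        have hWc : W.card ≤ 4 * (L * (1 + K)) := by
          calc W.card ≤ ∑ x ∈ Df, (insert x (A.filter (G.Adj x))).card := Finset.card_biUnion_le
            _ ≤ ∑ x ∈ Df, (1 + K) := by
                refine Finset.sum_le_sum (fun x hx => ?_)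
                have e1 := Finset.card_insert_le x (A.filter (G.Adj x))
                have e2 := hS.inA x (Finset.mem_filter.1 hx).1
                omega
            _ = Df.card * (1 + K) := by rw [Finset.sum_const, smul_eq_mul]
            _ ≤ (4 * L) * (1 + K) := Nat.mul_le_mul_right _ hD4.le
            _ = 4 * (L * (1 + K)) := by ring
        apply supply_four (Src := A \ W) hS.inA Finset.sdiff_subset
        · rw [← hL]
          have := Finset.le_card_sdiff W A
          omega
        · intro y hy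
          rw [Finset.mem_sdiff] at hy
          by_contra hcon
          apply hy.2
          rw [hW, Finset.mem_biUnion]
          refine ⟨y, Finset.mem_filter.2 ⟨hy.1, by omega⟩, Finset.mem_insert_self _ _⟩
        · intro y hy z hz hyz
          rw [Finset.mem_sdiff] at hy
          by_contra hcon
          apply hy.2
          rw [hW, Finset.mem_biUnion]
          refine ⟨z, Finset.mem_filter.2 ⟨hz, by omega⟩, ?_⟩
          exact Finset.mem_insert_of_mem (Finset.mem_filter.2 ⟨hy.1, hyz.symm⟩)

lemma gval_asymp (k n : ℕ) (hk : 1 ≤ k) : n * n + (k - 1) * n + 1 ≤ 4 * gval k n := by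
  obtain ⟨r, rfl⟩ : ∃ r, k = r + 1 := ⟨k - 1, by omega⟩
  rcases Nat.even_or_odd' n with ⟨t, ht | ht⟩
  · have h1 := gval_ge (k := r + 1) (n := n) (a := t) (b := t) (by omega)
    rw [Nat.add_sub_cancel] at h1 ⊢
    have h2 : r * t ≤ 2 * (r * t / 2) + 1 := by omega
    subst ht
    nlinarith
  · have h1 := gval_ge (k := r + 1) (n := n) (a := t + 1) (b := t) (by omega)
    rw [Nat.add_sub_cancel] at h1 ⊢
    have h2 : r * (t + 1) ≤ 2 * (r * (t + 1) / 2) + 1 := by omega
    subst ht
    nlinarith

/-- The exact bound for one wheel in a nearly complete bipartite graph. -/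
theorem single_le {G : SimpleGraph V} [DecidableRel G.Adj] {A B : Finset V}
    {K D k n c : ℕ} (hS : Split G A B K D) (hk : 3 ≤ k)
    (hfree : ∀ v l, IsRim G v l → l.length ≠ 2 * k)
    (hn : A.card + B.card = n) (hAc : n ≤ 2 * A.card + c) (hBc : n ≤ 2 * B.card + c)
    (hbig : c + 2 * k + 2 * (((k + 1) * D + 2 * k + 4) * (1 + K + K * K) +
      4 * ((((k + 1) * D + 2 * k + 4) * (1 + K + K * K)) * (1 + K))) + (k - 2) * c +
      4 * ((((k + 1) * D + 2 * k + 4) * (1 + K + K * K)) * k) + 2 ≤ n) :
    #G.edgeFinset ≤ gval k n := by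
  obtain ⟨N, hN⟩ : ∃ N, N = (k + 1) * D + 2 * k + 4 := ⟨_, rfl⟩
  obtain ⟨L, hL⟩ : ∃ L, L = N * (1 + K + K * K) := ⟨_, rfl⟩
  rw [← hN, ← hL] at hbig
  have hNL : N ≤ L := by rw [hL]; exact Nat.le_mul_of_pos_right N (by positivity)
  have hAN : N < A.card := by omega
  have hBN : N < B.card := by omega
  have hE := edges_split hS
  have hA : ∀ x ∈ A, dg G A x ≤ k - 1 := by
    intro x hx
    by_contra hcon
    push Not at hcon
    obtain ⟨l, hl, hll⟩ := wheel_of_degree hS hx (p := k) (by
      have : dg G A x = (A.filter (G.Adj x)).card := rfl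
      omega) (k := k) (s := 1) (by omega) (by omega) (supply_one hBN) (by omega)
    exact hfree _ l hl hll
  have hB : ∀ x ∈ B, dg G B x ≤ k - 1 := by
    intro x hx
    by_contra hcon
    push Not at hcon
    obtain ⟨l, hl, hll⟩ := wheel_of_degree hS.symm hx (p := k) (by
      have : dg G B x = (B.filter (G.Adj x)).card := rfl
      omega) (k := k) (s := 1) (by omega) (by omega) (supply_one hAN) (by omega)
    exact hfree _ l hl hll
  by_cases h2B : sg G B ≤ 2
  · have h1 := gval_ge (k := k) hn
    have h2 := sg_le hA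
    omega
  by_cases h2A : sg G A ≤ 2
  · have h1 := gval_ge (k := k) (n := n) (a := B.card) (b := A.card) (by omega)
    have h2 := sg_le hB
    rw [mul_comm B.card A.card] at h1
    omega
  push Not at h2A h2B
  have h4D : 4 * (D * (1 + K)) ≤ L := by
    rw [hL]
    calc 4 * (D * (1 + K)) = (4 * D) * (1 + K) := by ring
      _ ≤ N * (1 + K) := by
          apply Nat.mul_le_mul_right
          have : 4 * D ≤ (k + 1) * D := Nat.mul_le_mul_right _ (by omega)
          omega
      _ ≤ N * (1 + K + K * K) := Nat.mul_le_mul_left _ (by omega)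
  have hfA : cg G A (k - 1) ≤ L := le_trans (full_few hS hk hfree (by omega) hBN h2B) h4D
  have hfB : cg G B (k - 1) ≤ L := le_trans (full_few hS.symm hk hfree (by omega) hAN h2A) h4D
  have hA0 : L < cg G A 0 := by
    have : cg G A 0 = A.card := by simp [cg]
    omega
  have hB0 : L < cg G B 0 := by
    have : cg G B 0 = B.card := by simp [cg]
    omega
  classical
  obtain ⟨M, hM1, hM2, hM3⟩ : ∃ M, L < cg G A M ∧ M ≤ k - 2 ∧ cg G A (M + 1) ≤ L := by
    refine ⟨Nat.findGreatest (fun t => L < cg G A t) (k - 1), ?_, ?_, ?_⟩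
    · exact Nat.findGreatest_spec (P := fun t => L < cg G A t) (Nat.zero_le _) hA0
    · have h1 := Nat.findGreatest_le (P := fun t => L < cg G A t) (k - 1)
      have h2 := Nat.findGreatest_spec (P := fun t => L < cg G A t) (Nat.zero_le (k - 1)) hA0
      by_contra hcon
      have h3 : Nat.findGreatest (fun t => L < cg G A t) (k - 1) = k - 1 := by omega
      rw [h3] at h2
      omega
    · by_contra hcon
      push Not at hcon
      have h1 := Nat.findGreatest_le (P := fun t => L < cg G A t) (k - 1)
      have h2 := Nat.findGreatest_spec (P := fun t => L < cg G A t) (Nat.zero_le (k - 1)) hA0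
      by_cases h3 : Nat.findGreatest (fun t => L < cg G A t) (k - 1) = k - 1
      · rw [h3] at h2
        omega
      · exact Nat.findGreatest_is_greatest (P := fun t => L < cg G A t) (Nat.lt_succ_self _)
          (by omega) hcon
  obtain ⟨μ, hμ1, hμ2, hμ3⟩ : ∃ M, L < cg G B M ∧ M ≤ k - 2 ∧ cg G B (M + 1) ≤ L := by
    refine ⟨Nat.findGreatest (fun t => L < cg G B t) (k - 1), ?_, ?_, ?_⟩
    · exact Nat.findGreatest_spec (P := fun t => L < cg G B t) (Nat.zero_le _) hB0
    · have h1 := Nat.findGreatest_le (P := fun t => L < cg G B t) (k - 1)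
      have h2 := Nat.findGreatest_spec (P := fun t => L < cg G B t) (Nat.zero_le (k - 1)) hB0
      by_contra hcon
      have h3 : Nat.findGreatest (fun t => L < cg G B t) (k - 1) = k - 1 := by omega
      rw [h3] at h2
      omega
    · by_contra hcon
      push Not at hcon
      have h1 := Nat.findGreatest_le (P := fun t => L < cg G B t) (k - 1)
      have h2 := Nat.findGreatest_spec (P := fun t => L < cg G B t) (Nat.zero_le (k - 1)) hB0
      by_cases h3 : Nat.findGreatest (fun t => L < cg G B t) (k - 1) = k - 1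
      · rw [h3] at h2
        omega
      · exact Nat.findGreatest_is_greatest (P := fun t => L < cg G B t) (Nat.lt_succ_self _)
          (by omega) hcon
  by_cases hsum : k - 1 ≤ M + μ
  · rcases le_total μ M with hle | hle
    · have := tie_case (n := n) hS hk hfree (by omega) hL hA hB hM1 hμ1 hμ3 hle hM2 hsum hn
        (by omega) (by omega)
      omega
    · have := tie_case (n := n) hS.symm hk hfree (by omega) hL hB hA hμ1 hM1 hM3 hle hμ2
        (by omega) (by omega) (by omega) (by omega)
      omega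
  · push Not at hsum
    have h1 := sg_le' (t := M) (k := k) (fun v hv => le_trans (hA v hv) (Nat.sub_le k 1))
    have h2 := sg_le' (t := μ) (k := k) (fun v hv => le_trans (hB v hv) (Nat.sub_le k 1))
    have h3 : cg G A (M + 1) * k ≤ L * k := Nat.mul_le_mul_right _ hM3
    have h4 : cg G B (μ + 1) * k ≤ L * k := Nat.mul_le_mul_right _ hμ3
    have h5 := gval_asymp k n (by omega)
    have h6 : 2 * (M * A.card) ≤ M * (n + c) := by
      have : 2 * A.card ≤ n + c := by omega
      calc 2 * (M * A.card) = M * (2 * A.card) := by ring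
        _ ≤ M * (n + c) := Nat.mul_le_mul_left _ this
    have h7 : 2 * (μ * B.card) ≤ μ * (n + c) := by
      have : 2 * B.card ≤ n + c := by omega
      calc 2 * (μ * B.card) = μ * (2 * B.card) := by ring
        _ ≤ μ * (n + c) := Nat.mul_le_mul_left _ this
    have h8 : M * (n + c) + μ * (n + c) ≤ (k - 2) * n + (k - 2) * c := by
      calc M * (n + c) + μ * (n + c) = (M + μ) * (n + c) := by ring
        _ ≤ (k - 2) * (n + c) := Nat.mul_le_mul_right _ (by omega)
        _ = (k - 2) * n + (k - 2) * c := by ring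
    have h9 : 4 * (A.card * B.card) ≤ n * n := by
      rw [← hn]
      nlinarith [sq_nonneg ((A.card : ℤ) - B.card), Nat.zero_le (A.card * B.card),
        four_mul_le_sq_add A.card B.card]
    have h10 : (k - 1) * n = (k - 2) * n + n := by
      obtain ⟨r, rfl⟩ : ∃ r, k = r + 2 := ⟨k - 2, by omega⟩
      have e1 : r + 2 - 1 = r + 1 := by omega
      have e2 : r + 2 - 2 = r := by omega
      rw [e1, e2]
      ring
    omega

end Pool.Agent.MP_f45649_co
end

section

/-!
The values of the constructions.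
-/

namespace Pool.Agent.MP_f45649_co

open SimpleGraph Finset

/-- `max_{a ≤ n} (a (n - a) + ⌊a / 2⌋ + ⌊(n - a) / 2⌋)`. -/
def thval (n : ℕ) : ℕ := (range (n + 1)).sup (fun a => a * (n - a) + a / 2 + (n - a) / 2)

/-- `j` full vertices, and one wheel-free part. -/
def tval (j k n : ℕ) : ℕ := j.choose 2 + j * (n - j) + gval k (n - j)

/-- `j` full vertices, and two matchings. -/
def Thval (j n : ℕ) : ℕ := j.choose 2 + j * (n - j) + thval (n - j)

/-- The largest of the values. -/
def Val {m : ℕ} (k : Fin m → ℕ) (n : ℕ) : ℕ :=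
  max (univ.sup (fun i : Fin m => tval i (k i) n)) (Thval (m - 1) n)

lemma thval_ge {n a b : ℕ} (h : a + b = n) : a * b + a / 2 + b / 2 ≤ thval n := by
  unfold thval
  have h1 : a ∈ range (n + 1) := Finset.mem_range.2 (by omega)
  have h2 : a * (n - a) + a / 2 + (n - a) / 2 ≤ _ :=
    Finset.le_sup (f := fun a => a * (n - a) + a / 2 + (n - a) / 2) h1
  have h3 : n - a = b := by omega
  rw [h3] at h2
  omega

lemma thval_le {n x : ℕ} (h : ∀ a b, a + b = n → a * b + a / 2 + b / 2 ≤ x) : thval n ≤ x := by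
  unfold thval
  apply Finset.sup_le
  intro a ha
  have := Finset.mem_range.1 ha
  exact h a (n - a) (by omega)

lemma gval_le {k n x : ℕ} (h : ∀ a b, a + b = n → a * b + ((k - 1) * a) / 2 + 1 ≤ x) :
    gval k n ≤ x := by
  have h0 := h n 0 (by omega)
  unfold gval
  have : (range (n + 1)).sup (fun a => a * (n - a) + ((k - 1) * a) / 2) ≤ x - 1 := by
    apply Finset.sup_le
    intro a ha
    have := Finset.mem_range.1 ha
    have := h a (n - a) (by omega)
    omega
  omega

lemma gval_succ (k n : ℕ) : 2 * gval k n + n + 1 ≤ 2 * gval k (n + 1) + 1 := by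
  have h1 : gval k n ≤ gval k (n + 1) - (n + 1) / 2 := by
    apply gval_le
    intro a b hab
    have e1 := gval_ge (k := k) (n := n + 1) (a := a + 1) (b := b) (by omega)
    have e2 := gval_ge (k := k) (n := n + 1) (a := a) (b := b + 1) (by omega)
    have e3 : (a + 1) * b = a * b + b := by ring
    have e4 : a * (b + 1) = a * b + a := by ring
    have e5 : (k - 1) * a / 2 ≤ (k - 1) * (a + 1) / 2 :=
      Nat.div_le_div_right (Nat.mul_le_mul_left _ (by omega))
    omega
  have e1 := gval_ge (k := k) (n := n + 1) (a := n) (b := 1) (by omega)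
  omega

lemma thval_succ (n : ℕ) : 2 * thval n + n + 1 ≤ 2 * thval (n + 1) + 1 := by
  have h1 : thval n ≤ thval (n + 1) - (n + 1) / 2 := by
    apply thval_le
    intro a b hab
    have e1 := thval_ge (n := n + 1) (a := a + 1) (b := b) (by omega)
    have e2 := thval_ge (n := n + 1) (a := a) (b := b + 1) (by omega)
    have e3 : (a + 1) * b = a * b + b := by ring
    have e4 : a * (b + 1) = a * b + a := by ring
    omega
  have e1 := thval_ge (n := n + 1) (a := n) (b := 1) (by omega)
  omega

lemma thval_succ_le (n : ℕ) : thval (n + 1) ≤ thval n + (n + 1) / 2 + 1 := by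
  apply thval_le
  intro a b hab
  rcases le_total a b with h | h
  · obtain ⟨c, rfl⟩ : ∃ c, b = c + 1 := ⟨b - 1, by omega⟩
    have e1 := thval_ge (n := n) (a := a) (b := c) (by omega)
    have e3 : a * (c + 1) = a * c + a := by ring
    omega
  · obtain ⟨c, rfl⟩ : ∃ c, a = c + 1 := ⟨a - 1, by omega⟩
    have e1 := thval_ge (n := n) (a := c) (b := b) (by omega)
    have e3 : (c + 1) * b = c * b + b := by ring
    omega

lemma tval_join {j k n : ℕ} (h : j ≤ n) : tval (j + 1) k (n + 1) = n + tval j k n := by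
  unfold tval
  obtain ⟨r, rfl⟩ : ∃ r, n = j + r := ⟨n - j, by omega⟩
  have e1 : j + r + 1 - (j + 1) = r := by omega
  have e2 : j + r - j = r := by omega
  rw [e1, e2, Nat.choose_succ_succ' j 1, Nat.choose_one_right]
  ring

lemma Thval_join {j n : ℕ} (h : j ≤ n) : Thval (j + 1) (n + 1) = n + Thval j n := by
  unfold Thval
  obtain ⟨r, rfl⟩ : ∃ r, n = j + r := ⟨n - j, by omega⟩
  have e1 : j + r + 1 - (j + 1) = r := by omega
  have e2 : j + r - j = r := by omega
  rw [e1, e2, Nat.choose_succ_succ' j 1, Nat.choose_one_right]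
  ring

lemma tval_succ {j k n : ℕ} (h : j ≤ n) : 2 * tval j k n + n ≤ 2 * tval j k (n + 1) := by
  unfold tval
  obtain ⟨r, rfl⟩ : ∃ r, n = j + r := ⟨n - j, by omega⟩
  have e1 : j + r + 1 - j = r + 1 := by omega
  have e2 : j + r - j = r := by omega
  rw [e1, e2]
  have e3 := gval_succ k r
  have e4 : j * (r + 1) = j * r + j := by ring
  omega

lemma Thval_succ {j n : ℕ} (h : j ≤ n) : 2 * Thval j n + n ≤ 2 * Thval j (n + 1) := by
  unfold Thval
  obtain ⟨r, rfl⟩ : ∃ r, n = j + r := ⟨n - j, by omega⟩
  have e1 : j + r + 1 - j = r + 1 := by omega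
  have e2 : j + r - j = r := by omega
  rw [e1, e2]
  have e3 := thval_succ r
  have e4 : j * (r + 1) = j * r + j := by ring
  omega

lemma Thval_mono_left {j n : ℕ} (h : j + 4 ≤ n) : Thval j n ≤ Thval (j + 1) n := by
  obtain ⟨n', rfl⟩ : ∃ n', n = n' + 1 := ⟨n - 1, by omega⟩
  rw [Thval_join (by omega)]
  unfold Thval
  obtain ⟨r, rfl⟩ : ∃ r, n' = j + r := ⟨n' - j, by omega⟩
  have e1 : j + r + 1 - j = r + 1 := by omega
  have e2 : j + r - j = r := by omega
  rw [e1, e2]
  have e3 := thval_succ_le r
  have e4 : j * (r + 1) = j * r + j := by ring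
  omega

lemma Thval_zero_le (j n : ℕ) (h : j + 4 ≤ n) : Thval 0 n ≤ Thval j n := by
  induction j with
  | zero => exact le_refl _
  | succ j ih => exact le_trans (ih (by omega)) (Thval_mono_left (by omega))

lemma tval_le_Val {m : ℕ} (k : Fin m → ℕ) (n : ℕ) (i : Fin m) : tval i (k i) n ≤ Val k n :=
  le_trans (Finset.le_sup (f := fun i : Fin m => tval i (k i) n) (Finset.mem_univ i))
    (le_max_left _ _)

lemma Thval_le_Val {m : ℕ} (k : Fin m → ℕ) (n : ℕ) : Thval (m - 1) n ≤ Val k n :=
  le_max_right _ _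

lemma Val_le {m : ℕ} {k : Fin m → ℕ} {n x : ℕ} (h1 : ∀ i : Fin m, tval i (k i) n ≤ x)
    (h2 : Thval (m - 1) n ≤ x) : Val k n ≤ x :=
  max_le (Finset.sup_le (fun i _ => h1 i)) h2

lemma Val_join {m : ℕ} (k : Fin (m + 2) → ℕ) {n : ℕ} (h : m + 1 ≤ n) :
    n + Val (fun i : Fin (m + 1) => k i.succ) n ≤ Val k (n + 1) := by
  have h1 : Val (fun i : Fin (m + 1) => k i.succ) n ≤ Val k (n + 1) - n := by
    apply Val_le
    · intro i
      have e1 := tval_le_Val k (n + 1) i.succ
      rw [Fin.val_succ, tval_join (by omega)] at e1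
      omega
    · have e1 := Thval_le_Val k (n + 1)
      have e2 : m + 2 - 1 = m + 1 := by omega
      have e3 : m + 1 - 1 = m := by omega
      rw [e2, Thval_join (by omega)] at e1
      rw [e3]
      omega
  have e1 := Thval_le_Val k (n + 1)
  have e2 : m + 2 - 1 = m + 1 := by omega
  rw [e2, Thval_join (by omega)] at e1
  omega

lemma Val_succ {m : ℕ} (k : Fin m → ℕ) {n : ℕ} (h : m ≤ n) :
    2 * Val k n + n ≤ 2 * Val k (n + 1) := by
  have e0 := Thval_le_Val k (n + 1)
  have e0' := Thval_succ (j := m - 1) (n := n) (by omega)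
  have h1 : Val k n ≤ (2 * Val k (n + 1) - n) / 2 := by
    apply Val_le
    · intro i
      have e1 := tval_le_Val k (n + 1) i
      have e2 := tval_succ (j := i) (k := k i) (n := n) (by omega)
      omega
    · omega
  omega

lemma Val_add {m : ℕ} (k : Fin m → ℕ) {n : ℕ} (h : m ≤ n) (t : ℕ) :
    2 * Val k n + t * n ≤ 2 * Val k (n + t) := by
  induction t with
  | zero => simp
  | succ t ih =>
    have h1 := Val_succ k (n := n + t) (by omega)
    have h2 : (t + 1) * n = t * n + n := by ring
    rw [← add_assoc]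
    omega

end Pool.Agent.MP_f45649_co
end

section

/-!
The exact number of edges of the construction with two matchings.
-/

namespace Pool.Agent.MP_f45649_co

open SimpleGraph Finset

/-- The correction term. -/
def phi (N : ℕ) : ℕ := if N % 4 = 0 then 0 else if N % 4 = 2 then 4 else 3

lemma cnt_base (s : ℕ) : cnt s s = s * (s - 1) := by
  unfold cnt
  have e1 : ∀ x ∈ range s, (∑ y ∈ range s, if R s x y then 1 else 0) = s - 1 := by
    intro x hx
    have hx' := Finset.mem_range.1 hx
    rw [← Finset.card_filter]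
    have : (range s).filter (fun y => R s x y) = (range s).erase x := by
      ext y
      rw [Finset.mem_filter, Finset.mem_erase, Finset.mem_range]
      unfold R
      omega
    rw [this, Finset.card_erase_of_mem hx, Finset.card_range]
  rw [Finset.sum_congr rfl e1, Finset.sum_const, Finset.card_range, smul_eq_mul]

lemma cnt_lower' (s N : ℕ) :
    N * N + 4 * (s * N) + 2 * N + 2 * (s * (s - 1)) ≤ 2 * cnt s (s + N) + phi N := by
  unfold phi
  induction N with
  | zero =>
    rw [add_zero, cnt_base]
    simp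
  | succ N ih =>
    have h1 := back_degree s N
    have h2 := cnt_succ s (s + N)
    rw [← add_assoc, h2]
    have h3 : (N + 1) * (N + 1) = N * N + 2 * N + 1 := by ring
    have h4 : s * (N + 1) = s * N + s := by ring
    rw [h3, h4]
    split_ifs at ih h1 ⊢ <;> omega

lemma thval_upper (N : ℕ) : 4 * thval N + phi N ≤ N * N + 2 * N := by
  have h0 : phi N ≤ N * N + 2 * N := by
    unfold phi
    rcases N with _ | _ | N
    · simp
    · simp
    · split_ifs <;> nlinarith
  have key : thval N ≤ (N * N + 2 * N - phi N) / 4 := by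
    apply thval_le
    intro a b hab
    rw [Nat.le_div_iff_mul_le (by norm_num)]
    have main : (a * b + a / 2 + b / 2) * 4 + phi N ≤ N * N + 2 * N := by
      have hsq : 4 * (a * b) ≤ N * N ∧ (a ≠ b → 4 * (a * b) + 1 ≤ N * N) ∧
          (a + 2 ≤ b ∨ b + 2 ≤ a → 4 * (a * b) + 4 ≤ N * N) := by
        subst hab
        refine ⟨?_, ?_, ?_⟩
        · rcases le_total a b with h | h
          · obtain ⟨c, rfl⟩ : ∃ c, b = a + c := ⟨b - a, by omega⟩
            nlinarith
          · obtain ⟨c, rfl⟩ : ∃ c, a = b + c := ⟨a - b, by omega⟩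
            nlinarith
        · intro hne
          rcases Nat.lt_or_gt_of_ne hne with h | h
          · obtain ⟨c, rfl⟩ : ∃ c, b = a + (c + 1) := ⟨b - a - 1, by omega⟩
            nlinarith
          · obtain ⟨c, rfl⟩ : ∃ c, a = b + (c + 1) := ⟨a - b - 1, by omega⟩
            nlinarith
        · rintro (h | h)
          · obtain ⟨c, rfl⟩ : ∃ c, b = a + (c + 2) := ⟨b - a - 2, by omega⟩
            nlinarith
          · obtain ⟨c, rfl⟩ : ∃ c, a = b + (c + 2) := ⟨a - b - 2, by omega⟩
            nlinarith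
      obtain ⟨s1, s2, s3⟩ := hsq
      unfold phi
      by_cases hab' : a = b
      · split_ifs <;> omega
      · by_cases hab2 : a + 2 ≤ b ∨ b + 2 ≤ a
        · have := s3 hab2
          split_ifs <;> omega
        · have := s2 hab'
          split_ifs <;> omega
    omega
  omega

/-- The construction with two matchings gives the value `Thval (m - 1) n`. -/
theorem lower_Th {m : ℕ} (hm : 1 ≤ m) (k : Fin m → ℕ) (hk : ∀ i, 2 ≤ k i) {n : ℕ}
    (hn : m - 1 ≤ n) : Thval (m - 1) n ≤ extremalNumber n (wheels k) := by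
  obtain ⟨s, hs⟩ : ∃ s, s = m - 1 := ⟨_, rfl⟩
  obtain ⟨N, rfl⟩ : ∃ N, n = s + N := ⟨n - s, by omega⟩
  have h1 := free (n := s + N) hm k hk
  have h2 := card_edgeFinset_le_extremalNumber h1
  rw [Fintype.card_fin, ← hs] at h2
  refine le_trans ?_ h2
  have h3 := cnt_lower' s N
  have h4 := two_mul_edges s (s + N)
  have h5 := thval_upper N
  unfold Thval
  rw [← hs, Nat.add_sub_cancel_left]
  have h6 : 2 * s.choose 2 = s * (s - 1) := by
    rw [Nat.choose_two_right]
    exact Nat.mul_div_cancel' (Nat.even_mul_pred_self s).two_dvd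
  omega

end Pool.Agent.MP_f45649_co
end

section

/-!
The wheel `W_5` in nearly complete bipartite graphs.
-/

namespace Pool.Agent.MP_f45649_co

open SimpleGraph Finset

variable {V : Type} [Fintype V] [DecidableEq V]

lemma sg_even (G : SimpleGraph V) [DecidableRel G.Adj] (S : Finset V) : Even (sg G S) := by
  let G' : SimpleGraph V :=
    { Adj := fun x y => G.Adj x y ∧ x ∈ S ∧ y ∈ S
      symm := ⟨fun x y h => ⟨h.1.symm, h.2.2, h.2.1⟩⟩
      loopless := ⟨fun x h => G.loopless.irrefl x h.1⟩ }
  have : DecidableRel G'.Adj := fun x y => inferInstanceAs (Decidable (G.Adj x y ∧ x ∈ S ∧ y ∈ S))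
  have h1 : sg G S = ∑ v, G'.degree v := by
    unfold sg
    rw [← Finset.sum_subset (Finset.subset_univ S)]
    · refine Finset.sum_congr rfl (fun v hv => ?_)
      rw [← G'.card_neighborFinset_eq_degree, neighborFinset_eq_filter]
      unfold dg
      congr 1
      ext w
      simp only [Finset.mem_filter, Finset.mem_univ, true_and]
      exact ⟨fun h => ⟨h.2, hv, h.1⟩, fun h => ⟨h.2.2, h.1⟩⟩
    · intro v _ hv
      rw [← G'.card_neighborFinset_eq_degree, Finset.card_eq_zero]
      rw [Finset.eq_empty_iff_forall_notMem]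
      intro w hw
      rw [mem_neighborFinset] at hw
      exact hv hw.2.1
  rw [h1, G'.sum_degrees_eq_twice_card_edges]
  exact even_two_mul _

/-- The exact bound for `W_5` in a nearly complete bipartite graph. -/
theorem single_two_le {G : SimpleGraph V} [DecidableRel G.Adj] {A B : Finset V}
    {K D n : ℕ} (hS : Split G A B K D) (hfree : ∀ v l, IsRim G v l → l.length ≠ 2 * 2)
    (hn : A.card + B.card = n) (hA : 3 * D + 4 < A.card) (hB : 3 * D + 4 < B.card) :
    #G.edgeFinset ≤ thval n := by
  have hE := edges_split hS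
  have hA1 : ∀ x ∈ A, dg G A x ≤ 1 := by
    intro x hx
    by_contra hcon
    push Not at hcon
    obtain ⟨l, hl, hll⟩ := wheel_of_degree hS hx (p := 2) hcon (k := 2) (s := 1) (by omega)
      (by omega) (supply_one hB) (by omega)
    exact hfree _ l hl hll
  have hB1 : ∀ x ∈ B, dg G B x ≤ 1 := by
    intro x hx
    by_contra hcon
    push Not at hcon
    obtain ⟨l, hl, hll⟩ := wheel_of_degree hS.symm hx (p := 2) hcon (k := 2) (s := 1) (by omega)
      (by omega) (supply_one hA) (by omega)
    exact hfree _ l hl hll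
  have e1 := sg_le hA1
  have e2 := sg_le hB1
  obtain ⟨a, ha⟩ := sg_even G A
  obtain ⟨b, hb⟩ := sg_even G B
  have e3 := thval_ge hn
  omega

end Pool.Agent.MP_f45649_co
end

section

/-!
The upper bound for disjoint unions of odd wheels.
-/

namespace Pool.Agent.MP_f45649_co

open SimpleGraph Finset

lemma split_structure {n q : ℕ} {G : SimpleGraph (Fin n)} [DecidableRel G.Adj]
    (hdeg : ∀ v, n ≤ 2 * G.degree v + 1) (hn : 2 * q + 2 ≤ n) {A : Finset (Fin n)}
    (hA : ∀ v ∈ A, (A.filter (G.Adj v)).card < q) (hB : ∀ v ∈ Aᶜ, (Aᶜ.filter (G.Adj v)).card < q) :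
    Split G A Aᶜ q (2 * q + 1) ∧ n ≤ 2 * A.card + (2 * q + 1) ∧
      n ≤ 2 * (Aᶜ).card + (2 * q + 1) ∧ A.card + (Aᶜ).card = n ∧
      ∀ v, 2 * G.degree v ≤ n + 4 * q + 1 := by
  have hcard : A.card + (Aᶜ).card = n := by
    have := Finset.card_add_card_compl A
    rwa [Fintype.card_fin] at this
  have hd : ∀ v, G.degree v = (A.filter (G.Adj v)).card + (Aᶜ.filter (G.Adj v)).card := by
    intro v
    rw [← G.card_neighborFinset_eq_degree, neighborFinset_eq_filter, ← Finset.union_compl A,
      Finset.filter_union]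
    apply Finset.card_union_of_disjoint
    exact Finset.disjoint_filter_filter disjoint_compl_right
  have hle : ∀ v, (A.filter (G.Adj v)).card ≤ A.card ∧ (Aᶜ.filter (G.Adj v)).card ≤ (Aᶜ).card :=
    fun v => ⟨Finset.card_filter_le _ _, Finset.card_filter_le _ _⟩
  have hAB : ∀ v ∈ A, n ≤ 2 * (Aᶜ.filter (G.Adj v)).card + 2 * q := by
    intro v hv
    have e1 := hA v hv
    have e2 := hd v
    have e3 := hdeg v
    omega
  have hBA : ∀ v ∈ Aᶜ, n ≤ 2 * (A.filter (G.Adj v)).card + 2 * q := by
    intro v hv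
    have e1 := hB v hv
    have e2 := hd v
    have e3 := hdeg v
    omega
  have hBne : A.Nonempty → n ≤ 2 * (Aᶜ).card + 2 * q := by
    rintro ⟨v, hv⟩
    have e1 := hAB v hv
    have e2 := hle v
    omega
  have hAne : (Aᶜ).Nonempty → n ≤ 2 * A.card + 2 * q := by
    rintro ⟨v, hv⟩
    have e1 := hBA v hv
    have e2 := hle v
    omega
  rw [← Finset.card_pos] at hBne hAne
  have hAc : n ≤ 2 * A.card + 2 * q := by
    by_cases h : 0 < (Aᶜ).card
    · exact hAne h
    · have h2 := hBne (by omega)
      omega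
  have hBc : n ≤ 2 * (Aᶜ).card + 2 * q := by
    by_cases h : 0 < A.card
    · exact hBne h
    · have h2 := hAne (by omega)
      omega
  refine ⟨⟨disjoint_compl_right, Finset.union_compl A, fun v hv => (hA v hv).le,
    fun v hv => (hB v hv).le, ?_, ?_⟩, by omega, by omega, hcard, ?_⟩
  · intro v hv
    have e1 := hAB v hv
    have e2 := filter_add_filter_not Aᶜ G v
    omega
  · intro v hv
    have e1 := hBA v hv
    have e2 := filter_add_filter_not A G v
    omega
  · intro v
    have e1 := hd v
    have e2 := hle v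
    by_cases hv : v ∈ A
    · have e3 := hA v hv
      omega
    · have e3 := hB v (Finset.mem_compl.2 hv)
      omega

/-- The inductive step. -/
lemma upper_step {m : ℕ} (k : Fin (m + 1) → ℕ) (hk : ∀ i, 2 ≤ k i)
    (ih : ∃ n₂ : ℕ, ∀ n', n₂ ≤ n' → ∀ (W : Type) [Fintype W] [DecidableEq W]
      (G' : SimpleGraph W) [DecidableRel G'.Adj], Fintype.card W = n' →
      (wheels (fun i : Fin m => k i.succ)).Free G' → ∀ t,
      2 * #G'.edgeFinset + t * n' + 2 * (n' + t) ≤ 2 * Val k (n' + t + 1)) :
    ∃ n₁ : ℕ, ∀ n, n₁ ≤ n → extremalNumber n (wheels k) ≤ Val k n := by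
  classical
  obtain ⟨n₂, ih⟩ := ih
  obtain ⟨κ, hκ⟩ : ∃ κ, κ = k 0 := ⟨_, rfl⟩
  have hκ2 : 2 ≤ κ := by rw [hκ]; exact hk 0
  obtain ⟨z, hz⟩ : ∃ z, z = tailSize k := ⟨_, rfl⟩
  obtain ⟨q, hq⟩ : ∃ q, q = κ + z := ⟨_, rfl⟩
  obtain ⟨D, hD⟩ : ∃ D, D = 2 * q + 1 := ⟨_, rfl⟩
  obtain ⟨n₁, hst⟩ := structure_thm κ z (by omega)
  obtain ⟨c₁, hc₁⟩ : ∃ c₁, c₁ = (2 * q + 1) + 2 * κ +
      2 * (((κ + 1) * D + 2 * κ + 4) * (1 + q + q * q) +
      4 * ((((κ + 1) * D + 2 * κ + 4) * (1 + q + q * q)) * (1 + q))) + (κ - 2) * (2 * q + 1) +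
      4 * ((((κ + 1) * D + 2 * κ + 4) * (1 + q + q * q)) * κ) + 2 := ⟨_, rfl⟩
  obtain ⟨c₂, hc₂⟩ : ∃ c₂, c₂ = (2 * κ + 1) * (4 * q + 1) + 2 + 2 * κ * (2 * κ + 1) := ⟨_, rfl⟩
  apply reduce (wheels k) (Val k) (n₁ + n₂ + c₁ + c₂ + (m + 8) + (2 * κ + 2) + 2 * (3 * D + 4 + q))
  · intro n hn
    exact Val_succ k (by omega)
  intro n hn G inst hfree hdeg
  have hVge : Thval m n ≤ Val k n := by
    have := Thval_le_Val k n
    rwa [Nat.add_sub_cancel] at this
  have : inst = Classical.decRel _ := Subsingleton.elim _ _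
  by_cases hflex : ∃ v, Flexible G κ z v
  · obtain ⟨v, hv⟩ := hflex
    rw [hκ, hz] at hv
    have h1 := free_of_flexible (by have := hk 0; omega) hfree hv
    have h2 := ih (n - 1) (by omega) _ (G.induce ({v}ᶜ : Set (Fin n))) (by
      rw [Fintype.card_compl_set]; simp) h1 0
    have h3 := G.card_edgeFinset_induce_compl_singleton v
    have h4 := G.card_edgeFinset_deleteIncidenceSet v
    have h5 := G.degree_lt_card_verts v
    rw [Fintype.card_fin] at h5
    have h6 : n - 1 + 0 + 1 = n := by omega
    rw [h6] at h2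
    omega
  · push Not at hflex
    obtain ⟨A, hA, hB⟩ := hst n (by omega) G hdeg hflex
    rw [← hq] at hA hB
    obtain ⟨hS, hAc, hBc, hcard, hdmax⟩ := split_structure hdeg (by omega) hA hB
    rw [← hD] at hS
    by_cases hrim : ∃ v l, IsRim G v l ∧ l.length = 2 * κ
    · obtain ⟨v, l, hl, hll⟩ := hrim
      rw [hκ] at hll
      have h1 := free_of_rim (by have := hk 0; omega) hfree hl hll
      set U : Finset (Fin n) := insert v l.toFinset with hU
      have hUc : U.card = 2 * κ + 1 := by
        rw [hU, Finset.card_insert_of_notMem, List.toFinset_card_of_nodup hl.nodup, hll, hκ]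
        intro h
        exact G.loopless.irrefl v (hl.hub v (List.mem_toFinset.1 h))
      have h2 := edges_le_induce G U
      have h3 : 2 * ∑ u ∈ U, G.degree u ≤ (2 * κ + 1) * (n + 4 * q + 1) := by
        rw [Finset.mul_sum, ← hUc, ← smul_eq_mul]
        exact Finset.sum_le_card_nsmul _ _ _ (fun u _ => hdmax u)
      obtain ⟨n', hn'⟩ : ∃ n', n = n' + 2 * κ + 1 := ⟨n - (2 * κ + 1), by omega⟩
      have h4 := ih n' (by omega) _ (G.induce ((U : Set (Fin n))ᶜ)) (by
        rw [Fintype.card_compl_set]
        simp only [Fintype.card_fin, Finset.coe_sort_coe, Fintype.card_coe, hUc]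
        omega) h1 (2 * κ)
      rw [← hn'] at h4
      have h5 : (2 * κ + 1) * (n + 4 * q + 1) = 2 * κ * n + n + (2 * κ + 1) * (4 * q + 1) := by
        ring
      have h6 : 2 * κ * n = 2 * κ * n' + 2 * κ * (2 * κ + 1) := by rw [hn']; ring
      omega
    · push Not at hrim
      by_cases hκ3 : 3 ≤ κ
      · have h1 := single_le (c := 2 * q + 1) hS hκ3 (fun v l h => hrim v l h) hcard hAc hBc (by
          rw [← hc₁]; omega)
        have h2 := tval_le_Val k n 0
        have h3 : tval (0 : ℕ) (k 0) n = gval (k 0) n := by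
          unfold tval
          simp
        rw [Fin.val_zero, h3, ← hκ] at h2
        omega
      · have hκ2' : κ = 2 := by omega
        subst hκ2'
        have h1 := single_two_le hS (fun v l h => hrim v l h) hcard (by omega) (by omega)
        have h2 := Thval_zero_le m n (by omega)
        have h3 : Thval 0 n = thval n := by
          unfold Thval
          simp
        omega

/-- The upper bound: for every order of the sizes, the extremal number is at most `Val`. -/
theorem upper : ∀ (m : ℕ) (k : Fin (m + 1) → ℕ), (∀ i, 2 ≤ k i) →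
    ∃ n₁ : ℕ, ∀ n, n₁ ≤ n → extremalNumber n (wheels k) ≤ Val k n
  | 0, k, hk => by
    apply upper_step k hk
    refine ⟨0, fun n' _ W _ _ G' _ _ hfree => ?_⟩
    exfalso
    apply hfree
    refine ⟨⟨⟨fun x => x.1.elim0, ?_⟩, ?_⟩⟩
    · intro a; exact a.1.elim0
    · intro a; exact a.1.elim0
  | m + 1, k, hk => by
    obtain ⟨n₁, h⟩ := upper m (fun i => k i.succ) (fun i => hk _)
    apply upper_step k hk
    refine ⟨n₁ + m + 1, fun n' hn' W _ _ G' _ hW hfree t => ?_⟩
    have h1 := card_edgeFinset_le_extremalNumber hfree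
    rw [hW] at h1
    have h2 := h n' (by omega)
    have h3 := Val_add (fun i : Fin (m + 1) => k i.succ) (n := n') (by omega) t
    have h4 := Val_join k (n := n' + t) (by omega)
    omega

end Pool.Agent.MP_f45649_co
end
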